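import Pool.Agent.Lib.MP_c8ac39_lc.Tree

/-! From the somewhere dense form to the strong subtree form. -/

namespace Pool.Agent.Lib.MP_c8ac39_lc

open Pool.Agent.Lib.MP_2739cb_lc

universe u v

variable {P : Type u} [Preorder P] [OrderTop P] {κ : Mod P}

section Notions

variable {ι : Type} (f g h k : (ι → Mod P) → Mod P) [Tm f] [Tm g] [Tm h] [Tm k]

instance : Df fun v => CardLe EM (f v) (g v) :=
  have : Df2 (CardLe (EM (P := P))) := by unfold Df2 CardLe; infer_instance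
  Df.of2 _ f g

instance : Df fun v => CardEq EM (f v) (g v) :=
  have : Df2 (CardEq (EM (P := P))) := by unfold Df2 CardEq; infer_instance
  Df.of2 _ f g

instance : Df fun v => Small EM (f v) (g v) :=
  have : Df2 (Small (EM (P := P))) := by unfold Df2 Small; infer_instance
  Df.of2 _ f g

instance : Df fun v => IsTree EM (f v) (g v) :=
  have : Df2 (IsTree (EM (P := P))) := by unfold Df2 IsTree; infer_instance
  Df.of2 _ f g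

instance : Df fun v => IsSucc EM (f v) (g v) (h v) (k v) :=
  have : Df4 (IsSucc (EM (P := P))) := by unfold Df4 IsSucc; infer_instance
  Df.of4 _ f g h k

instance : Df fun v => Splits EM (f v) (g v) (h v) :=
  have : Df3 (Splits (EM (P := P))) := by unfold Df3 Splits; infer_instance
  Df.of3 _ f g h

instance : Df fun v => IsChain EM (f v) (g v) :=
  have : Df2 (IsChain (EM (P := P))) := by unfold Df2 IsChain; infer_instance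
  Df.of2 _ f g

instance : Df fun v => IsBranch EM (f v) (g v) :=
  have : Df2 (IsBranch (EM (P := P))) := by unfold Df2 IsBranch; infer_instance
  Df.of2 _ f g

instance : Df fun v => CofKappa EM (f v) (g v) :=
  have : Df2 (CofKappa (EM (P := P))) := by unfold Df2 CofKappa; infer_instance
  Df.of2 _ f g

instance : Df fun v => WeakRegular EM (f v) (g v) :=
  have : Df2 (WeakRegular (EM (P := P))) := by unfold Df2 WeakRegular; infer_instance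
  Df.of2 _ f g

instance : Df fun v => Perfect EM (f v) (g v) :=
  have : Df2 (Perfect (EM (P := P))) := by unfold Df2 Perfect; infer_instance
  Df.of2 _ f g

instance : Df fun v => IsStrong EM (f v) (g v) (h v) (k v) :=
  have : Df4 (IsStrong (EM (P := P))) := by unfold Df4 IsStrong; infer_instance
  Df.of4 _ f g h k

end Notions

/-- `x` is a node of the `j`-th tree. -/
def Node (𝕋 j x : Mod P) : Prop := ∃ T, App EM 𝕋 j T ∧ EM x T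

instance {ι : Type} (f g h : (ι → Mod P) → Mod P) [Tm f] [Tm g] [Tm h] :
    Df fun v => Node (f v) (g v) (h v) :=
  have : Df3 (Node (P := P)) := by unfold Df3 Node; infer_instance
  Df.of3 _ f g h

def SDM (κ δ σ 𝕋 c : Mod P) : Prop :=
  ∃ τ i, EM i σ ∧ (∀ j, EM j δ → ∃ t, Node 𝕋 j t ∧ App EM τ j t) ∧
    (∀ j t t', App EM τ j t → App EM τ j t' → t = t') ∧
    ∀ ζ', EM ζ' κ → ∃ ζ X, EM ζ κ ∧ Sub EM ζ' ζ ∧
      (∀ j x, App EM X j x → Node 𝕋 j x ∧ Lv EM κ x ζ) ∧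
      (∀ j t a, App EM τ j t → Node 𝕋 j a → Lv EM κ a ζ' → Sub EM t a →
        ∃ x, App EM X j x ∧ Sub EM a x) ∧
      ∀ z, IsSeq EM z δ → (∀ j x, App EM z j x → App EM X j x) → App EM c z i

theorem Big.hl (hκ : Big κ) {δ σ 𝕋 c : Mod P} (hδ : EM δ κ) (h1 : IsSeq EM 𝕋 δ)
    (h2 : ∀ j T, App EM 𝕋 j T → IsRegular EM κ T) (h : SDM κ δ σ 𝕋 c) :
    ∃ A 𝕊 σ', Sub EM A κ ∧ (∀ ζ, EM ζ κ → ∃ α, EM α A ∧ Sub EM ζ α) ∧ IsSeq EM 𝕊 δ ∧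
      (∀ j T S, App EM 𝕋 j T → App EM 𝕊 j S → IsStrong EM κ T S A) ∧ EM σ' σ ∧
      ∀ ζ, EM ζ A → (∃ z, InLevel EM κ δ 𝕊 ζ z) ∧ ∀ z, InLevel EM κ δ 𝕊 ζ z → App EM c z σ' := by
  obtain ⟨τ, i, h3, h4, h5, h6⟩ := h
  obtain ⟨ζ₀, h7, h8⟩ := hκ.bdd (fun j η => ∃ t, App EM τ j t ∧ Lv EM κ t η) δ
    (small_of_mem hδ (sub_refl _)) (by
      rintro j η η' - ⟨t, h7, h8⟩ ⟨t', h9, h10⟩
      exact h8.unique (h5 _ _ _ h9 h7 ▸ h10))
  let Q : Mod P → Mod P → Mod P → Prop := fun ζ' ζ X => EM ζ κ ∧ Sub EM ζ' ζ ∧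
    (∀ j T t s, App EM 𝕋 j T → App EM τ j t → EM s T → Lv EM κ s ζ' →
      (∀ z, ¬ EM z s) ∨ Sub EM t s →
        ∃ x, EM x T ∧ Lv EM κ x ζ ∧ Sub EM s x ∧ App EM X j x ∧ Sub EM t x) ∧
    ∀ z, IsSeq EM z δ → (∀ j x, App EM z j x → App EM X j x) → App EM c z i
  have k1 : ∀ ζ', EM ζ' κ → ∃ ζ X, Q ζ' ζ X := by
    intro ζ' hζ'
    by_cases h9 : ∀ z, ¬ EM z ζ'
    · obtain ⟨ζ, X, h10, -, h11, h12, h13⟩ := h6 ζ₀ h7
      refine ⟨ζ, X, h10, fun z hz => absurd hz (h9 z), fun j T t s h14 h15 _ h16 _ => ?_, h13⟩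
      obtain ⟨t', ⟨T', h17, h18⟩, h19⟩ := h4 j (h1.mem h14)
      obtain rfl := h1.unique h14 h17
      obtain rfl := h5 _ _ _ h15 h19
      obtain ⟨η, h20⟩ := ((h2 j T h14).1.1 t h18).1
      obtain ⟨a, h21, h22, h23⟩ := hκ.extend (h2 j T h14).1 h18 h20 h7
        (hκ.sub_of_mem (h8 j η (h1.mem h14) h20.1 ⟨t, h15, h20⟩) h7)
      obtain ⟨x, h24, h25⟩ := h12 j t a h15 ⟨T, h14, h21⟩ h22 h23
      obtain ⟨⟨T', h26, h27⟩, h28⟩ := h11 j x h24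
      refine ⟨x, h1.unique h26 h14 ▸ h27, h28, fun p hp => ?_, h24, sub_trans h23 h25⟩
      obtain ⟨a, -, h29, -⟩ := h16.2.1 p hp
      exact absurd h29 (h9 a)
    · obtain ⟨ζ, X, h10, h10', h11, h12, h13⟩ := h6 ζ' hζ'
      refine ⟨ζ, X, h10, h10', fun j T t s h14 h15 h16 h17 h18 => ?_, h13⟩
      have h19 : Sub EM t s := h18.resolve_left fun h => h9 fun z hz =>
        let ⟨_, ⟨p, hp, _⟩, _⟩ := M_zfc.app_total h17.2 hz; h p hp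
      obtain ⟨x, h24, h25⟩ := h12 j t s h15 ⟨T, h14, h16⟩ h17 h19
      obtain ⟨⟨T', h26, h27⟩, h28⟩ := h11 j x h24
      exact ⟨x, h1.unique h26 h14 ▸ h27, h28, h25, h24, sub_trans h19 h25⟩
  have : Df3 Q := by unfold Df3 Q; infer_instance
  have : ∀ {ι : Type} (f g h : (ι → Mod P) → Mod P) [Tm f] [Tm g] [Tm h],
      Df fun v => Q (f v) (g v) (h v) := fun f g h _ _ _ => Df.of3 Q f g h
  obtain ⟨g, B₁, g1, g2⟩ := choice_fun (fun ζ' ζ => ∃ X, Q ζ' ζ X) κ k1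
  obtain ⟨Xf, B₂, x1, x2⟩ := choice_fun (fun ζ' X => ∀ ζ, App EM g ζ' ζ → Q ζ' ζ X) κ (by
    intro ζ' hζ'
    obtain ⟨ζ, h9, -⟩ := M_zfc.app_total g1 hζ'
    obtain ⟨X, hX⟩ := g2 _ _ h9
    exact ⟨X, fun ζ₁ h10 => M_zfc.app_unique g1 h9 h10 ▸ hX⟩)
  obtain ⟨G, hG⟩ := hκ.greedy (fun ζ => ζ = ζ) (fun ζ' ζ => ∀ γ, App EM g ζ' γ → EM γ ζ)
  simp only [true_and] at hG
  have g3 : ∀ ζ, EM ζ κ → ∃ γ, App EM g ζ γ := fun ζ h => (g1.2 ζ h).exists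
  have g4 : ∀ ζ γ, App EM g ζ γ → EM γ κ ∧ Sub EM ζ γ := fun ζ γ h =>
    let ⟨_, h9, h10, _⟩ := g2 _ _ h; ⟨h9, h10⟩
  obtain ⟨A, hA⟩ := sep (fun γ => ∃ ζ, EM ζ G ∧ App EM g ζ γ) κ
  have hA' : ∀ γ, EM γ A ↔ ∃ ζ, EM ζ G ∧ App EM g ζ γ := fun γ => (hA γ).trans
    ⟨fun h => h.2, fun ⟨ζ, h9, h10⟩ => ⟨(g4 _ _ h10).1, ζ, h9, h10⟩⟩
  obtain ⟨𝕊, B₃, s1, s2⟩ := choice_fun (fun j S => ∀ T, App EM 𝕋 j T → IsStrong EM κ T S A ∧
    (∀ ζ, EM ζ κ → ∃ t, EM t S ∧ Lv EM κ t ζ) ∧ ∀ ζ γ t, EM ζ G → App EM g ζ γ → EM t S →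
      Lv EM κ t γ → ∃ X, App EM Xf ζ X ∧ App EM X j t) δ (by
    intro j hj
    obtain ⟨t, ⟨T, h9, -⟩, h10⟩ := h4 j hj
    obtain ⟨S, hS⟩ := hκ.exists_strong (τ := t) (fun ζ x => ∃ X, App EM Xf ζ X ∧ App EM X j x)
      (h2 j T h9).1 g3 (fun _ _ _ => M_zfc.app_unique g1) g4 hG hA' (by
        intro ζ γ s h11 h12 h13 h14
        obtain ⟨X, h15, -⟩ := M_zfc.app_total x1 h13.1
        obtain ⟨x, h16, h17, h18, h19, h20⟩ := (x2 _ _ h15 _ h11).2.2.1 j T t s h9 h10 h12 h13 h14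
        exact ⟨x, h16, h17, h18, ⟨X, h15, h19⟩, h20⟩)
    exact ⟨S, fun T' h11 => h1.unique h9 h11 ▸ hS⟩)
  have s3 := IsFun.isSeq s1
  refine ⟨A, 𝕊, i, fun γ h => ((hA γ).1 h).1, fun ζ hζ => ?_, s3,
    fun j T S h9 h10 => (s2 j S h10 T h9).1, h3, fun γ hγ => ⟨?_, fun z hz => ?_⟩⟩
  · obtain ⟨ζ', γ, h9, h10, -, h11⟩ := hκ.cover g3 g4 hG hζ
    exact ⟨γ, (hA' γ).2 ⟨ζ', h9, h10⟩, h11⟩
  · obtain ⟨z, B₄, z1, z2⟩ := choice_fun (fun j x => ∀ S, App EM 𝕊 j S → EM x S ∧ Lv EM κ x γ) δ (by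
      intro j hj
      obtain ⟨T, h9⟩ := (h1.2 j hj).exists
      obtain ⟨S, h10⟩ := (s3.2 j hj).exists
      obtain ⟨t, h11⟩ := (s2 j S h10 T h9).2.1 γ ((hA γ).1 hγ).1
      exact ⟨t, fun S' h12 => s3.unique h10 h12 ▸ h11⟩)
    exact ⟨z, IsFun.isSeq z1, fun j S x h9 h10 => z2 j x h10 S h9⟩
  · obtain ⟨ζ, h9, h10⟩ := (hA' γ).1 hγ
    obtain ⟨X, h11, -⟩ := M_zfc.app_total x1 ((hG ζ).1 h9).1
    refine (x2 _ _ h11 _ h10).2.2.2 z hz.1 fun j x h12 => ?_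
    have hj := hz.1.mem h12
    obtain ⟨T, h13⟩ := (h1.2 j hj).exists
    obtain ⟨S, h14⟩ := (s3.2 j hj).exists
    obtain ⟨h15, h16⟩ := hz.2 j S x h14 h12
    obtain ⟨X', h17, h18⟩ := (s2 j S h14 T h13).2.2 ζ γ x h9 h10 h15 h16
    exact M_zfc.app_unique x1 h17 h11 ▸ h18

end Pool.Agent.Lib.MP_c8ac39_lc
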