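import Pool.Agent.Lib.MP_c8ac39_lc.Assemble

/-! The somewhere dense form holds in the quotient model. -/

namespace Pool.Agent.Lib.MP_c8ac39_lc

open Cardinal Filter Set Pool.Agent.Lib.MP_2739cb_lc Nm

universe u v

set_option synthInstance.maxSize 4000

section Gen

variable {P : Type u} [Preorder P] [OrderTop P]

def subR (a b : Nm P) : RO P := RO.all fun z => RO.imp (RO.mem z a) (RO.mem z b)

omit [OrderTop P] in
instance (b : Nm P) : Ext fun a => subR a b := by unfold subR; infer_instance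

omit [OrderTop P] in
instance (a : Nm P) : Ext (subR a) := by unfold subR; infer_instance

theorem T_sub (a b : Nm P) : T (subR a b) ↔ Sub EM (cls a) (cls b) := by
  simp only [subR, Sub, T_all, T_imp, T_mem, cls_rep]

theorem sub_nk {K : Type u} [LinearOrder K] [WellFoundedLT K] {a b : K} (h : a ≤ b) (p : P) :
    (subR (nk a) (nk b)).s p := fun _ _ _ hz => FMem.reg fun r hr =>
  let ⟨t, ht, _, h1, h2⟩ := mem_nk hz r hr
  ⟨t, ht, (nk_mem_nk (h1.trans_le h) t).subst_left h2.symm⟩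

theorem fmem_pairNm (x y z : Nm P) (p : P) :
    FMem z (pairNm x y) p ↔ (RO.or (RO.eq z x) (RO.eq z y)).s p := by
  refine ⟨fun h r hr => ?_, fun h r hr => ?_⟩
  · obtain ⟨t, ht, ⟨_ | _⟩, -, h1⟩ := h r hr
    · exact ⟨t, ht, Or.inr h1⟩
    · exact ⟨t, ht, Or.inl h1⟩
  · obtain ⟨t, ht, h1 | h1⟩ := h r hr
    · exact ⟨t, ht, ⟨true⟩, le_top, h1⟩
    · exact ⟨t, ht, ⟨false⟩, le_top, h1⟩

def kp (a b : Nm P) : Nm P := pairNm (pairNm a a) (pairNm a b)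

theorem pairR_kp (a b : Nm P) (p : P) : (pairR (kp a b) a b).s p := by
  have h0 : ∀ t q, FMem t (pairNm a a) q ↔ FEq t a q := fun t q =>
    (fmem_pairNm a a t q).trans ⟨fun h => FEq.reg fun r hr =>
      let ⟨s, hs, h1⟩ := h r hr; ⟨s, hs, h1.elim id id⟩,
      fun h => RO.or_inl (a := RO.eq t a) h⟩
  refine fun z => (RO.iff_s _ _ _).2 fun q _ => (fmem_pairNm _ _ z q).trans
    ⟨fun h r hr => ?_, fun h r hr => ?_⟩
  · obtain ⟨s, hs, h1 | h1⟩ := h r hr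
    · exact ⟨s, hs, Or.inl (Ext.subst (fun z => RO.all fun t => RO.iff (RO.mem t z) (RO.eq t a))
        (FEq.symm h1) fun t => (RO.iff_s _ _ _).2 fun w _ => h0 t w)⟩
    · exact ⟨s, hs, Or.inr (Ext.subst (fun z => RO.all fun t => RO.iff (RO.mem t z)
        (RO.or (RO.eq t a) (RO.eq t b))) (FEq.symm h1)
          fun t => (RO.iff_s _ _ _).2 fun w _ => fmem_pairNm a b t w)⟩
  · obtain ⟨s, hs, h1 | h1⟩ := h r hr
    · exact ⟨s, hs, Or.inl (FEq.ext fun t w hw =>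
        ((RO.iff_s _ _ _).1 (h1 t) w hw).trans (h0 t w).symm)⟩
    · exact ⟨s, hs, Or.inr (FEq.ext fun t w hw =>
        ((RO.iff_s _ _ _).1 (h1 t) w hw).trans (fmem_pairNm a b t w).symm)⟩

variable (P) in
def pairInj : RO P := RO.all fun p => RO.all fun a => RO.all fun b => RO.all fun a' =>
  RO.all fun b' => RO.imp (pairR p a b) (RO.imp (pairR p a' b') (RO.and (RO.eq a a') (RO.eq b b')))

theorem T_pairInj : T (pairInj P) := by
  simp only [pairInj, T_all, T_imp, T_and, T_eq, T_pair, cls_rep]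
  exact fun p a b a' b' => M_zfc.isPair_inj

def relNm {I : Type u} (a b : I → Nm P) (R : I → RO P) : Nm P :=
  famNm (fun i => kp (a i) (b i)) R

theorem app_relNm {I : Type u} {a b : I → Nm P} {R : I → RO P} {p : P} (i : I) (h : (R i).s p) :
    (appR (relNm a b R) (a i) (b i)).s p :=
  RO.ex_intro (kp (a i) (b i)) ⟨(fmem_famNm _ _ _ _).2 (RO.ex_intro i ⟨h, FEq.refl _ _⟩),
    pairR_kp _ _ _⟩

theorem of_app_relNm {I : Type u} {a b : I → Nm P} {R : I → RO P} {p : P}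
    (hp : (pairInj P).s p) {x y : Nm P} (h : (appR (relNm a b R) x y).s p) :
    ∀ q, q ≤ p → ∃ r, r ≤ q ∧ ∃ i, (R i).s r ∧ FEq x (a i) r ∧ FEq y (b i) r := by
  intro q hq
  obtain ⟨r, hr, z, h1, h2⟩ := h q hq
  obtain ⟨s, hs, i, h3, h4⟩ := (fmem_famNm _ _ _ _).1 h1 r le_rfl
  exact ⟨s, hs.trans hr, i, h3, hp _ _ _ _ _ s (hs.trans (hr.trans hq))
    (Ext.subst (fun z => pairR z x y) h4 (RO.mono h2 hs)) s le_rfl (pairR_kp _ _ _)⟩

end Gen

variable {K : Type u} [LinearOrder K] [Ms K] [WellFoundedLT K]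

variable (K) in
noncomputable abbrev kM : Mod (PP2 K) := cls (kN K)

theorem sdm {δ σ 𝕋 D c : Mod (PP2 K)} (hδ : EM δ (cls (on Ordinal.omega0))) (hδ' : ∃ x, EM x δ)
    (hσ : EM σ (kM K)) (h1 : IsSeq EM 𝕋 δ)
    (h2 : ∀ j T, App EM 𝕋 j T → IsRegular EM (kM K) T)
    (h3 : ∀ z, EM z D ↔ ∃ ζ, EM ζ (kM K) ∧ InLevel EM (kM K) δ 𝕋 ζ z)
    (h4 : IsFun EM c D σ) : SDM (kM K) δ σ 𝕋 c := by
  have hκ := big_kN (K := K)
  obtain ⟨H, B₀, H1, H2⟩ := choice_fun (P := PP2 K) (fun j h => ∀ T, App EM 𝕋 j T →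
    IsInj EM h T (kM K) ∧ ∀ b, EM b (kM K) → ∃ a, App EM h a b) δ (by
      intro j hj
      obtain ⟨T, h5⟩ := (h1.2 j hj).exists
      obtain ⟨f, hf⟩ := (h2 j T h5).1.2.1
      exact ⟨f, fun T' h6 => h1.unique h5 h6 ▸ hf⟩)
  obtain ⟨ndR, e1, e2, ndT⟩ := Df2.exists (fun j x => Node 𝕋 j x)
  obtain ⟨lvR, e3, e4, lvT⟩ := Df2.exists (fun t ζ => Lv EM (kM K) t ζ)
  obtain ⟨cdR, e5, e6, e7, cdT⟩ := Df3.exists (fun j γ t => ∃ h, App EM H j h ∧ App EM h t γ)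
  obtain ⟨sqR, e8, sqT⟩ := Df1.exists (fun z => IsSeq EM z δ)
  have hH : ∀ j h, App EM H j h → ∃ T, App EM 𝕋 j T ∧ IsInj EM h T (kM K) := fun j h h5 =>
    let ⟨T, h6⟩ := (h1.2 j (M_zfc.app_mem H1 h5).1).exists; ⟨T, h6, (H2 j h h5 T h6).1⟩
  have F1 : T (RO.all fun j => RO.all fun γ => RO.imp (RO.mem j (rep δ))
      (RO.imp (RO.mem γ (kN K)) (RO.ex (cdR j γ)))) := by
    simp only [T_all, T_imp, T_ex, T_mem, cdT, cls_rep]
    intro j γ hj hγ
    obtain ⟨T, h5⟩ := (h1.2 j hj).exists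
    obtain ⟨h, h6, -⟩ := M_zfc.app_total H1 hj
    obtain ⟨t, h7⟩ := (H2 j h h6 T h5).2 γ hγ
    exact ⟨t, h, h6, h7⟩
  have F2 : T (RO.all fun j => RO.all fun γ => RO.all fun t => RO.imp (cdR j γ t) (ndR j t)) := by
    simp only [T_all, T_imp, cdT, ndT, cls_rep]
    rintro j γ t ⟨h, h5, h6⟩
    obtain ⟨T, h7, h8⟩ := hH j h h5
    exact ⟨T, h7, (M_zfc.app_mem h8.1 h6).1⟩
  have F3 : T (RO.all fun j => RO.all fun t => RO.imp (ndR j t)
      (RO.ex fun γ => RO.and (RO.mem γ (kN K)) (cdR j γ t))) := by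
    simp only [T_all, T_imp, T_ex, T_and, T_mem, cdT, ndT, cls_rep]
    rintro j t ⟨T, h5, h6⟩
    obtain ⟨h, h7, -⟩ := M_zfc.app_total H1 (h1.mem h5)
    obtain ⟨γ, h8, h9⟩ := M_zfc.app_total (H2 j h h7 T h5).1.1 h6
    exact ⟨γ, h9, h, h7, h8⟩
  have F4 : T (RO.all fun j => RO.all fun γ => RO.all fun t => RO.all fun t' =>
      RO.imp (cdR j γ t) (RO.imp (cdR j γ t') (RO.eq t t'))) := by
    simp only [T_all, T_imp, T_eq, cdT, cls_rep]
    rintro j γ t t' ⟨h, h5, h6⟩ ⟨h', h7, h8⟩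
    obtain rfl := M_zfc.app_unique H1 h5 h7
    obtain ⟨T, -, h9⟩ := hH j h h5
    exact h9.2 _ _ _ h6 h8
  have F5 : T (RO.all fun j => RO.all fun C => RO.all fun η => RO.imp (RO.mem j (rep δ))
      (RO.imp (RO.mem η (kN K)) (RO.imp (RO.all fun t => RO.imp (RO.mem t C) (ndR j t))
      (RO.imp (RO.all fun s => RO.all fun t => RO.imp (RO.mem s C) (RO.imp (RO.mem t C)
        (RO.or (subR s t) (subR t s))))
      (RO.imp (RO.all fun t => RO.all fun β => RO.imp (RO.mem t C) (RO.imp (lvR t β) (subR β η)))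
      (RO.ex fun x => RO.and (ndR j x) (RO.and (lvR x η)
        (RO.all fun t => RO.imp (RO.mem t C) (subR t x))))))))) := by
    simp only [T_all, T_imp, T_ex, T_and, T_or, T_mem, T_sub, lvT, ndT, cls_rep]
    intro j C η hj hη h5 h6 h7
    obtain ⟨T, h8⟩ := (h1.2 j hj).exists
    obtain ⟨x, h9, h10⟩ := hκ.ub (C := C) (h2 j T h8).1 ⟨fun t ht =>
      let ⟨_, h9, h10⟩ := h5 t ht; h1.unique h9 h8 ▸ h10, h6⟩ hη h7
    exact ⟨x, ⟨T, h8, h9⟩, h10⟩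
  have F6 : T (RO.all fun j => RO.all fun t => RO.imp (ndR j t) (RO.ex (lvR t))) := by
    simp only [T_all, T_imp, T_ex, lvT, ndT, cls_rep]
    rintro j t ⟨T, h5, h6⟩
    exact ((h2 j T h5).1.1 t h6).1
  have F7 : T (RO.all fun t => RO.all fun η => RO.imp (lvR t η) (RO.and (RO.mem η (kN K))
      (RO.all fun η' => RO.imp (lvR t η') (RO.eq η η')))) := by
    simp only [T_all, T_imp, T_and, T_mem, T_eq, lvT, cls_rep]
    exact fun t η h => ⟨h.1, fun η' => h.unique⟩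
  have F8 : T (RO.all fun j => RO.all fun η => RO.imp (RO.mem j (rep δ)) (RO.ex fun β =>
      RO.and (RO.mem β (kN K)) (RO.all fun t => RO.all fun γ =>
        RO.imp (lvR t η) (RO.imp (cdR j γ t) (RO.mem γ β))))) := by
    simp only [T_all, T_imp, T_ex, T_and, T_mem, lvT, cdT, cls_rep]
    intro j η hj
    obtain ⟨T, h5⟩ := (h1.2 j hj).exists
    obtain ⟨h, h6, -⟩ := M_zfc.app_total H1 hj
    have h7 := (H2 j h h6 T h5).1.1
    obtain ⟨L, hL⟩ := sep (P := PP2 K) (fun t => Lv EM (kM K) t η) T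
    obtain ⟨β, h8, h9⟩ := hκ.bdd (fun t γ => App EM h t γ) L ((h2 j T h5).1.2.2.1 η L hL)
      fun _ _ _ _ => M_zfc.app_unique h7
    refine ⟨β, h8, ?_⟩
    rintro t γ h10 ⟨h', h11, h12⟩
    obtain rfl := M_zfc.app_unique H1 h6 h11
    exact h9 t γ ((hL t).2 ⟨(M_zfc.app_mem h7 h12).1, h10⟩) (M_zfc.app_mem h7 h12).2 h12
  have F9 : T (RO.all fun z => RO.all fun ζ => RO.imp (sqR z) (RO.imp (RO.mem ζ (kN K))
      (RO.imp (RO.all fun j => RO.all fun x => RO.imp (appR z j x) (RO.and (ndR j x) (lvR x ζ)))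
      (RO.ex fun i => RO.and (appR (rep c) z i) (RO.mem i (rep σ)))))) := by
    simp only [T_all, T_imp, T_ex, T_and, T_mem, T_app, lvT, ndT, sqT, cls_rep]
    exact fun z ζ h5 h6 h7 => M_zfc.app_total h4 ((h3 z).2 ⟨ζ, h6, h5, fun j T x h8 h9 =>
      let ⟨⟨_, h10, h11⟩, h12⟩ := h7 j x h9; ⟨h1.unique h10 h8 ▸ h11, h12⟩⟩)
  have F10 : T (RO.all fun z => RO.all fun z' => RO.imp (sqR z) (RO.imp (sqR z')
      (RO.imp (RO.all fun j => RO.all fun x => RO.imp (appR z' j x) (appR z j x))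
      (RO.eq z' z)))) := by
    simp only [T_all, T_imp, T_eq, T_app, sqT, cls_rep]
    refine fun z z' h5 h6 h7 => sub_antisymm (fun p hp => ?_) fun p hp => ?_
    · obtain ⟨a, b, -, h8⟩ := h6.1 p hp
      obtain ⟨q, h9, h10⟩ := h7 a b ⟨p, hp, h8⟩
      exact pair_unique h10 h8 ▸ h9
    · obtain ⟨a, b, h8, h9⟩ := h5.1 p hp
      obtain ⟨b', q, h10, h11⟩ := (h6.2 a h8).exists
      obtain rfl := h5.unique ⟨p, hp, h9⟩ (h7 a b' ⟨q, h10, h11⟩)
      exact pair_unique h11 h9 ▸ h10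
  have F11 : T (RO.all fun z => RO.imp (RO.all fun p => RO.imp (RO.mem p z) (RO.ex fun a =>
      RO.ex fun b => RO.and (RO.mem a (rep δ)) (pairR p a b)))
      (RO.imp (RO.all fun a => RO.imp (RO.mem a (rep δ)) (RO.ex (appR z a)))
      (RO.imp (RO.all fun a => RO.all fun b => RO.all fun b' => RO.imp (appR z a b)
        (RO.imp (appR z a b') (RO.eq b b'))) (sqR z)))) := by
    simp only [T_all, T_imp, T_ex, T_and, T_mem, T_eq, T_app, T_pair, sqT, cls_rep]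
    exact fun z h5 h6 h7 => ⟨h5, fun a ha => let ⟨b, hb⟩ := h6 a ha
      ⟨b, hb, fun b' hb' => h7 a b' b hb' hb⟩⟩
  have F12 : T (RO.all fun z => RO.all fun a => RO.imp (sqR z) (RO.imp (RO.mem a (rep δ))
      (RO.ex (appR z a)))) := by
    simp only [T_all, T_imp, T_ex, T_mem, T_app, sqT, cls_rep]
    exact fun z a h5 h6 => (h5.2 a h6).exists
  have F13 : T (RO.ex fun x => RO.mem x (rep δ)) := by
    simpa only [T_ex, T_mem, cls_rep] using hδ'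
  suffices T (RO.ex fun τ => RO.ex fun i => RO.and (RO.mem i (rep σ)) (RO.and
      (RO.all fun j => RO.imp (RO.mem j (rep δ)) (RO.ex fun t => RO.and (ndR j t) (appR τ j t)))
      (RO.and (RO.all fun j => RO.all fun t => RO.all fun t' => RO.imp (appR τ j t)
        (RO.imp (appR τ j t') (RO.eq t t')))
      (RO.all fun ζ' => RO.imp (RO.mem ζ' (kN K)) (RO.ex fun ζ => RO.ex fun X =>
        RO.and (RO.mem ζ (kN K)) (RO.and (subR ζ' ζ) (RO.and
          (RO.all fun j => RO.all fun x => RO.imp (appR X j x) (RO.and (ndR j x) (lvR x ζ)))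
          (RO.and (RO.all fun j => RO.all fun t => RO.all fun a => RO.imp (appR τ j t)
            (RO.imp (ndR j a) (RO.imp (lvR a ζ') (RO.imp (subR t a)
              (RO.ex fun x => RO.and (appR X j x) (subR a x))))))
          (RO.all fun z => RO.imp (sqR z) (RO.imp (RO.all fun j => RO.all fun x =>
            RO.imp (appR z j x) (appR X j x)) (appR (rep c) z i))))))))))) by
    simpa only [SDM, T_all, T_imp, T_ex, T_and, T_mem, T_eq, T_app, T_sub, lvT, ndT, sqT, cls_rep]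
      using this
  unfold T at *
  filter_upwards [F1, F2, F3, F4, F5, F6, F7, F8, F9, F10, F11, F12, F13, T_pairInj,
    T_mem_rep hδ, T_mem_rep hσ] with p f1 f2 f3 f4 f5 f6 f7 f8 f9 f10 f11 f12 f13 f14 f15 f16 q₀ hq₀
  obtain ⟨q₁, hq₁, d, hd, hδ1⟩ := mem_on f15 q₀ hq₀
  obtain ⟨d, rfl⟩ := Ordinal.lt_omega0.1 hd
  obtain ⟨q, hq, s₀, hσ1⟩ := mem_kN f16 q₁ (hq₁.trans hq₀)
  have hδ2 := hδ1.mono hq
  have hp : q ≤ p := hq.trans (hq₁.trans hq₀)
  let J : Fin d → Nm (PP2 K) := fun j => on (j : ℕ)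
  have J1 : ∀ j w, w ≤ q → FMem (J j) (rep δ) w := fun j w hw =>
    (on_mem (by exact_mod_cast j.2) w).subst_right (hδ2.mono hw).symm
  have J2 : ∀ x w, w ≤ q → FMem x (rep δ) w → ∃ r, r ≤ w ∧ ∃ j, FEq x (J j) r := by
    intro x w hw h
    obtain ⟨r, hr, a, ha, h5⟩ := mem_on (h.subst_right (hδ2.mono hw)) w le_rfl
    obtain ⟨n, rfl⟩ := Ordinal.lt_omega0.1 (ha.trans hd)
    exact ⟨r, hr, ⟨n, by exact_mod_cast ha⟩, h5⟩
  have J3 : ∀ j j' w, FEq (J j) (J j') w → j = j' := fun j j' w h =>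
    Fin.ext (by exact_mod_cast on_inj h)
  obtain ⟨j₀⟩ : Nonempty (Fin d) := by
    obtain ⟨r, hr, x, hx⟩ := f13 q hp
    obtain ⟨-, -, j, -⟩ := J2 x r hr hx
    exact ⟨j⟩
  choose nd hnd using fun (j : Fin d) (γ : K) => max_principle (cdR (J j) (nk γ))
  have N1 : ∀ j γ w, w ≤ q → (cdR (J j) (nk γ) (nd j γ)).s w := fun j γ w hw =>
    hnd j γ w (f1 _ _ w (hw.trans hp) (J1 j w hw) w le_rfl (nk_mem_kN _ _))
  have N2 : ∀ j γ w, w ≤ q → (ndR (J j) (nd j γ)).s w := fun j γ w hw =>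
    f2 _ _ _ w (hw.trans hp) (N1 j γ w hw)
  have N3 : ∀ j t w, w ≤ q → (ndR (J j) t).s w → ∃ r, r ≤ w ∧ ∃ γ, FEq t (nd j γ) r := by
    intro j t w hw h
    obtain ⟨r, hr, γ, h5, h6⟩ := f3 _ _ w (hw.trans hp) h w le_rfl
    obtain ⟨s, hs, k, h7⟩ := mem_kN h5 r le_rfl
    have h8 := hs.trans (hr.trans hw)
    exact ⟨s, hs.trans hr, k, f4 _ _ _ _ s (h8.trans hp)
      (Ext.subst (fun γ => cdR (J j) γ t) h7 (RO.mono h6 hs)) s le_rfl (N1 j k s h8)⟩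
  let tup : (Fin d → K) → Nm (PP2 K) := fun x => relNm (I := ULift.{u} (Fin d))
    (fun j => J j.down) (fun j => nd j.down (x j.down)) fun _ => pr True
  have U1 : ∀ x j w, (appR (tup x) (J j) (nd j (x j))).s w := fun x j w =>
    app_relNm (I := ULift.{u} (Fin d)) ⟨j⟩ trivial
  have U2 : ∀ x a b w, w ≤ q → (appR (tup x) a b).s w →
      ∃ r, r ≤ w ∧ ∃ j, FEq a (J j) r ∧ FEq b (nd j (x j)) r := fun x a b w hw h =>
    let ⟨r, hr, j, _, h5⟩ := of_app_relNm (RO.mono f14 (hw.trans hp)) h w le_rfl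
    ⟨r, hr, j.down, h5⟩
  have U3 : ∀ x a b b' w, w ≤ q → (appR (tup x) a b).s w → (appR (tup x) a b').s w →
      FEq b b' w := by
    refine fun x a b b' w hw h5 h6 => FEq.reg fun w₁ hw₁ => ?_
    obtain ⟨w₂, hw₂, j, h7, h8⟩ := U2 x a b w₁ (hw₁.trans hw) (RO.mono h5 hw₁)
    obtain ⟨w₃, hw₃, j', h9, h10⟩ := U2 x a b' w₂ (hw₂.trans (hw₁.trans hw))
      (RO.mono h6 (hw₂.trans hw₁))
    obtain rfl := J3 j j' w₃ ((h7.mono hw₃).symm.trans h9)
    exact ⟨w₃, hw₃.trans hw₂, (h8.mono hw₃).trans h10.symm⟩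
  have U4 : ∀ x w, w ≤ q → (sqR (tup x)).s w := by
    refine fun x w hw => f11 _ w (hw.trans hp) (fun z w₁ hw₁ hz w₂ hw₂ => ?_) w le_rfl
      (fun a w₁ hw₁ ha w₂ hw₂ => ?_) w le_rfl fun a b b' w₁ hw₁ h5 w₂ hw₂ h6 =>
        U3 x a b b' w₂ (hw₂.trans (hw₁.trans hw)) (RO.mono h5 hw₂) h6
    · obtain ⟨r, hr, j, -, h5⟩ := (fmem_famNm _ _ _ _).1 hz w₂ hw₂
      exact ⟨r, hr, J j.down, RO.ex_intro (nd j.down (x j.down))
        ⟨J1 _ r (hr.trans (hw₂.trans (hw₁.trans hw))),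
          Ext.subst (fun z => pairR z _ _) (FEq.symm h5) (pairR_kp _ _ _)⟩⟩
    · obtain ⟨r, hr, j, h5⟩ := J2 a w₂ (hw₂.trans (hw₁.trans hw)) (FMem.mono ha hw₂)
      exact ⟨r, hr, _, Ext.subst (fun a => appR (tup x) a _) h5.symm (U1 x j r)⟩
  let TT : TD d q s₀ :=
    { le := fun j a b => subR (nd j a) (nd j b)
      lv := fun j a η => lvR (nd j a) (nk η)
      col := fun x i => appR (rep c) (tup x) (nk i)
      refl := fun j a y _ z w _ h => h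
      trans := fun j a b c y _ h5 h6 z w hw h => h6 z w hw (h5 z w hw h)
      ub := by
        intro j B η y hy h5 h6
        obtain ⟨r, hr, x, h7, h8, h9⟩ := f5 (J j) (famNm (nd j) B) (nk η) y (hy.trans hp)
          (J1 j y hy) y le_rfl (nk_mem_kN _ _) y le_rfl (fun t w hw ht => RO.reg fun w₁ hw₁ => by
            obtain ⟨w₂, hw₂, a, -, h7⟩ := (fmem_famNm _ _ _ _).1 ht w₁ hw₁
            exact ⟨w₂, hw₂, Ext.subst (ndR (J j)) (FEq.symm h7)
              (N2 j a w₂ (hw₂.trans (hw₁.trans (hw.trans hy))))⟩) y le_rfl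
          (fun s t w hw hs w₁ hw₁ ht w₂ hw₂ => by
            obtain ⟨w₃, hw₃, a, h7, h8⟩ := (fmem_famNm _ _ _ _).1 hs w₂ (hw₂.trans hw₁)
            obtain ⟨w₄, hw₄, b, h9, h10⟩ := (fmem_famNm _ _ _ _).1 ht w₃ (hw₃.trans hw₂)
            obtain ⟨w₅, hw₅, h11⟩ := h5 a b w₄ (hw₄.trans (hw₃.trans (hw₂.trans (hw₁.trans hw))))
              (RO.mono h7 hw₄) h9
            have h12 := (FEq.mono h8 (hw₅.trans hw₄)).symm
            have h13 := (FEq.mono h10 hw₅).symm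
            exact ⟨w₅, hw₅.trans (hw₄.trans hw₃), h11.imp
              (fun h => Ext.subst (subR s) h13 (Ext.subst (fun s => subR s _) h12 h))
              fun h => Ext.subst (subR t) h12 (Ext.subst (fun s => subR s _) h13 h)⟩) y le_rfl
          (fun t β w hw ht w₁ hw₁ hβ => RO.reg fun w₂ hw₂ => by
            obtain ⟨w₃, hw₃, a, h7, h8⟩ := (fmem_famNm _ _ _ _).1 ht w₂ (hw₂.trans hw₁)
            obtain ⟨w₄, hw₄, k, h9⟩ := mem_kN
              (f7 t β w₁ (hw₁.trans (hw.trans (hy.trans hp))) hβ).1 w₃ (hw₃.trans hw₂)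
            have h10 := h6 a k w₄ (hw₄.trans (hw₃.trans (hw₂.trans (hw₁.trans hw))))
              (RO.mono h7 hw₄) (Ext.subst (lvR _) h9 (Ext.subst (fun t => lvR t β)
                (FEq.mono h8 hw₄) (RO.mono hβ (hw₄.trans (hw₃.trans hw₂)))))
            exact ⟨w₄, hw₄.trans hw₃, Ext.subst (fun s => subR s _) h9.symm (sub_nk h10 w₄)⟩)
          y le_rfl
        obtain ⟨z, hz, γ, h10⟩ := N3 j x r (hr.trans hy) h7
        exact ⟨z, hz.trans hr, γ, Ext.subst (fun t => lvR t _) h10 (RO.mono h8 hz),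
          fun a w hw h11 => Ext.subst (subR _) (h10.mono hw) (h9 _ w (hw.trans hz)
            ((fmem_famNm _ _ _ _).2 (RO.ex_intro a ⟨h11, FEq.refl _ _⟩)))⟩
      hgt := by
        intro j a y hy
        obtain ⟨r, hr, η, h5⟩ := f6 _ _ y (hy.trans hp) (N2 j a y hy) y le_rfl
        obtain ⟨z, hz, k, h6⟩ := mem_kN (f7 _ _ r (hr.trans (hy.trans hp)) h5).1 r le_rfl
        exact ⟨z, hz.trans hr, k, Ext.subst (lvR _) h6 (RO.mono h5 hz)⟩
      uniq := fun j a η η' y hy h5 h6 => nk_inj ((f7 _ _ y (hy.trans hp) h5).2 _ y le_rfl h6)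
      cod := by
        intro j η y hy
        obtain ⟨r, hr, β, h5, h6⟩ := f8 _ (nk η) y (hy.trans hp) (J1 j y hy) y le_rfl
        obtain ⟨z, hz, k, h7⟩ := mem_kN h5 r le_rfl
        exact ⟨z, hz.trans hr, k, fun a w hw h8 => ⟨w, le_rfl, a, nk_lt (FMem.subst_right
          (h6 _ _ w (hw.trans hz) h8 w le_rfl (N1 j a w (hw.trans (hz.trans (hr.trans hy)))))
          (h7.mono hw)), fun _ _ _ h => h, fun _ _ _ h => h⟩⟩
      tot := by
        intro x η y hy h5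
        obtain ⟨r, hr, i, h6, h7⟩ := f9 _ (nk η) y (hy.trans hp) (U4 x y hy) y le_rfl
          (nk_mem_kN _ _) y le_rfl (fun a b w hw h6 => RO.reg fun w₁ hw₁ => by
            obtain ⟨w₂, hw₂, j, h7, h8⟩ := U2 x a b w₁ (hw₁.trans (hw.trans hy)) (RO.mono h6 hw₁)
            have h9 := hw₂.trans (hw₁.trans hw)
            exact ⟨w₂, hw₂, Ext.subst (ndR a) h8.symm (Ext.subst (fun a => ndR a _) h7.symm
              (N2 j _ w₂ (h9.trans hy))), Ext.subst (fun t => lvR t _) h8.symm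
                (RO.mono (h5 j) h9)⟩) y le_rfl
        obtain ⟨z, hz, k, h8, h9⟩ := mem_nk (FMem.subst_right h7 (hσ1.mono (hr.trans hy))) r le_rfl
        exact ⟨z, hz.trans hr, k, h8, Ext.subst (fun i => appR _ _ i) h9 (RO.mono h6 hz)⟩ }
  obtain ⟨y, hy, τ, i, hi, hG⟩ := TT.sd j₀
  refine ⟨y, hy.trans (hq.trans hq₁), tup τ, RO.ex_intro (nk i)
    ⟨(nk_mem_nk hi y).subst_right (hσ1.mono hy).symm, fun a w hw ha w₁ hw₁ => ?_,
      fun a b b' w hw h5 w₁ hw₁ h6 => U3 τ a b b' w₁ (hw₁.trans (hw.trans hy)) (RO.mono h5 hw₁) h6,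
      fun ζ' w₀ hw₀ hζ' w₁ hw₁ => ?_⟩⟩
  · have h5 := hw₁.trans (hw.trans hy)
    obtain ⟨r, hr, j, h6⟩ := J2 a w₁ h5 (FMem.mono ha hw₁)
    exact ⟨r, hr, nd j (τ j), Ext.subst (fun a => RO.and (ndR a _) (appR _ a _)) h6.symm
      ⟨N2 j _ r (hr.trans h5), U1 τ j r⟩⟩
  obtain ⟨w₂, hw₂, k, hk⟩ := mem_kN hζ' w₁ hw₁
  obtain ⟨w, hw, ζ, G1, X, G2, G3, G4⟩ := hG k w₂ (hw₂.trans (hw₁.trans hw₀))
  have hwq : w ≤ q := hw.trans (hw₂.trans (hw₁.trans (hw₀.trans hy)))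
  let XN : Nm (PP2 K) := relNm (I := ULift.{u} (Fin d) × K) (fun t => J t.1.down)
    (fun t => nd t.1.down t.2) fun t => X t.1.down t.2
  have X1 : ∀ j a r, (X j a).s r → (appR XN (J j) (nd j a)).s r := fun j a r h =>
    app_relNm (I := ULift.{u} (Fin d) × K) (⟨j⟩, a) h
  have X2 : ∀ a b r, r ≤ q → (appR XN a b).s r →
      ∃ s, s ≤ r ∧ ∃ j x, (X j x).s s ∧ FEq a (J j) s ∧ FEq b (nd j x) s := fun a b r hr h =>
    let ⟨s, hs, t, h5⟩ := of_app_relNm (RO.mono f14 (hr.trans hp)) h r le_rfl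
    ⟨s, hs, t.1.down, t.2, h5⟩
  refine ⟨w, hw.trans hw₂, nk ζ, RO.ex_intro XN ⟨nk_mem_kN _ _,
    Ext.subst (fun s => subR s _) (hk.mono hw).symm (sub_nk G1 w),
    fun a b r hr h5 => RO.reg fun r₁ hr₁ => ?_,
    fun a t b r₁ hr₁ h5 r₂ hr₂ h6 r₃ hr₃ h7 r₄ hr₄ h8 r₅ hr₅ => ?_,
    fun z r₁ hr₁ h5 r₂ hr₂ h6 => RO.reg fun r₃ hr₃ => ?_⟩⟩
  · obtain ⟨s, hs, j, x, h6, h7, h8⟩ := X2 a b r₁ (hr₁.trans (hr.trans hwq)) (RO.mono h5 hr₁)
    have h9 := hs.trans (hr₁.trans hr)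
    exact ⟨s, hs, Ext.subst (ndR a) h8.symm (Ext.subst (fun a => ndR a _) h7.symm
      (N2 j _ s (h9.trans hwq))), Ext.subst (fun t => lvR t _) h8.symm (G2 j x s h9 h6)⟩
  · have l1 : r₅ ≤ r₃ := hr₅.trans hr₄
    have l2 : r₅ ≤ r₂ := l1.trans hr₃
    have l3 : r₅ ≤ r₁ := l2.trans hr₂
    have l4 : r₅ ≤ w := l3.trans hr₁
    obtain ⟨s, hs, j, h9, h10⟩ := U2 τ a t r₅ (l4.trans hwq) (RO.mono h5 l3)
    obtain ⟨s₁, hs₁, γ, h11⟩ := N3 j b s (hs.trans (l4.trans hwq))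
      (Ext.subst (fun a => ndR a b) h9 (RO.mono h6 (hs.trans l2)))
    have l5 := hs₁.trans hs
    obtain ⟨s₂, hs₂, x, h12, h13⟩ := G3 j γ s₁ (l5.trans l4)
      (Ext.subst (lvR _) (hk.mono (l5.trans (l4.trans hw)))
        (Ext.subst (fun t => lvR t ζ') h11 (RO.mono h7 (l5.trans l1))))
      (Ext.subst (subR _) h11 (Ext.subst (fun s => subR s b) (h10.mono hs₁)
        (RO.mono h8 (l5.trans hr₅))))
    exact ⟨s₂, hs₂.trans l5, nd j x, Ext.subst (fun a => appR XN a _)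
      (h9.mono (hs₂.trans hs₁)).symm (X1 j x s₂ h12),
      Ext.subst (fun s => subR s _) (h11.mono hs₂).symm h13⟩
  · have l1 : r₂ ≤ q := hr₂.trans (hr₁.trans hwq)
    obtain ⟨s, hs, h7, h8⟩ := fin_iter (fun s => s ≤ r₂)
      (fun j s => ∃ x, (X j x).s s ∧ (appR z (J j) (nd j x)).s s)
      (fun j p q hq ⟨x, h7, h8⟩ => ⟨x, RO.mono h7 hq, RO.mono h8 hq⟩) (fun j s hs => by
        obtain ⟨s₁, hs₁, b, h7⟩ := f12 z (J j) s (hs.trans (l1.trans hp))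
          (RO.mono h5 (hs.trans hr₂)) s le_rfl (J1 j s (hs.trans l1)) s le_rfl
        obtain ⟨s₂, hs₂, j', x, h8, h9, h10⟩ := X2 _ b s₁ (hs₁.trans (hs.trans l1))
          (h6 _ _ s₁ (hs₁.trans hs) h7)
        obtain rfl := J3 _ _ _ h9
        exact ⟨s₂, hs₂.trans hs₁, hs₂.trans (hs₁.trans hs), x, h8,
          Ext.subst (fun b => appR z _ b) h10 (RO.mono h7 hs₂)⟩) r₃ hr₃
    choose x h9 h10 using h8
    refine ⟨s, hs, Ext.subst (fun z => appR _ z _) (f10 z (tup x) s (h7.trans (l1.trans hp))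
      (RO.mono h5 (h7.trans hr₂)) s le_rfl (U4 x s (h7.trans l1)) s le_rfl
      fun a b s₁ hs₁ h11 => RO.reg fun s₂ hs₂ => ?_) (G4 x s (h7.trans (hr₂.trans hr₁)) h9)⟩
    obtain ⟨s₃, hs₃, j, h12, h13⟩ := U2 x a b s₂ (hs₂.trans (hs₁.trans (h7.trans l1)))
      (RO.mono h11 hs₂)
    exact ⟨s₃, hs₃, Ext.subst (fun b => appR z a b) h13.symm (Ext.subst (fun a => appR z a _)
      h12.symm (RO.mono (h10 j) (hs₃.trans (hs₂.trans hs₁))))⟩

theorem hl_kN {δ σ : Mod (PP2 K)} (hδ : IsFinOrd EM δ) (hδ' : ∃ x, EM x δ)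
    (hσ : EM σ (kM K)) : HL EM δ σ (kM K) := by
  have h0 : EM δ (cls (on Ordinal.omega0)) := by
    refine (M_zfc.ord_total (isOrd_on _) hδ.1).resolve_left fun h => ?_
    exact hδ.2 _ (M_zfc.ord_sub (isOrd_on _).1 hδ.1 h).symm
      (isLimit_on Ordinal.isSuccLimit_omega0)
  exact fun 𝕋 D c h1 h2 h3 h4 => big_kN.hl (big_kN.up h0 (EM_on omega_lt_kap)) h1 h2
    (sdm h0 hδ' hσ h1 h2 h3 h4)

theorem main {κ : Cardinal.{u}} (hκ : IsMeasurable κ) :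
    ∃ (M : Type (u + 1)) (E : M → M → Prop), IsZFC E ∧ ∃ k : M, IsMeasurableIn E k ∧
      ∀ δ σ : M, IsFinOrd E δ → (∃ x, E x δ) → E σ k → (∃ x, E x σ) → HL E δ σ k := by
  obtain ⟨h1, X, W, h2, h3, h4⟩ := hκ
  obtain ⟨e⟩ : Nonempty (X ≃ κ.ord.ToType) := Cardinal.eq.1 (by simp [h2])
  have hK : #κ.ord.ToType = κ := by simp
  obtain ⟨inst⟩ : Nonempty (Ms κ.ord.ToType) := by
    refine exists_Ms (h1.trans_eq hK.symm) (fun k => ?_) (W.map e) (fun S hS hA => ?_) fun x hx => ?_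
    · exact Cardinal.mk_Iio_lt k (by simp)
    · rw [Ultrafilter.mem_map, preimage_sInter, ← sInter_image]
      exact h3 _ (mk_image_le.trans_lt (hS.trans_eq hK)) (by
        rintro _ ⟨A, hA', rfl⟩
        exact hA A hA')
    · rw [Ultrafilter.mem_map, ← e.image_symm_eq_preimage, image_singleton] at hx
      exact h4 _ hx
  exact ⟨Mod (PP2 κ.ord.ToType), EM, M_zfc, _, measurable_kN, fun δ σ h5 h6 h7 _ => hl_kN h5 h6 h7⟩

end Pool.Agent.Lib.MP_c8ac39_lc
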