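import Pool.Agent.Lib.MP_2739cb_lc.Defs

/-!
Definitions used in the statement: measurable cardinals, and the notions of the problem
(trees, regular trees, strong subtrees, level products, the Halpern-Lauchli statement) read
inside a structure `(M, E)`.
-/

namespace Pool.Agent.Lib.MP_c8ac39_lc

open Cardinal Pool.Agent.Lib.MP_2739cb_lc

universe u v

section Notions

variable {M : Type v} (E : M → M → Prop)

/-- `|C| < κ`: `C` injects into some ordinal `α < κ`. -/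
def Small (C κ : M) : Prop := ∃ α, E α κ ∧ CardLe E C α

/-- The ordinal `l` is a nonzero limit. -/
def IsLimit (l : M) : Prop := (∃ z, E z l) ∧ ∀ α, E α l → ∃ β, E β l ∧ E α β

/-- `δ` is a finite ordinal: an ordinal such that no `l ≤ δ` is a nonzero limit. -/
def IsFinOrd (δ : M) : Prop := IsOrd E δ ∧ ∀ l, E l δ ∨ l = δ → ¬ IsLimit E l

/-- `κ` is measurable: an uncountable cardinal that carries a nonprincipal `κ`-complete
ultrafilter `U`. -/
def IsMeasurableIn (κ : M) : Prop :=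
  IsCard E κ ∧ (∃ l, E l κ ∧ IsLimit E l) ∧ ∃ U,
    (∀ A, E A U → Sub E A κ) ∧ E κ U ∧ (∀ A, E A U → ∃ z, E z A) ∧
    (∀ A B, E A U → Sub E A B → Sub E B κ → E B U) ∧
    (∀ A B, Sub E A κ → (∀ z, E z B ↔ E z κ ∧ ¬ E z A) → E A U ∨ E B U) ∧
    (∀ A ξ, E A U → ¬ ∀ z, E z A ↔ z = ξ) ∧
    ∀ F C, Sub E F U → Small E F κ → (∀ z, E z C ↔ E z κ ∧ ∀ A, E A F → E z A) → E C U

/-- `t` is a sequence of length `ζ < κ` with values in `κ`. -/
def Lv (κ t ζ : M) : Prop := E ζ κ ∧ IsFun E t ζ κ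

/-- `T` is a tree: a set of sequences of length `< κ` with values in `κ`, closed under initial
segments. End-extension of sequences is inclusion. -/
def IsTree (κ T : M) : Prop :=
  ∀ t, E t T → (∃ ζ, Lv E κ t ζ) ∧ ∀ s η, Lv E κ s η → Sub E s t → E s T

/-- `s` is an immediate successor of `t` in `T`: `s ∈ T` extends `t` and has length
`ζ + 1 = ζ ∪ {ζ}`, where `ζ` is the length of `t`. -/
def IsSucc (κ T t s : M) : Prop :=
  E s T ∧ Sub E t s ∧ ∃ ζ ζ', Lv E κ t ζ ∧ Lv E κ s ζ' ∧ ∀ z, E z ζ' ↔ E z ζ ∨ z = ζ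

/-- `t` has two different immediate successors in `T`. -/
def Splits (κ T t : M) : Prop := ∃ s s', IsSucc E κ T t s ∧ IsSucc E κ T t s' ∧ s ≠ s'

/-- `B ⊆ T` is linearly ordered by end-extension. -/
def IsChain (T B : M) : Prop := Sub E B T ∧ ∀ s t, E s B → E t B → Sub E s t ∨ Sub E t s

/-- `B` is a maximal branch (a maximal chain) of `T`. -/
def IsBranch (T B : M) : Prop := IsChain E T B ∧ ∀ C, IsChain E T C → Sub E B C → C = B

/-- The chain `B` has a cofinal subset of size `κ` and no cofinal subset of size `< κ`. -/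
def CofKappa (κ B : M) : Prop :=
  (∃ C, Sub E C B ∧ (∀ t, E t B → ∃ s, E s C ∧ Sub E t s) ∧ CardEq E C κ) ∧
    ∀ C, Sub E C B → (∀ t, E t B → ∃ s, E s C ∧ Sub E t s) → ¬ Small E C κ

/-- A tree of size `κ` with levels of size `< κ` all of whose maximal branches have
cofinality `κ`. -/
def WeakRegular (κ T : M) : Prop :=
  IsTree E κ T ∧ CardEq E T κ ∧
    (∀ ζ L, (∀ t, E t L ↔ E t T ∧ Lv E κ t ζ) → Small E L κ) ∧
    ∀ B, IsBranch E T B → CofKappa E κ B

/-- Every node of `T` has an extension that splits in `T`. -/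
def Perfect (κ T : M) : Prop := ∀ t, E t T → ∃ s, E s T ∧ Sub E t s ∧ Splits E κ T s

/-- Regular trees. -/
def IsRegular (κ T : M) : Prop := WeakRegular E κ T ∧ Perfect E κ T

/-- `S` is a strong subtree of `T` witnessed by `A`. It is required to be perfect (so regular)
whenever every node of `T` splits. -/
def IsStrong (κ T S A : M) : Prop :=
  Sub E S T ∧ WeakRegular E κ S ∧ ((∀ t, E t T → Splits E κ T t) → Perfect E κ S) ∧
    ∀ ζ t, E t S → Lv E κ t ζ →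
      (¬ E ζ A → ∃! s, IsSucc E κ S t s) ∧ (E ζ A → ∀ s, IsSucc E κ T t s → E s S)

/-- `z` is a function with domain `δ`. -/
def IsSeq (z δ : M) : Prop :=
  (∀ p, E p z → ∃ a b, E a δ ∧ IsPair E p a b) ∧ ∀ a, E a δ → ∃! b, App E z a b

/-- `z` is a `δ`-sequence whose `j`-th term is a node of level `ζ` of the `j`-th tree of `𝕋`. -/
def InLevel (κ δ 𝕋 ζ z : M) : Prop :=
  IsSeq E z δ ∧ ∀ j T x, App E 𝕋 j T → App E z j x → E x T ∧ Lv E κ x ζ

/-- The statement `HL(δ, σ, κ)`. -/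
def HL (δ σ κ : M) : Prop :=
  ∀ 𝕋 D c, IsSeq E 𝕋 δ → (∀ j T, App E 𝕋 j T → IsRegular E κ T) →
    (∀ z, E z D ↔ ∃ ζ, E ζ κ ∧ InLevel E κ δ 𝕋 ζ z) → IsFun E c D σ →
    ∃ A 𝕊 σ', Sub E A κ ∧ (∀ ζ, E ζ κ → ∃ α, E α A ∧ Sub E ζ α) ∧ IsSeq E 𝕊 δ ∧
      (∀ j T S, App E 𝕋 j T → App E 𝕊 j S → IsStrong E κ T S A) ∧ E σ' σ ∧
      ∀ ζ, E ζ A → (∃ z, InLevel E κ δ 𝕊 ζ z) ∧ ∀ z, InLevel E κ δ 𝕊 ζ z → App E c z σ'

end Notions

/-- `κ` is measurable: it is uncountable and some set of size `κ` carries a nonprincipal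
`κ`-complete ultrafilter. -/
def IsMeasurable (κ : Cardinal.{u}) : Prop :=
  ℵ₀ < κ ∧ ∃ (X : Type u) (W : Ultrafilter X), #X = κ ∧
    (∀ S : Set (Set X), #S < κ → (∀ A ∈ S, A ∈ W) → ⋂₀ S ∈ W) ∧ ∀ x, {x} ∉ W

end Pool.Agent.Lib.MP_c8ac39_lc
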