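import Pool.Agent.Lib.MP_2739cb_lc.Ords
import Pool.Agent.Lib.MP_c8ac39_lc.Defs

/-! Predicates on the quotient model that are given by truth values; comprehension and choice
for them. -/

namespace Pool.Agent.Lib.MP_c8ac39_lc

export Pool.Agent.Lib.MP_2739cb_lc (Mod Sub)

open Pool.Agent.Lib.MP_2739cb_lc Nm

universe u v

variable {P : Type u} [Preorder P] [OrderTop P]

class Tm {ι : Type} (f : (ι → Mod P) → Mod P) : Prop where
  out : ∃ g : (ι → Nm P) → Nm P, (∀ v w p, (∀ i, FEq (v i) (w i) p) → FEq (g v) (g w) p) ∧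
    ∀ v, cls (g v) = f fun i => cls (v i)

class Df {ι : Type} (φ : (ι → Mod P) → Prop) : Prop where
  out : ∃ Φ : (ι → Nm P) → RO P, (∀ v w p, (∀ i, FEq (v i) (w i) p) → (Φ v).s p → (Φ w).s p) ∧
    ∀ v, T (Φ v) ↔ φ fun i => cls (v i)

section Inst

variable {ι : Type}

instance Tm.var (i : ι) : Tm (P := P) fun v => v i := ⟨⟨fun v => v i, fun _ _ _ h => h i, fun _ => rfl⟩⟩

instance (priority := 2000) Tm.const (c : Mod P) : Tm fun _ : ι → Mod P => c :=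
  ⟨⟨fun _ => rep c, fun _ _ _ _ => FEq.refl _ _, fun _ => cls_rep c⟩⟩

theorem Df.subst {ι' : Type} (φ : (ι → Mod P) → Prop) [h : Df φ]
    (t : ι → (ι' → Mod P) → Mod P) (ht : ∀ i, Tm (t i)) : Df fun v => φ fun i => t i v := by
  obtain ⟨Φ, h1, h2⟩ := h.out
  choose g hg1 hg2 using fun i => (ht i).out
  refine ⟨⟨fun v => Φ fun i => g i v, fun v w p e => h1 _ _ p fun i => hg1 i v w p e, fun v => ?_⟩⟩
  rw [h2]; simp only [hg2]

instance Df.mem (f g : (ι → Mod P) → Mod P) [hf : Tm f] [hg : Tm g] :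
    Df fun v => EM (f v) (g v) := by
  obtain ⟨a, h1, h2⟩ := hf.out
  obtain ⟨b, h3, h4⟩ := hg.out
  exact ⟨⟨fun v => RO.mem (a v) (b v),
    fun v w p e h => (FMem.subst_left h (h1 v w p e)).subst_right (h3 v w p e),
    fun v => by rw [T_mem, h2, h4]⟩⟩

instance Df.eq (f g : (ι → Mod P) → Mod P) [hf : Tm f] [hg : Tm g] :
    Df fun v => f v = g v := by
  obtain ⟨a, h1, h2⟩ := hf.out
  obtain ⟨b, h3, h4⟩ := hg.out
  exact ⟨⟨fun v => RO.eq (a v) (b v),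
    fun v w p e h => ((h1 v w p e).symm.trans h).trans (h3 v w p e),
    fun v => by rw [T_eq, h2, h4]⟩⟩

instance Df.imp (φ ψ : (ι → Mod P) → Prop) [h : Df φ] [h' : Df ψ] : Df fun v => φ v → ψ v := by
  obtain ⟨a, h1, h2⟩ := h.out
  obtain ⟨b, h3, h4⟩ := h'.out
  exact ⟨⟨fun v => RO.imp (a v) (b v), fun v w p e h q hq ha =>
    h3 v w q (fun i => (e i).mono hq) (h q hq (h1 w v q (fun i => ((e i).mono hq).symm) ha)),
    fun v => by rw [T_imp, h2, h4]⟩⟩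

instance Df.not (φ : (ι → Mod P) → Prop) [h : Df φ] : Df fun v => ¬ φ v := by
  obtain ⟨a, h1, h2⟩ := h.out
  exact ⟨⟨fun v => RO.not (a v), fun v w p e h q hq ha =>
    h q hq (h1 w v q (fun i => ((e i).mono hq).symm) ha), fun v => by rw [T_not, h2]⟩⟩

theorem Df.congr {φ ψ : (ι → Mod P) → Prop} (h : Df φ) (e : ∀ v, φ v ↔ ψ v) : Df ψ := by
  have : φ = ψ := funext fun v => propext (e v)
  exact this ▸ h

instance Df.and (φ ψ : (ι → Mod P) → Prop) [Df φ] [Df ψ] : Df fun v => φ v ∧ ψ v :=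
  Df.congr (inferInstance : Df fun v => ¬ (φ v → ¬ ψ v)) fun v => by tauto

instance Df.or (φ ψ : (ι → Mod P) → Prop) [Df φ] [Df ψ] : Df fun v => φ v ∨ ψ v :=
  Df.congr (inferInstance : Df fun v => ¬ φ v → ψ v) fun v => by tauto

instance Df.iff (φ ψ : (ι → Mod P) → Prop) [Df φ] [Df ψ] : Df fun v => φ v ↔ ψ v :=
  Df.congr (inferInstance : Df fun v => (φ v → ψ v) ∧ (ψ v → φ v)) fun v => by tauto

instance Df.ne (f g : (ι → Mod P) → Mod P) [Tm f] [Tm g] : Df fun v => f v ≠ g v :=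
  (inferInstance : Df fun v => ¬ f v = g v)

instance Df.all (φ : (ι → Mod P) → Mod P → Prop)
    [h : Df fun w : Option ι → Mod P => φ (fun i => w (some i)) (w none)] :
    Df fun v => ∀ a, φ v a := by
  obtain ⟨Φ, h1, h2⟩ := h.out
  refine ⟨⟨fun v => RO.all fun a => Φ fun i => i.elim a v, fun v w p e h a => h1 _ _ p ?_ (h a),
    fun v => ?_⟩⟩
  · rintro (_ | i)
    · exact FEq.refl _ _
    · exact e i
  · have : Ext fun a => Φ fun i => i.elim a v := ⟨fun x y p e => h1 _ _ p (by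
      rintro (_ | i)
      · exact e
      · exact FEq.refl _ _)⟩
    rw [T_all]
    refine forall_congr' fun z => ?_
    rw [h2]
    simp only [Option.elim, cls_rep]

instance Df.ex (φ : (ι → Mod P) → Mod P → Prop)
    [h : Df fun w : Option ι → Mod P => φ (fun i => w (some i)) (w none)] :
    Df fun v => ∃ a, φ v a :=
  Df.congr (Df.not fun v => ∀ a, ¬ φ v a) fun v => by simp

instance Df.exu (φ : (ι → Mod P) → Mod P → Prop)
    [h : Df fun w : Option ι → Mod P => φ (fun i => w (some i)) (w none)] :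
    Df fun v => ∃! a, φ v a := by
  have h1 : Df fun w : Option (Option ι) → Mod P => φ (fun i => w (some (some i))) (w none) :=
    Df.subst (fun w : Option ι → Mod P => φ (fun i => w (some i)) (w none))
      (fun i w => w (i.elim none fun j => some (some j))) fun _ => inferInstance
  exact (inferInstance : Df fun v => ∃ a, φ v a ∧ ∀ b, φ v b → b = a)

end Inst

abbrev Df1 (φ : Mod P → Prop) : Prop := Df fun v : Unit → Mod P => φ (v ())

abbrev Df2 (φ : Mod P → Mod P → Prop) : Prop := Df fun v : Bool → Mod P => φ (v true) (v false)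

abbrev Df3 (φ : Mod P → Mod P → Mod P → Prop) : Prop :=
  Df fun v : Option Bool → Mod P => φ (v none) (v (some true)) (v (some false))

abbrev Df4 (φ : Mod P → Mod P → Mod P → Mod P → Prop) : Prop :=
  Df fun v : Bool × Bool → Mod P => φ (v (true, true)) (v (true, false)) (v (false, true))
    (v (false, false))

section Notions

variable {ι : Type}

theorem Df.of1 (φ : Mod P → Prop) [Df1 φ] (f : (ι → Mod P) → Mod P) [hf : Tm f] :
    Df fun v => φ (f v) :=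
  Df.subst (fun v : Unit → Mod P => φ (v ())) (fun _ => f) fun _ => hf

theorem Df.of2 (φ : Mod P → Mod P → Prop) [Df2 φ] (f g : (ι → Mod P) → Mod P) [hf : Tm f]
    [hg : Tm g] : Df fun v => φ (f v) (g v) :=
  Df.subst (fun v : Bool → Mod P => φ (v true) (v false)) (fun b => cond b f g)
    fun b => by cases b <;> assumption

theorem Df.of3 (φ : Mod P → Mod P → Mod P → Prop) [Df3 φ] (f g h : (ι → Mod P) → Mod P)
    [hf : Tm f] [hg : Tm g] [hh : Tm h] : Df fun v => φ (f v) (g v) (h v) :=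
  Df.subst (fun v : Option Bool → Mod P => φ (v none) (v (some true)) (v (some false)))
    (fun b => b.elim f fun b => cond b g h) fun b => by rcases b with _ | _ | _ <;> assumption

theorem Df.of4 (φ : Mod P → Mod P → Mod P → Mod P → Prop) [Df4 φ]
    (f g h k : (ι → Mod P) → Mod P) [hf : Tm f] [hg : Tm g] [hh : Tm h] [hk : Tm k] :
    Df fun v => φ (f v) (g v) (h v) (k v) :=
  Df.subst (fun v : Bool × Bool → Mod P => φ (v (true, true)) (v (true, false)) (v (false, true))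
    (v (false, false))) (fun b => cond b.1 (cond b.2 f g) (cond b.2 h k))
    fun b => by rcases b with ⟨_ | _, _ | _⟩ <;> assumption

variable (f g h k : (ι → Mod P) → Mod P) [Tm f] [Tm g] [Tm h] [Tm k]

instance : Df fun v => Sub EM (f v) (g v) :=
  have : Df2 (Sub (EM (P := P))) := by unfold Df2 Sub; infer_instance
  Df.of2 _ f g

instance : Df fun v => IsPair EM (f v) (g v) (h v) :=
  have : Df3 (IsPair (EM (P := P))) := by unfold Df3 IsPair; infer_instance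
  Df.of3 _ f g h

instance : Df fun v => App EM (f v) (g v) (h v) :=
  have : Df3 (App (EM (P := P))) := by unfold Df3 App; infer_instance
  Df.of3 _ f g h

instance : Df fun v => IsFun EM (f v) (g v) (h v) :=
  have : Df3 (IsFun (EM (P := P))) := by unfold Df3 IsFun; infer_instance
  Df.of3 _ f g h

instance : Df fun v => IsInj EM (f v) (g v) (h v) :=
  have : Df3 (IsInj (EM (P := P))) := by unfold Df3 IsInj; infer_instance
  Df.of3 _ f g h

instance : Df fun v => Lv EM (f v) (g v) (h v) :=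
  have : Df3 (Lv (EM (P := P))) := by unfold Df3 Lv; infer_instance
  Df.of3 _ f g h

instance : Df fun v => IsSeq EM (f v) (g v) :=
  have : Df2 (IsSeq (EM (P := P))) := by unfold Df2 IsSeq; infer_instance
  Df.of2 _ f g

end Notions

theorem Df1.exists (φ : Mod P → Prop) [h : Df1 φ] :
    ∃ Φ : Nm P → RO P, Ext Φ ∧ ∀ a, T (Φ a) ↔ φ (cls a) := by
  obtain ⟨Φ, h1, h2⟩ := h.out
  exact ⟨fun a => Φ fun _ => a, ⟨fun x y p e => h1 _ _ p fun _ => e⟩, fun a => h2 _⟩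

theorem Df2.exists (φ : Mod P → Mod P → Prop) [h : Df2 φ] :
    ∃ Φ : Nm P → Nm P → RO P, (∀ b, Ext fun a => Φ a b) ∧ (∀ a, Ext (Φ a)) ∧
      ∀ a b, T (Φ a b) ↔ φ (cls a) (cls b) := by
  obtain ⟨Φ, h1, h2⟩ := h.out
  refine ⟨fun a b => Φ fun i => cond i a b, fun b => ⟨fun x y p e => h1 _ _ p ?_⟩,
    fun b => ⟨fun x y p e => h1 _ _ p ?_⟩, fun a b => h2 _⟩
  · rintro (_ | _)
    · exact FEq.refl _ _
    · exact e
  · rintro (_ | _)
    · exact e
    · exact FEq.refl _ _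

theorem Df3.exists (φ : Mod P → Mod P → Mod P → Prop) [h : Df3 φ] :
    ∃ Φ : Nm P → Nm P → Nm P → RO P, (∀ b c, Ext fun a => Φ a b c) ∧
      (∀ a c, Ext fun b => Φ a b c) ∧ (∀ a b, Ext (Φ a b)) ∧
      ∀ a b c, T (Φ a b c) ↔ φ (cls a) (cls b) (cls c) := by
  obtain ⟨Φ, h1, h2⟩ := h.out
  refine ⟨fun a b c => Φ fun i => i.elim a fun i => cond i b c,
    fun b c => ⟨fun x y p e => h1 _ _ p ?_⟩, fun b c => ⟨fun x y p e => h1 _ _ p ?_⟩,
    fun b c => ⟨fun x y p e => h1 _ _ p ?_⟩, fun a b c => h2 _⟩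
  · rintro (_ | _ | _)
    exacts [e, FEq.refl _ _, FEq.refl _ _]
  · rintro (_ | _ | _)
    exacts [FEq.refl _ _, FEq.refl _ _, e]
  · rintro (_ | _ | _)
    exacts [FEq.refl _ _, e, FEq.refl _ _]

theorem sep (φ : Mod P → Prop) [Df1 φ] (x : Mod P) : ∃ w, ∀ z, EM z w ↔ EM z x ∧ φ z := by
  obtain ⟨Φ, h1, h2⟩ := Df1.exists φ
  simpa only [h2, cls_rep] using M_sep Φ x

theorem fun_ex (φ : Mod P → Mod P → Prop) [Df2 φ] (A B : Mod P)
    (h : ∀ a, EM a A → ∃! b, EM b B ∧ φ a b) :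
    ∃ f, IsFun EM f A B ∧ ∀ a b, App EM f a b ↔ EM a A ∧ EM b B ∧ φ a b := by
  obtain ⟨Φ, h1, h2, h3⟩ := Df2.exists φ
  simpa only [h3, cls_rep] using M_fun Φ A B (by simpa only [h3, cls_rep] using h)

theorem collect (φ : Mod P → Mod P → Prop) [Df2 φ] (A : Mod P) :
    ∃ B, ∀ a, EM a A → (∃ b, φ a b) → ∃ b, EM b B ∧ φ a b := by
  obtain ⟨Φ, h1, h2, h3⟩ := Df2.exists φ
  simpa only [h3, cls_rep] using M_collect Φ A

theorem pair_unique {p q a b : Mod P} (h1 : IsPair EM p a b) (h2 : IsPair EM q a b) : p = q :=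
  M_ext _ _ fun z => (h1 z).trans (h2 z).symm

theorem choice_fun (φ : Mod P → Mod P → Prop) [Df2 φ] (A : Mod P)
    (h : ∀ a, EM a A → ∃ b, φ a b) :
    ∃ f B, IsFun EM f A B ∧ ∀ a b, App EM f a b → φ a b := by
  have : ∀ {ι : Type} (f g : (ι → Mod P) → Mod P) [Tm f] [Tm g], Df fun v => φ (f v) (g v) :=
    fun f g _ _ => Df.of2 φ f g
  obtain ⟨B, hB⟩ := collect φ A
  obtain ⟨W, hW⟩ := M_zfc.exists_prod A B
  obtain ⟨W', hW'⟩ := M_power W
  obtain ⟨X, hX⟩ := sep (fun y => ∃ a, EM a A ∧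
    ∀ p, EM p y ↔ ∃ b, EM b B ∧ φ a b ∧ IsPair EM p a b) W'
  obtain ⟨c, hc⟩ := M_choice X (by
    intro y hy
    obtain ⟨-, a, ha, h1⟩ := (hX y).1 hy
    obtain ⟨b, hb, h2⟩ := hB a ha (h a ha)
    obtain ⟨p, hp⟩ := M_zfc.exists_isPair a b
    exact ⟨p, (h1 p).2 ⟨b, hb, h2, hp⟩⟩) (by
    rintro y y' hy hy' ⟨p, h1, h2⟩
    obtain ⟨-, a, ha, h3⟩ := (hX y).1 hy
    obtain ⟨-, a', ha', h4⟩ := (hX y').1 hy'
    obtain ⟨b, -, -, h5⟩ := (h3 p).1 h1
    obtain ⟨b', -, -, h6⟩ := (h4 p).1 h2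
    obtain ⟨rfl, -⟩ := M_zfc.isPair_inj h5 h6
    exact M_ext _ _ fun z => (h3 z).trans (h4 z).symm)
  obtain ⟨f, hf1, hf2⟩ := fun_ex (fun a b => φ a b ∧ App EM c a b) A B (by
    intro a ha
    obtain ⟨y, hy⟩ := sep (fun p => ∃ b, EM b B ∧ φ a b ∧ IsPair EM p a b) W
    have hy' : ∀ p, EM p y ↔ ∃ b, EM b B ∧ φ a b ∧ IsPair EM p a b := fun p =>
      (hy p).trans ⟨fun h => h.2, fun ⟨b, h1, h2, h3⟩ => ⟨hW p a b ha h1 h3, b, h1, h2, h3⟩⟩
    obtain ⟨p, ⟨h1, h2⟩, h3⟩ := hc y ((hX y).2 ⟨(hW' y).2 fun t ht => ((hy t).1 ht).1, a, ha, hy'⟩)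
    obtain ⟨b, h4, h5, h6⟩ := (hy' p).1 h1
    refine ⟨b, ⟨h4, h5, p, h2, h6⟩, ?_⟩
    rintro b' ⟨h7, h8, q, h9, h10⟩
    obtain rfl : q = p := h3 q ⟨(hy' q).2 ⟨b', h7, h8, h10⟩, h9⟩
    exact (M_zfc.isPair_inj h10 h6).2)
  exact ⟨f, B, hf1, fun a b hab => ((hf2 a b).1 hab).2.2.1⟩

theorem IsFun.isSeq {f A B : Mod P} (h : IsFun EM f A B) : IsSeq EM f A :=
  ⟨fun p hp => let ⟨a, b, h1, _, h2⟩ := h.1 p hp; ⟨a, b, h1, h2⟩, h.2⟩

/-- The Schroeder-Bernstein theorem in the model. -/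
theorem cardEq_of_le {A B : Mod P} (h1 : CardLe EM A B) (h2 : CardLe EM B A) : CardEq EM A B := by
  obtain ⟨f, hf⟩ := h1
  obtain ⟨g, hg⟩ := h2
  obtain ⟨W, hW⟩ := M_power A
  obtain ⟨X, hX⟩ := sep (fun a => ∃ Y, EM a Y ∧ ∀ y, EM y Y → ∀ b, App EM g b y →
    ∃ y', EM y' Y ∧ App EM f y' b) A
  have k1 : ∀ x, EM x X → ∀ b, App EM g b x → ∃ y', EM y' X ∧ App EM f y' b := by
    intro x hx b hb
    obtain ⟨-, Y, h3, h4⟩ := (hX x).1 hx
    obtain ⟨y', h5, h6⟩ := h4 x h3 b hb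
    exact ⟨y', (hX y').2 ⟨(M_zfc.app_mem hf.1 h6).1, Y, h5, h4⟩, h6⟩
  have k2 : ∀ x, EM x A → (∀ b, App EM g b x → ∃ y', EM y' X ∧ App EM f y' b) → EM x X := by
    intro x hx h3
    obtain ⟨Y, hY⟩ := sep (fun y => EM y X ∨ y = x) A
    refine (hX x).2 ⟨hx, Y, (hY x).2 ⟨hx, Or.inr rfl⟩, fun y hy b hb => ?_⟩
    have : ∃ y', EM y' X ∧ App EM f y' b := by
      rcases ((hY y).1 hy).2 with h4 | rfl
      · exact k1 y h4 b hb
      · exact h3 b hb
    obtain ⟨y', h5, h6⟩ := this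
    exact ⟨y', (hY y').2 ⟨((hX y').1 h5).1, Or.inl h5⟩, h6⟩
  obtain ⟨h, hh1, hh2⟩ := fun_ex
    (fun a b => (EM a X ∧ App EM f a b) ∨ (¬ EM a X ∧ App EM g b a)) A B (by
      intro a ha
      by_cases h3 : EM a X
      · obtain ⟨b, h4, h5⟩ := M_zfc.app_total hf.1 ha
        refine ⟨b, ⟨h5, Or.inl ⟨h3, h4⟩⟩, ?_⟩
        rintro b' ⟨-, h6 | h6⟩
        · exact M_zfc.app_unique hf.1 h6.2 h4
        · exact absurd h3 h6.1
      · have : ∃ b, App EM g b a := by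
          by_contra hc
          exact h3 (k2 a ha fun b hb => absurd ⟨b, hb⟩ hc)
        obtain ⟨b, hb⟩ := this
        refine ⟨b, ⟨(M_zfc.app_mem hg.1 hb).1, Or.inr ⟨h3, hb⟩⟩, ?_⟩
        rintro b' ⟨-, h6 | h6⟩
        · exact absurd h6.1 h3
        · exact hg.2 _ _ _ h6.2 hb)
  have k3 : ∀ a a' b, EM a X → App EM f a b → ¬ EM a' X → ¬ App EM g b a' := by
    intro a a' b h3 h4 h5 h6
    refine h5 (k2 a' (M_zfc.app_mem hg.1 h6).2 fun b' hb' => ⟨a, h3, ?_⟩)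
    rwa [hg.2 _ _ _ hb' h6]
  refine ⟨h, ⟨hh1, fun a a' b h3 h4 => ?_⟩, fun b hb => ?_⟩
  · rcases ((hh2 _ _).1 h3).2.2 with h5 | h5 <;> rcases ((hh2 _ _).1 h4).2.2 with h6 | h6
    · exact hf.2 _ _ _ h5.2 h6.2
    · exact absurd h6.2 (k3 _ _ _ h5.1 h5.2 h6.1)
    · exact absurd h5.2 (k3 _ _ _ h6.1 h6.2 h5.1)
    · exact M_zfc.app_unique hg.1 h5.2 h6.2
  · obtain ⟨a, h3, h4⟩ := M_zfc.app_total hg.1 hb
    by_cases h5 : EM a X
    · obtain ⟨y, h6, h7⟩ := k1 a h5 b h3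
      exact ⟨y, (hh2 _ _).2 ⟨((hX y).1 h6).1, hb, Or.inl ⟨h6, h7⟩⟩⟩
    · exact ⟨a, (hh2 _ _).2 ⟨h4, hb, Or.inr ⟨h5, h3⟩⟩⟩

end Pool.Agent.Lib.MP_c8ac39_lc
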