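import Pool.Agent.Lib.MP_c8ac39_lc.Ult

-- part Pool.Agent.Lib.MP_c8ac39_lc.Grid
section

/-! Uniformizing a family of conditions indexed by tuples of rows. -/

namespace Pool.Agent.Lib.MP_c8ac39_lc

open Cardinal Filter Set

universe u v

variable {K : Type u} [LinearOrder K] [Ms K] [WellFoundedLT K]

theorem fin_iter {Q : Type v} [Preorder Q] (A : Q → Prop) : ∀ {d : ℕ} (O : Fin d → Q → Prop),
    (∀ j p q, q ≤ p → O j p → O j q) → (∀ j p, A p → ∃ q, q ≤ p ∧ A q ∧ O j q) →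
      ∀ p, A p → ∃ q, q ≤ p ∧ A q ∧ ∀ j, O j q
  | 0, _, _, _, p, hp => ⟨p, le_rfl, hp, fun j => j.elim0⟩
  | d + 1, O, ho, hd, p, hp => by
    obtain ⟨q, h1, h2, h3⟩ := hd 0 p hp
    obtain ⟨r, h4, h5, h6⟩ := fin_iter A (fun j : Fin d => O j.succ) (fun j => ho j.succ)
      (fun j => hd j.succ) q h2
    exact ⟨r, h4.trans h1, h5, Fin.cases (ho 0 q r h4 h3) h6⟩

/-- A condition concentrated on one coordinate. -/
def mkAt {ζ : K} (hζ : ζ ∈ Sset K) (g : Set (K × K × K × K))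
    (fn : ∀ a ξ v v', (ζ, a, ξ, v) ∈ g → (ζ, a, ξ, v') ∈ g → v = v')
    (ok : ∀ x ∈ g, x.1 = ζ ∧ x.2.1 < Lam ζ ∧ x.2.2.1 < ζ ∧ x.2.2.2 < ζ)
    (hs : #g < #(Iio ζ)) : PC K where
  g := g
  fn ζ' a ξ v v' h h' := by
    obtain rfl : ζ' = ζ := (ok _ h).1
    exact fn a ξ v v' h h'
  ok x hx := by
    obtain ⟨h1, h2⟩ := ok x hx
    rw [h1]
    exact ⟨hζ, h2⟩
  east γ hγ := by
    by_cases h : ζ ≤ γ
    · exact ((mk_le_mk_of_subset fun _ hx => hx.1).trans_lt hs).trans_le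
        (mk_le_mk_of_subset (Iio_subset_Iio h))
    · have : {x ∈ g | x.1 ≤ γ} = ∅ :=
        eq_empty_of_forall_notMem fun x hx => h ((ok x hx.1).1 ▸ hx.2)
      rw [this]
      simpa using aleph0_pos.trans hγ.unc
  small := hs.trans (Ms.iio ζ)

theorem mk_lt_of_le {ζ : K} (hζ : Good ζ) {p : PC K} (h : ∀ x ∈ p.g, x.1 ≤ ζ) :
    #p.g < #(Iio ζ) := by
  refine lt_of_le_of_lt (mk_le_mk_of_subset ?_) (p.east ζ hζ)
  exact fun x hx => ⟨hx, h x hx⟩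

theorem uniform {d : ℕ} {ζ : K} (hζ : Good ζ) (L : (Fin d → K) → PC K) (cl : (Fin d → K) → K)
    (hL : ∀ a, ∀ x ∈ (L a).g, x.1 ≤ ζ) (hcl : ∀ a, cl a < ζ) :
    ∃ h : Fin d → K → K, (∀ j a, a < ζ → h j a < Lam ζ) ∧
      (∀ j j' a a', a < ζ → a' < ζ → h j a = h j' a' → j = j' ∧ a = a') ∧
      ∀ a b : Fin d → K, (∀ j, a j < ζ) → (∀ j, b j < ζ) →
        cl (fun j => h j (a j)) = cl (fun j => h j (b j)) ∧
        (∀ x ∈ (L fun j => h j (a j)).g, x.1 < ζ → x ∈ (L fun j => h j (b j)).g) ∧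
        PC.Compat (L fun j => h j (a j)) (L fun j => h j (b j)) ∧
        ∀ j e ξ v, e < ζ → (ζ, h j e, ξ, v) ∈ (L fun j => h j (a j)).g →
          (ζ, h j (b j), ξ, v) ∈ (L fun j => h j (b j)).g := by
  classical
  let R : (Fin d → K) → Set K := fun a => (fun x => x.2.1) '' {x ∈ (L a).g | x.1 = ζ} ∪ range a
  have hR : ∀ a, #(R a) < #(Iio ζ) := fun a =>
    (mk_union_le _ _).trans_lt (add_lt_of_lt hζ.unc.le (mk_image_le.trans_lt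
      ((mk_le_mk_of_subset fun _ hx => hx.1).trans_lt (mk_lt_of_le hζ (hL a))))
      ((finite_range a).lt_aleph0.trans hζ.unc))
  have hcode : ∀ a, ∃ code : K → K, InjOn code (R a) ∧ ∀ r, code r < ζ := by
    intro a
    obtain ⟨e⟩ := (hR a).le
    refine ⟨fun r => if h : r ∈ R a then (e ⟨r, h⟩).1 else kz K, fun r hr r' hr' h => ?_,
      fun r => ?_⟩
    · simp only [dif_pos hr, dif_pos hr'] at h
      exact Subtype.mk.inj (e.injective (Subtype.ext h))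
    · beta_reduce
      split_ifs
      · exact (e _).2
      · exact hζ.kz_lt
  choose code hc1 hc2 using hcode
  let sel : (Fin d → Bool) → (Fin d → K) → (Fin d → K) → Fin d → K :=
    fun u a b j => if u j then b j else a j
  let Pat : (Fin d → K) → (Fin d → K) → Set (K × K × K × K) := fun a b =>
    {x | ∃ r ∈ R a ∩ R b, x = (code a r, code b r, kz K, kz K)}
  let F₀ : Tag d → (Fin d → K) → (Fin d → K) → Set (K × K × K × K) := fun t a b =>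
    match t with
    | .inl (u, v) => Pat (sel u a b) (sel v a b)
    | .inr (.inl j) => {(code a (a j), kz K, kz K, kz K)}
    | .inr (.inr 0) => {x ∈ (L a).g | x.1 < ζ}
    | .inr (.inr 1) => {(cl a, kz K, kz K, kz K)}
    | .inr (.inr 2) => {x | ∃ r ξ v, (ζ, r, ξ, v) ∈ (L a).g ∧ x = (code a r, ξ, v, kz K)}
  have hk := kz_le ζ
  obtain ⟨h, ⟨h1, c, h2⟩, h3⟩ := PP_Lam ζ d (fun a b => {x | x.2 ∈ F₀ x.1.down a b}) (by
    rintro a b ⟨⟨⟨u, v⟩ | j | k⟩, x⟩ hx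
    · obtain ⟨r, -, rfl⟩ := hx
      simp [hk, (hc2 _ _).le]
    · obtain rfl : x = _ := hx
      simp [hk, (hc2 _ _).le]
    · fin_cases k
      · obtain ⟨h1, h2⟩ := hx
        obtain ⟨-, h3, h4, h5⟩ := (L a).ok x h1
        exact max_le hk (max_le h2.le (max_le (h3.trans (hζ.lam _ h2)).le
          (max_le (h4.trans h2).le (h5.trans h2).le)))
      · obtain rfl : x = _ := hx
        simp [hk, (hcl _).le]
      · obtain ⟨r, ξ, v, h1, rfl⟩ := hx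
        obtain ⟨-, -, h4, h5⟩ := (L a).ok _ h1
        exact max_le hk (max_le (hc2 _ _).le (max_le h4.le (max_le h5.le hk))))
  choose up hup1 hup2 using fun (a : K) (ha : a < ζ) => hζ.exists_gt ha
  let G : (Fin d → K) → Fin d → K := fun a j => h j (a j)
  have h4 : ∀ t (a b a' b' : Fin d → K), (∀ j, a j < b j ∧ b j < ζ) →
      (∀ j, a' j < b' j ∧ b' j < ζ) → F₀ t (G a) (G b) = F₀ t (G a') (G b') := by
    intro t a b a' b' h5 h6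
    ext x
    exact Set.ext_iff.1 ((h2 a b h5).trans (h2 a' b' h6).symm) (ULift.up t, x)
  have h5 : ∀ (t : Fin d ⊕ Fin 3) (a b : Fin d → K) (ha : ∀ j, a j < ζ) (hb : ∀ j, b j < ζ),
      F₀ (.inr t) (G a) (G fun j => up _ (ha j)) = F₀ (.inr t) (G b) (G fun j => up _ (hb j)) :=
    fun t a b ha hb => h4 _ _ _ _ _ (fun j => ⟨hup2 _ _, hup1 _ _⟩) fun j => ⟨hup2 _ _, hup1 _ _⟩
  have h6 : ∀ (a b : Fin d → K), (∀ j, a j < ζ) → (∀ j, b j < ζ) → ∃ lo hi : Fin d → K,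
      (∀ j, lo j < hi j ∧ hi j < ζ) ∧ sel (fun j => decide (b j < a j)) (G lo) (G hi) = G a ∧
        sel (fun j => decide (a j < b j)) (G lo) (G hi) = G b := by
    intro a b ha hb
    refine ⟨fun j => min (a j) (b j), fun j => if a j = b j then up _ (ha j) else max (a j) (b j),
      fun j => ?_, funext fun j => ?_, funext fun j => ?_⟩
    · beta_reduce
      split_ifs with h7
      · rw [← h7, min_self]; exact ⟨hup2 _ _, hup1 _ _⟩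
      · exact ⟨min_lt_max.2 h7, max_lt (ha j) (hb j)⟩
    · rcases lt_trichotomy (a j) (b j) with h7 | h7 | h7
      · simp [sel, G, h7.le, h7.not_gt]
      · simp [sel, G, h7]
      · simp [sel, G, h7, h7.le, h7.ne']
    · rcases lt_trichotomy (a j) (b j) with h7 | h7 | h7
      · simp [sel, G, h7, h7.le, h7.ne]
      · simp [sel, G, h7]
      · simp [sel, G, h7.le, h7.not_gt]
  have h7 : ∀ (a b a' b' : Fin d → K), (∀ j, a j < ζ) → (∀ j, b j < ζ) → (∀ j, a' j < ζ) →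
      (∀ j, b' j < ζ) → (∀ j, (b j < a j ↔ b' j < a' j) ∧ (a j < b j ↔ a' j < b' j)) →
      Pat (G a) (G b) = Pat (G a') (G b') := by
    intro a b a' b' ha hb ha' hb' hs
    obtain ⟨lo, hi, h8, h9, h10⟩ := h6 a b ha hb
    obtain ⟨lo', hi', h8', h9', h10'⟩ := h6 a' b' ha' hb'
    have := h4 (.inl (fun j => decide (b j < a j), fun j => decide (a j < b j))) lo hi lo' hi' h8 h8'
    simp only [F₀] at this
    rw [h9, h10] at this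
    rw [this]
    simp only [fun j => (hs j).1, fun j => (hs j).2]
    rw [h9', h10']
  have h8 : ∀ (a b : Fin d → K), (∀ j, a j < ζ) → (∀ j, b j < ζ) → ∀ r ∈ R (G a) ∩ R (G b),
      code (G a) r = code (G b) r := by
    intro a b ha hb r hr
    obtain ⟨x0, k0⟩ : ∃ x0, x0 < ζ := ⟨_, hζ.kz_lt⟩
    obtain ⟨x1, k1, l1⟩ := hζ.exists_gt k0
    obtain ⟨x2, k2, l2⟩ := hζ.exists_gt k1
    have l3 := l1.trans l2
    let a' : Fin d → K := fun j => if a j < b j then x0 else if b j < a j then x2 else x0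
    let b' : Fin d → K := fun j => if a j < b j then x1 else if b j < a j then x1 else x0
    let c' : Fin d → K := fun j => if a j < b j then x2 else x0
    have ha' : ∀ j, a' j < ζ := fun j => by simp only [a']; split_ifs <;> assumption
    have hb' : ∀ j, b' j < ζ := fun j => by simp only [b']; split_ifs <;> assumption
    have hc' : ∀ j, c' j < ζ := fun j => by simp only [c']; split_ifs <;> assumption
    have e0 : (code (G a) r, code (G b) r, kz K, kz K) ∈ Pat (G a) (G b) := ⟨r, hr, rfl⟩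
    have e1 := h7 a b a' b' ha hb ha' hb' (fun j => by
      rcases lt_trichotomy (a j) (b j) with h | h | h
      · simp [a', b', h, h.not_gt, l1, l1.not_gt]
      · simp [a', b', h]
      · simp [a', b', h, h.not_gt, l2, l2.not_gt]) ▸ e0
    have e2 := h7 a b b' c' ha hb hb' hc' (fun j => by
      rcases lt_trichotomy (a j) (b j) with h | h | h
      · simp [c', b', h, h.not_gt, l2, l2.not_gt]
      · simp [c', b', h]
      · simp [c', b', h, h.not_gt, l1, l1.not_gt]) ▸ e0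
    have e3 := h7 a b a' c' ha hb ha' hc' (fun j => by
      rcases lt_trichotomy (a j) (b j) with h | h | h
      · simp [c', a', h, h.not_gt, l3, l3.not_gt]
      · simp [c', a', h]
      · simp [c', a', h, h.not_gt, l3, l3.not_gt]) ▸ e0
    obtain ⟨r1, m1, e1⟩ := e1
    obtain ⟨r2, m2, e2⟩ := e2
    obtain ⟨r3, m3, e3⟩ := e3
    simp only [Prod.mk.injEq, and_true] at e1 e2 e3
    have e4 : r1 = r3 := hc1 _ m1.1 m3.1 (e1.1.symm.trans e3.1)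
    have e5 : r3 = r2 := hc1 _ m3.2 m2.2 (e3.2.symm.trans e2.2)
    rw [e2.1, e1.2, e4, e5]
  have h9 : ∀ (a b : Fin d → K), (∀ j, a j < ζ) → (∀ j, b j < ζ) → ∀ r r' ξ v,
      (ζ, r, ξ, v) ∈ (L (G a)).g → r' ∈ R (G b) → code (G a) r = code (G b) r' →
        (ζ, r', ξ, v) ∈ (L (G b)).g := by
    intro a b ha hb r r' ξ v h10 h11 h12
    have : (code (G a) r, ξ, v, kz K) ∈ F₀ (.inr (.inr 2)) (G b) (G fun j => up _ (hb j)) :=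
      h5 (.inr 2) a b ha hb ▸ ⟨r, ξ, v, h10, rfl⟩
    obtain ⟨r'', ξ', v', h13, h14⟩ := this
    simp only [Prod.mk.injEq, and_true] at h14
    obtain ⟨h14, rfl, rfl⟩ := h14
    rwa [hc1 _ h11 (Or.inl ⟨_, ⟨h13, rfl⟩, rfl⟩) (h12.symm.trans h14)]
  have h10 : ∀ (a b : Fin d → K), (∀ j, a j < ζ) → (∀ j, b j < ζ) →
      ∀ x ∈ (L (G a)).g, x.1 < ζ → x ∈ (L (G b)).g := by
    intro a b ha hb x h11 h12
    have : x ∈ F₀ (.inr (.inr 0)) (G b) (G fun j => up _ (hb j)) :=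
      h5 (.inr 0) a b ha hb ▸ ⟨h11, h12⟩
    exact this.1
  refine ⟨h, h3, h1, fun a b ha hb => ⟨?_, h10 a b ha hb, ?_, ?_⟩⟩
  · exact (Prod.mk.inj (singleton_injective (h5 (.inr 1) a b ha hb))).1
  · intro ζ' r ξ v v' h11 h12
    rcases (hL _ _ h11).eq_or_lt with h13 | h13
    · obtain rfl : ζ' = ζ := h13
      have m1 : r ∈ R (G a) := Or.inl ⟨_, ⟨h11, rfl⟩, rfl⟩
      have m2 : r ∈ R (G b) := Or.inl ⟨_, ⟨h12, rfl⟩, rfl⟩
      exact (L _).fn _ _ _ _ _ (h9 a b ha hb r r ξ v h11 m2 (h8 a b ha hb r ⟨m1, m2⟩)) h12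
    · exact (L _).fn _ _ _ _ _ (h10 a b ha hb _ h11 h13) h12
  · intro j e ξ v he h11
    have ha' : ∀ i, Function.update a j e i < ζ := fun i => by
      rw [Function.update_apply]; split_ifs
      · exact he
      · exact ha i
    have m1 : h j e ∈ R (G a) := Or.inl ⟨_, ⟨h11, rfl⟩, rfl⟩
    have m0 : G (Function.update a j e) j = h j e := by simp [G]
    have m2 : h j e ∈ R (G (Function.update a j e)) := Or.inr ⟨j, m0⟩
    have h12 := h9 a _ ha ha' _ _ ξ v h11 m2 (h8 a _ ha ha' _ ⟨m1, m2⟩)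
    refine h9 _ b ha' hb _ _ ξ v h12 (Or.inr ⟨j, rfl⟩) ?_
    rw [← m0]
    exact (Prod.mk.inj (singleton_injective (h5 (.inl j) _ b ha' hb))).1

end Pool.Agent.Lib.MP_c8ac39_lc
end

-- part Pool.Agent.Lib.MP_c8ac39_lc.SD
section

/-! The somewhere dense form of the Halpern-Lauchli statement, for truth-valued trees coded
on `K`. -/

namespace Pool.Agent.Lib.MP_c8ac39_lc

open Cardinal Filter Set
open Pool.Agent.Lib.MP_2739cb_lc (RO)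

universe u v

/-- A proposition as a truth value. -/
def pr {P : Type u} [Preorder P] (Q : Prop) : RO P where
  s _ := Q
  mono' _ _ _ h := h
  reg' p h := let ⟨_, _, h⟩ := h p le_rfl; h

/-- The least witness. -/
def mn {P : Type u} [Preorder P] {K : Type u} [LinearOrder K] (Φ : K → RO P) (x : K) : RO P :=
  RO.and (Φ x) (RO.all fun y : Iio x => RO.not (Φ y.1))

theorem exists_mn {P : Type u} [Preorder P] {K : Type u} [LinearOrder K] [WellFoundedLT K]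
    {Φ : K → RO P} {p : P} {x : K} (h : (Φ x).s p) : ∃ q, q ≤ p ∧ ∃ x, (mn Φ x).s q := by
  obtain ⟨y, ⟨q, hq, h1⟩, h2⟩ := wellFounded_lt.has_min {y | ∃ q, q ≤ p ∧ (Φ y).s q}
    ⟨x, p, le_rfl, h⟩
  exact ⟨q, hq, y, h1, fun z r hr h3 => h2 z.1 ⟨r, hr.trans hq, h3⟩ z.2⟩

theorem mn_unique {P : Type u} [Preorder P] {K : Type u} [LinearOrder K]
    {Φ : K → RO P} {p : P} {x y : K} (h1 : (mn Φ x).s p) (h2 : (mn Φ y).s p) : x = y := by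
  rcases lt_trichotomy x y with h | h | h
  · exact absurd h1.1 (h2.2 ⟨x, h⟩ p le_rfl)
  · exact h
  · exact absurd h2.1 (h1.2 ⟨y, h⟩ p le_rfl)

variable {K : Type u} [LinearOrder K] [Ms K] [WellFoundedLT K]

theorem bdd_names {ι : Type u} (hι : #ι < #K) (V : ι → K → RO (PP2 K)) (x : PP2 K)
    (hV : ∀ i η η' y, y ≤ x → (V i η).s y → (V i η').s y → η = η') :
    ∃ y, y ≤ x ∧ ∃ γ, ∀ i η w, w ≤ y → (V i η).s w → η < γ := by
  have h1 : ∀ i, (inU fun γ => RO.all fun η => RO.imp (V i η) (pr (η < γ))).s x := by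
    intro i
    refine RO.reg fun y hy => ?_
    by_cases h : ∃ z, z ≤ y ∧ ∃ η, (V i η).s z
    · obtain ⟨z, hz, η, h2⟩ := h
      refine ⟨z, hz, inU_of_ae ((ae_gt η).mono fun α hα η' w hw h3 => ?_)⟩
      rwa [hV i η η' w (hw.trans (hz.trans hy)) (RO.mono h2 hw) h3] at hα
    · exact ⟨y, le_rfl, inU_of_ae (Eventually.of_forall fun α η w hw h3 =>
        absurd ⟨w, hw, η, h3⟩ h)⟩
  obtain ⟨y, hy, γ, h2⟩ := inU_nonempty (inU_all hι h1)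
  exact ⟨y, hy, γ, fun i η w hw h3 => h2 i η w hw h3⟩

structure TD (d : ℕ) (x₀ : PP2 K) (s₀ : K) where
  le : Fin d → K → K → RO (PP2 K)
  lv : Fin d → K → K → RO (PP2 K)
  col : (Fin d → K) → K → RO (PP2 K)
  refl : ∀ j a y, y ≤ x₀ → (le j a a).s y
  trans : ∀ j a b c y, y ≤ x₀ → (le j a b).s y → (le j b c).s y → (le j a c).s y
  ub : ∀ j (B : K → RO (PP2 K)) (η : K) y, y ≤ x₀ →
    (∀ a b z, z ≤ y → (B a).s z → (B b).s z → ∃ w, w ≤ z ∧ ((le j a b).s w ∨ (le j b a).s w)) →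
    (∀ a β z, z ≤ y → (B a).s z → (lv j a β).s z → β ≤ η) →
    ∃ z, z ≤ y ∧ ∃ c, (lv j c η).s z ∧ ∀ a w, w ≤ z → (B a).s w → (le j a c).s w
  hgt : ∀ j a y, y ≤ x₀ → ∃ z, z ≤ y ∧ ∃ η, (lv j a η).s z
  uniq : ∀ j a η η' y, y ≤ x₀ → (lv j a η).s y → (lv j a η').s y → η = η'
  cod : ∀ j η y, y ≤ x₀ → ∃ z, z ≤ y ∧ ∃ β, ∀ a w, w ≤ z → (lv j a η).s w →
    ∃ w', w' ≤ w ∧ ∃ a', a' < β ∧ (le j a a').s w' ∧ (le j a' a).s w'
  tot : ∀ (x : Fin d → K) η y, y ≤ x₀ → (∀ j, (lv j (x j) η).s y) →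
    ∃ z, z ≤ y ∧ ∃ i, i < s₀ ∧ (col x i).s z

namespace TD

variable {d : ℕ} {x₀ : PP2 K} {s₀ : K} (T : TD d x₀ s₀)

def Gr (τ : Fin d → K) (i ζ' : K) (y : PP2 K) : Prop :=
  ∃ ζ, ζ' ≤ ζ ∧ ∃ X : Fin d → K → RO (PP2 K),
    (∀ j a w, w ≤ y → (X j a).s w → (T.lv j a ζ).s w) ∧
    (∀ j a w, w ≤ y → (T.lv j a ζ').s w → (T.le j (τ j) a).s w →
      ∃ w', w' ≤ w ∧ ∃ x, (X j x).s w' ∧ (T.le j a x).s w') ∧
    ∀ (x : Fin d → K) w, w ≤ y → (∀ j, (X j (x j)).s w) → (T.col x i).s w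

noncomputable def Acc (j : Fin d) (s : K → K) : K → RO (PP2 K) :=
  WellFoundedLT.fix fun ξ rec =>
    RO.all fun ξ' : Iio ξ => RO.imp (rec ξ'.1 ξ'.2) (T.le j (s ξ'.1) (s ξ))

theorem Acc_eq (j : Fin d) (s : K → K) (ξ : K) : T.Acc j s ξ =
    RO.all fun ξ' : Iio ξ => RO.imp (T.Acc j s ξ'.1) (T.le j (s ξ'.1) (s ξ)) :=
  WellFoundedLT.fix_eq _ ξ

theorem exists_stem (j : Fin d) (s : K → K) (l : K) (y : PP2 K) (hy : y ≤ x₀) :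
    ∃ z, z ≤ y ∧ ∃ c, ∀ ξ w, ξ < l → w ≤ z → (T.Acc j s ξ).s w → (T.le j (s ξ) c).s w := by
  obtain ⟨y', h1, η, h2⟩ := bdd_names (Ms.iio l) (fun ξ : Iio l => T.lv j (s ξ.1)) y
    fun ξ η η' z hz => T.uniq j _ η η' z (hz.trans hy)
  obtain ⟨z, h3, c, -, h4⟩ := T.ub j (fun a => RO.ex fun ξ : Iio l =>
    RO.and (T.Acc j s ξ.1) (pr (s ξ.1 = a))) η y' (h1.trans hy) (by
      intro a b z hz ha hb
      obtain ⟨z₁, h5, ξ, h6, rfl⟩ := ha z le_rfl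
      obtain ⟨z₂, h7, ξ', h8, rfl⟩ := hb z₁ h5
      refine ⟨z₂, h7.trans h5, ?_⟩
      rcases lt_trichotomy ξ.1 ξ'.1 with h | h | h
      · rw [Acc_eq] at h8
        exact Or.inl (h8 ⟨ξ.1, h⟩ z₂ le_rfl (RO.mono h6 h7))
      · rw [h]
        exact Or.inl (T.refl j _ z₂ (h7.trans (h5.trans (hz.trans (h1.trans hy)))))
      · rw [Acc_eq] at h6
        exact Or.inr (h6 ⟨ξ'.1, h⟩ z₂ h7 h8)) (by
      intro a β z hz ha hb
      obtain ⟨z₁, h5, ξ, -, rfl⟩ := ha z le_rfl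
      exact (h2 ξ β z₁ (h5.trans hz) (RO.mono hb h5)).le)
  exact ⟨z, h3.trans h1, c, fun ξ w h5 h6 h7 => h4 _ w h6 (RO.ex_intro ⟨ξ, h5⟩ ⟨h7, rfl⟩)⟩

end TD

def val (ζ a ξ v : K) : RO (PP2 K) := RO.dense fun y => (ζ, a, ξ, v) ∈ y.1.g

theorem val_intro {ζ a ξ v : K} {y : PP2 K} (h : (ζ, a, ξ, v) ∈ y.1.g) : (val ζ a ξ v).s y :=
  fun z hz => ⟨z, le_rfl, hz.1 h⟩

theorem val_unique {ζ a ξ v v' : K} {y : PP2 K} (h : (val ζ a ξ v).s y)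
    (h' : (val ζ a ξ v').s y) : v = v' := by
  obtain ⟨z, hz, h1⟩ := h y le_rfl
  obtain ⟨w, hw, h2⟩ := h' z hz
  exact w.1.fn _ _ _ _ _ (hw.1 h1) h2

theorem val_lt {ζ a ξ v : K} {y : PP2 K} (h : (val ζ a ξ v).s y) : v < ζ := by
  obtain ⟨z, -, h1⟩ := h y le_rfl
  exact (z.1.ok _ h1).2.2.2

namespace TD

variable {d : ℕ} {x₀ : PP2 K} {s₀ : K} (T : TD d x₀ s₀)

noncomputable def AccG (j : Fin d) (ζ a : K) : K → RO (PP2 K) :=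
  WellFoundedLT.fix fun ξ rec => RO.ex fun v => RO.and (val ζ a ξ v)
    (RO.all fun t : Iio ξ × K => RO.imp (rec t.1.1 t.1.2) (RO.imp (val ζ a t.1.1 t.2) (T.le j t.2 v)))

theorem AccG_eq (j : Fin d) (ζ a ξ : K) : T.AccG j ζ a ξ = RO.ex fun v => RO.and (val ζ a ξ v)
    (RO.all fun t : Iio ξ × K => RO.imp (T.AccG j ζ a t.1.1)
      (RO.imp (val ζ a t.1.1 t.2) (T.le j t.2 v))) :=
  WellFoundedLT.fix_eq _ ξ

theorem accG_iff (j : Fin d) (ζ a l : K) (s : K → K) (y : PP2 K)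
    (hy : ∀ ξ, ξ < l → (ζ, a, ξ, s ξ) ∈ y.1.g) (ξ : K) :
    ξ < l → ∀ w, w ≤ y → ((T.AccG j ζ a ξ).s w ↔ (T.Acc j s ξ).s w) := by
  induction ξ using WellFoundedLT.induction with
  | ind ξ ih =>
    intro hξ w hw
    rw [AccG_eq, Acc_eq]
    constructor
    · intro h ξ' w₁ hw₁ h1
      refine RO.reg fun w₂ hw₂ => ?_
      obtain ⟨w₃, hw₃, v, h2, h3⟩ := h w₂ (hw₂.trans hw₁)
      have h4 : w₃ ≤ y := hw₃.trans (hw₂.trans (hw₁.trans hw))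
      obtain rfl : v = s ξ := val_unique h2 (val_intro (h4.1 (hy ξ hξ)))
      exact ⟨w₃, hw₃, h3 (ξ', s ξ'.1) w₃ le_rfl
        ((ih ξ'.1 ξ'.2 (ξ'.2.trans hξ) w₃ h4).2 (RO.mono h1 (hw₃.trans hw₂))) w₃ le_rfl
        (val_intro (h4.1 (hy _ (ξ'.2.trans hξ))))⟩
    · intro h
      refine RO.ex_intro (s ξ) ⟨val_intro (hw.1 (hy ξ hξ)), ?_⟩
      rintro ⟨ξ', v⟩ w₁ hw₁ h1 w₂ hw₂ h2
      have h4 : w₂ ≤ y := hw₂.trans (hw₁.trans hw)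
      obtain rfl : v = s ξ'.1 := val_unique h2 (val_intro (h4.1 (hy _ (ξ'.2.trans hξ))))
      exact h ξ' w₂ (hw₂.trans hw₁) ((ih ξ'.1 ξ'.2 (ξ'.2.trans hξ) w₂ h4).1 (RO.mono h1 hw₂))

noncomputable def BG (j : Fin d) (ζ a v : K) : RO (PP2 K) :=
  RO.ex fun ξ => RO.and (T.AccG j ζ a ξ) (val ζ a ξ v)

noncomputable def tm (j : Fin d) (ζ a : K) : K → RO (PP2 K) :=
  mn fun x => RO.and (T.lv j x ζ) (RO.all fun v => RO.imp (T.BG j ζ a v) (T.le j v x))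

theorem exists_tm (j : Fin d) (ζ a : K) (y : PP2 K) (hy : y ≤ x₀)
    (H : ∀ a η z, a < ζ → z ≤ y → (T.lv j a η).s z → η < ζ) :
    ∃ z, z ≤ y ∧ ∃ x, (T.tm j ζ a x).s z := by
  have key : ∀ ξ ξ' v v' z, ξ < ξ' → (T.AccG j ζ a ξ).s z → (val ζ a ξ v).s z →
      (T.AccG j ζ a ξ').s z → (val ζ a ξ' v').s z → ∃ w, w ≤ z ∧ (T.le j v v').s w := by
    intro ξ ξ' v v' z h h1 h2 h3 h4
    rw [AccG_eq] at h3
    obtain ⟨w, hw, v'', h5, h6⟩ := h3 z le_rfl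
    obtain rfl : v'' = v' := val_unique h5 (RO.mono h4 hw)
    exact ⟨w, hw, h6 (⟨ξ, h⟩, v) w le_rfl (RO.mono h1 hw) w le_rfl (RO.mono h2 hw)⟩
  obtain ⟨z, h1, c, h2, h3⟩ := T.ub j (T.BG j ζ a) ζ y hy (by
    intro v v' z hz hv hv'
    obtain ⟨z₁, h5, ξ, h6, h6'⟩ := hv z le_rfl
    obtain ⟨z₂, h7, ξ', h8, h8'⟩ := hv' z₁ h5
    rcases lt_trichotomy ξ ξ' with h | h | h
    · obtain ⟨w, hw, h9⟩ := key ξ ξ' v v' z₂ h (RO.mono h6 h7) (RO.mono h6' h7) h8 h8'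
      exact ⟨w, hw.trans (h7.trans h5), Or.inl h9⟩
    · subst h
      obtain rfl : v = v' := val_unique (RO.mono h6' h7) h8'
      exact ⟨z, le_rfl, Or.inl (T.refl j _ z (hz.trans hy))⟩
    · obtain ⟨w, hw, h9⟩ := key ξ' ξ v' v z₂ h h8 h8' (RO.mono h6 h7) (RO.mono h6' h7)
      exact ⟨w, hw.trans (h7.trans h5), Or.inr h9⟩) (by
    intro v β z hz hv hβ
    obtain ⟨z₁, -, ξ, -, h6⟩ := hv z le_rfl
    exact (H v β z (val_lt h6) hz hβ).le)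
  obtain ⟨w, hw, h4⟩ := exists_mn (Φ := fun x => RO.and (T.lv j x ζ)
    (RO.all fun v => RO.imp (T.BG j ζ a v) (T.le j v x))) (p := z) (x := c) ⟨h2, h3⟩
  exact ⟨w, hw.trans h1, h4⟩

end TD

noncomputable def fnS (S : Sm K (K × K)) (ξ : K) : K :=
  open Classical in if h : ∃ v, (ξ, v) ∈ S.1 then h.choose else kz K

theorem TD.closure {d : ℕ} {p₀ : PC K} {f₀ : RC K} {s₀ : K} (T : TD d (p₀, f₀) s₀)
    (hc : ∀ y, y ≤ (p₀, f₀) → ∀ τ i, i < s₀ → ∃ ζ' z, z ≤ y ∧ ∀ w, w ≤ z → ¬ T.Gr τ i ζ' w) :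
    ∃ f₁, f₁ ≤ f₀ ∧ ∃ ζ ∈ Sset K, rk p₀ < ζ ∧ s₀ < ζ ∧
      ∀ (j : Fin d) (a : K) (τ : Fin d → K) (S : Sm K (K × K)) (p : PC K), a < ζ → rk τ < ζ →
        rk S < ζ → rk p < ζ → p ≤ p₀ → ∃ p', p' ≤ p ∧ rk p' < ζ ∧
          (∃ η, η < ζ ∧ (T.lv j a η).s (p', f₁)) ∧
          (∃ β, β < ζ ∧ ∀ b w, w ≤ (p', f₁) → (T.lv j b a).s w →
            ∃ w', w' ≤ w ∧ ∃ b', b' < β ∧ (T.le j b b').s w' ∧ (T.le j b' b).s w') ∧
          (∃ ζ', ζ' < ζ ∧ (a < s₀ → ∀ w, w ≤ (p', f₁) → ¬ T.Gr τ a ζ' w)) ∧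
          ∃ c, c < ζ ∧ ∀ ξ w, ξ < a → w ≤ (p', f₁) → (T.Acc j (fnS S) ξ).s w →
            (T.le j (fnS S ξ) c).s w := by
  classical
  let I := ULift.{u} (Fin d) × K × (Fin d → K) × Sm K (K × K)
  let D : I → (K × K × K × K) → PP2 K → Prop := fun t o y =>
    (T.lv t.1.down t.2.1 o.1).s y ∧
    (∀ b w, w ≤ y → (T.lv t.1.down b t.2.1).s w → ∃ w', w' ≤ w ∧ ∃ b', b' < o.2.1 ∧
      (T.le t.1.down b b').s w' ∧ (T.le t.1.down b' b).s w') ∧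
    (t.2.1 < s₀ → ∀ w, w ≤ y → ¬ T.Gr t.2.2.1 t.2.1 o.2.2.1 w) ∧
    ∀ ξ w, ξ < t.2.1 → w ≤ y → (T.Acc t.1.down (fnS t.2.2.2) ξ).s w →
      (T.le t.1.down (fnS t.2.2.2 ξ) o.2.2.2).s w
  obtain ⟨f₁, h1, h2⟩ := R_fusion (mk_le_K I) (fun t y => ∃ o, D t o y) p₀ f₀ (by
    rintro t x y hy ⟨o, h1, h2, h3, h4⟩
    exact ⟨o, RO.mono h1 hy, fun b w hw => h2 b w (hw.trans hy),
      fun h w hw => h3 h w (hw.trans hy), fun ξ w h hw => h4 ξ w h (hw.trans hy)⟩) (by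
    rintro ⟨⟨j⟩, a, τ, S⟩ x hx
    obtain ⟨y₁, l1, η, h1⟩ := T.hgt j a x hx
    obtain ⟨y₂, l2, β, h2⟩ := T.cod j a y₁ (l1.trans hx)
    obtain ⟨y₃, l3, c, h3⟩ := T.exists_stem j (fnS S) a y₂ (l2.trans (l1.trans hx))
    obtain ⟨ζ', y₄, l4, h4⟩ : ∃ ζ' y₄, y₄ ≤ y₃ ∧ (a < s₀ → ∀ w, w ≤ y₄ → ¬ T.Gr τ a ζ' w) := by
      by_cases h : a < s₀
      · obtain ⟨ζ', z, h4, h5⟩ := hc y₃ (l3.trans (l2.trans (l1.trans hx))) τ a h
        exact ⟨ζ', z, h4, fun _ => h5⟩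
      · exact ⟨a, y₃, le_rfl, fun h' => absurd h' h⟩
    exact ⟨y₄, l4.trans (l3.trans (l2.trans l1)), (η, β, ζ', c),
      RO.mono h1 (l4.trans (l3.trans l2)), fun b w hw => h2 b w (hw.trans (l4.trans l3)), h4,
      fun ξ w h hw => h3 ξ w h (hw.trans l4)⟩)
  have h3 : ∀ t : I × PC K, ∃ e : PC K × K × K × K × K, t.2 ≤ p₀ →
      e.1 ≤ t.2 ∧ D t.1 e.2 (e.1, f₁) := by
    intro t
    by_cases h : t.2 ≤ p₀
    · obtain ⟨p', h3, o, h4⟩ := h2 t.1 t.2 h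
      exact ⟨(p', o), fun _ => ⟨h3, h4⟩⟩
    · exact ⟨(t.2, s₀, s₀, s₀, s₀), fun h' => absurd h' h⟩
  choose e he using h3
  obtain ⟨ζ, h3, h4, h5⟩ := exists_closed (fun t => rk (e t)) (max (rk p₀) s₀)
  refine ⟨f₁, h1, ζ, h3, (le_max_left _ _).trans_lt h4, (le_max_right _ _).trans_lt h4,
    fun j a τ S p ha hτ hS hp hp₀ => ?_⟩
  have h6 := h5 ((⟨j⟩, a, τ, S), p)
    (max_lt (max_lt h3.1.kz_lt (max_lt ha (max_lt hτ hS))) hp)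
  simp only [rk_prod, max_lt_iff, rk_K] at h6
  obtain ⟨h7, h8, h9, h10, h11⟩ := he ((⟨j⟩, a, τ, S), p) hp₀
  exact ⟨_, h7, h6.1, ⟨_, h6.2.1, h8⟩, ⟨_, h6.2.2.1, h9⟩, ⟨_, h6.2.2.2.1, h10⟩, _, h6.2.2.2.2, h11⟩

theorem TD.sd {d : ℕ} (j₀ : Fin d) {x₀ : PP2 K} {s₀ : K} (T : TD d x₀ s₀) :
    ∃ y, y ≤ x₀ ∧ ∃ τ i, i < s₀ ∧ ∀ ζ' z, z ≤ y → ∃ w, w ≤ z ∧ T.Gr τ i ζ' w := by
  classical
  obtain ⟨p₀, f₀⟩ := x₀
  by_contra hc
  push Not at hc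
  obtain ⟨f₁, hf₁, ζ, hζS, hp₀, hs₀, hcl⟩ := T.closure hc
  have hζ := hζS.1
  have k0 := hζ.kz_lt
  let S₀ : Sm K (K × K) := ⟨∅, by simpa using aleph0_pos.trans Ms.unc⟩
  have hS₀ : rk S₀ < ζ := ((rk_Sm_le S₀ (kz K)).2 fun _ h => h.elim).trans_lt k0
  have hτ₀ : rk (fun _ : Fin d => kz K) < ζ := hζ.rk_pi_lt _ fun _ => k0
  have hx₁ : ((p₀, f₁) : PP2 K) ≤ (p₀, f₀) := ⟨le_rfl, hf₁⟩
  have H1 : ∀ j a η y, a < ζ → y ≤ (p₀, f₁) → (T.lv j a η).s y → η < ζ := by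
    intro j a η y ha hy h
    obtain ⟨p', h1, h2, ⟨η', h3, h4⟩, -⟩ := hcl j a _ S₀ (y.1.res (Iio ζ)) ha hτ₀ hS₀
      (PC.rk_res_lt _ hζ) (PC.res_le_of_rk hy.1 hp₀)
    obtain ⟨r, h5, h6⟩ := PC.exists_le₂ (PC.compat_of_res (PC.lt_of_rk h2) h1)
    have h7 : ((r, y.2) : PP2 K) ≤ y := ⟨h6, le_rfl⟩
    rwa [T.uniq j a η η' (r, y.2) (h7.trans (hy.trans hx₁)) (RO.mono h h7)
      (RO.mono h4 ⟨h5, hy.2⟩)]
  obtain ⟨γ₀, hγ₀, hγ₁⟩ := (ae_good.and (ae_gt ζ)).exists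
  obtain ⟨w, f₂, hw, hf₂, hL⟩ := upper_fusion ζ (ι := {a : Fin d → K | ∀ j, a j < Lam ζ})
    (fun γ h1 h2 => h1.mk_pi_lt (h1.lam ζ h2))
    ((hγ₀.mk_pi_lt (hγ₀.lam ζ hγ₁)).trans (Ms.iio γ₀))
    (fun a y => ∃ x : Fin d → K, ∃ i, i < s₀ ∧ (∀ j, (T.tm j ζ (a.1 j) (x j)).s y) ∧
      (T.col x i).s y) p₀ f₁ (fun x hx => (PC.lt_of_rk hp₀ x hx).le) (by
      rintro a x y hy ⟨b, i, h1, h2, h3⟩
      exact ⟨b, i, h1, fun j => RO.mono (h2 j) hy, RO.mono h3 hy⟩) (by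
      intro a y hy
      obtain ⟨z, h1, -, h2⟩ := fin_iter (fun z => z ≤ (p₀, f₁))
        (fun j z => ∃ x, (T.tm j ζ (a.1 j) x).s z)
        (fun j p q hq ⟨x, hx⟩ => ⟨x, RO.mono hx hq⟩) (fun j p hp => by
          obtain ⟨z, h1, h2⟩ := T.exists_tm j ζ (a.1 j) p (hp.trans hx₁)
            fun b η z h1 h2 => H1 j b η z h1 (h2.trans hp)
          exact ⟨z, h1, h1.trans hp, h2⟩) y hy
      choose x hx using h2
      obtain ⟨z', h3, i, h4, h5⟩ := T.tot x ζ z (h1.trans (hy.trans hx₁)) fun j => (hx j).1.1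
      exact ⟨z', h3.trans h1, x, i, h4, fun j => RO.mono (hx j) h3, h5⟩)
  have hL' : ∀ a : Fin d → K, ∃ (L : PC K) (i : K) (x : Fin d → K), L ≤ p₀ ∧
      (∀ x ∈ L.g, x.1 ≤ ζ) ∧ i < ζ ∧ ((∀ j, a j < Lam ζ) → i < s₀ ∧ ∀ y : PP2 K, y.1 ≤ L →
        y.1 ≤ w → y.2 ≤ f₂ → (∀ j, (T.tm j ζ (a j) (x j)).s y) ∧ (T.col x i).s y) := by
    intro a
    by_cases ha : ∀ j, a j < Lam ζ
    · obtain ⟨L, h1, h2, h3⟩ := hL ⟨a, ha⟩
      obtain ⟨r, hr⟩ := PC.exists_lb₂ (PC.compat_of_sep h2 hw)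
      obtain ⟨x, i, h4, h5, h6⟩ := h3 r f₂ (PC.le_def.2 (hr ▸ subset_union_left))
        (PC.le_def.2 (hr ▸ subset_union_right)) le_rfl
      refine ⟨L, i, x, h1, h2, h4.trans hs₀, fun _ => ⟨h4, fun y h7 h8 h9 => ?_⟩⟩
      have : y ≤ (r, f₂) := ⟨PC.le_def.2 (hr ▸ union_subset h7 h8), h9⟩
      exact ⟨fun j => RO.mono (h5 j) this, RO.mono h6 this⟩
    · exact ⟨p₀, kz K, a, le_rfl, fun x hx => (PC.lt_of_rk hp₀ x hx).le, k0,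
        fun h => absurd h ha⟩
  choose L cl xs hL1 hL2 hL3 hL4 using hL'
  obtain ⟨h, hh1, hh2, hh3⟩ := uniform hζ L cl hL2 hL3
  let G : (Fin d → K) → Fin d → K := fun a j => h j (a j)
  let a₀ : Fin d → K := fun _ => kz K
  have ha₀ : ∀ j, a₀ j < ζ := fun _ => k0
  have hSz : ∀ j, #{t : K × K | (ζ, h j (kz K), t.1, t.2) ∈ (L (G a₀)).g} < #(Iio ζ) := fun j =>
    (mk_preimage_of_injective (fun t : K × K => (ζ, h j (kz K), t.1, t.2)) _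
      fun t t' h => by simpa using h).trans_lt (mk_lt_of_le hζ (hL2 _))
  let S : Fin d → Sm K (K × K) := fun j => ⟨_, (hSz j).trans (Ms.iio ζ)⟩
  have hS : ∀ j, rk (S j) < ζ := fun j => hζ.rk_Sm_lt _ (hSz j) fun t ht =>
    max_lt ((L _).ok _ ht).2.2.1 ((L _).ok _ ht).2.2.2
  obtain ⟨l, hl1, hl2⟩ := hζ.bdd_fam (fun j : ULift.{u} (Fin d) => (rk (S j.down) : K))
    hζ.mk_fin_lt fun j => hS j.down
  have hS2 : ∀ j ξ v, (ξ, v) ∈ (S j).1 → ξ < l ∧ v = fnS (S j) ξ := by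
    intro j ξ v hv
    have h1 : ∃ v, (ξ, v) ∈ (S j).1 := ⟨v, hv⟩
    refine ⟨((le_max_left _ _).trans ((rk_Sm_le _ _).1 le_rfl _ hv)).trans_lt (hl2 ⟨j⟩), ?_⟩
    rw [fnS, dif_pos h1]
    exact (L _).fn _ _ _ _ _ hv h1.choose_spec
  have hS3 : ∀ j ξ, fnS (S j) ξ < ζ := by
    intro j ξ
    unfold fnS
    split_ifs with h1
    · exact ((L _).ok _ h1.choose_spec).2.2.2
    · exact k0
  have hp₁ : (L (G a₀)).res (Iio ζ) ≤ p₀ := PC.res_le_of_rk (hL1 _) hp₀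
  obtain ⟨p₁, l1, ⟨m1, n1⟩, h1⟩ := fin_iter (fun p : PC K => rk p < ζ ∧ p ≤ p₀)
    (fun j p => ∃ c, c < ζ ∧ ∀ ξ w, ξ < l → w ≤ (p, f₁) → (T.Acc j (fnS (S j)) ξ).s w →
      (T.le j (fnS (S j) ξ) c).s w)
    (fun j p q hq ⟨c, h1, h2⟩ => ⟨c, h1, fun ξ w h3 h4 => h2 ξ w h3
      (le_trans (b := (q, f₁)) h4 ⟨hq, le_rfl⟩)⟩) (fun j p hp => by
      obtain ⟨p', h1, h2, -, -, -, h3⟩ := hcl j l _ (S j) p hl1 hτ₀ (hS j) hp.1 hp.2
      exact ⟨p', h1, ⟨h2, h1.trans hp.2⟩, h3⟩) _ ⟨PC.rk_res_lt _ hζ, hp₁⟩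
  choose τ hτ1 hτ2 using h1
  have hi := (hL4 (G a₀) fun j => hh1 j _ k0).1
  obtain ⟨p₂, l2, m2, -, -, ⟨ζ', hζ', h2⟩, -⟩ := hcl j₀ (cl (G a₀)) τ S₀ p₁ (hL3 _)
    (hζ.rk_pi_lt τ hτ1) hS₀ m1 n1
  obtain ⟨p₃, l3, ⟨m3, n3⟩, h3⟩ := fin_iter (fun p : PC K => rk p < ζ ∧ p ≤ p₀)
    (fun j p => ∃ β, β < ζ ∧ ∀ b w, w ≤ (p, f₁) → (T.lv j b ζ').s w →
      ∃ w', w' ≤ w ∧ ∃ b', b' < β ∧ (T.le j b b').s w' ∧ (T.le j b' b).s w')
    (fun j p q hq ⟨c, h1, h2⟩ => ⟨c, h1, fun b w h4 => h2 b w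
      (le_trans (b := (q, f₁)) h4 ⟨hq, le_rfl⟩)⟩) (fun j p hp => by
      obtain ⟨p', h1, h2, -, h3, -⟩ := hcl j ζ' _ S₀ p hζ' hτ₀ hS₀ hp.1 hp.2
      exact ⟨p', h1, ⟨h2, h1.trans hp.2⟩, h3⟩) p₂ ⟨m2, l2.trans n1⟩
  choose βs hβ1 hβ2 using h3
  obtain ⟨β, hβ3, hβ4⟩ := hζ.bdd_fam (fun j : ULift.{u} (Fin d) => βs j.down)
    hζ.mk_fin_lt fun j => hβ1 j.down
  obtain ⟨l', hl3, hl4⟩ := hζ.exists_gt hl1
  let row : ULift.{u} (Fin d) × Iio β × Iio l' → K × K × K × K := fun t =>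
    (ζ, h t.1.down t.2.1, t.2.2, if t.2.2.1 < l then fnS (S t.1.down) t.2.2 else t.2.1)
  let M := mkAt hζS ((⋃ a : {a : Fin d → K | ∀ j, a j < β}, {x ∈ (L (G a.1)).g | x.1 = ζ}) ∪
    range row) (by
      have key : ∀ r ξ v v', (ζ, r, ξ, v) ∈ (⋃ a : {a : Fin d → K | ∀ j, a j < β},
          {x ∈ (L (G a.1)).g | x.1 = ζ}) → (ζ, r, ξ, v') ∈ range row → v = v' := by
        rintro r ξ v v' h4 ⟨⟨⟨j⟩, e, ξ'⟩, h5⟩
        obtain ⟨a, h4, -⟩ := mem_iUnion.1 h4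
        simp only [row, Prod.mk.injEq, true_and] at h5
        obtain ⟨rfl, rfl, rfl⟩ := h5
        obtain ⟨h6, h7⟩ := hS2 j _ v ((hh3 a.1 a₀ (fun j => (a.2 j).trans hβ3) ha₀).2.2.2 j e.1 _ v
          (e.2.trans hβ3) h4)
        rw [if_pos h6, h7]
      rintro r ξ v v' (h4 | h4) (h5 | h5)
      · obtain ⟨a, h4, -⟩ := mem_iUnion.1 h4
        obtain ⟨b, h5, -⟩ := mem_iUnion.1 h5
        exact (hh3 a.1 b.1 (fun j => (a.2 j).trans hβ3) fun j => (b.2 j).trans hβ3).2.2.1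
          _ _ _ _ _ h4 h5
      · exact key _ _ _ _ h4 h5
      · exact (key _ _ _ _ h5 h4).symm
      · obtain ⟨⟨⟨j⟩, e, ξ₁⟩, h4⟩ := h4
        obtain ⟨⟨⟨j'⟩, e', ξ₂⟩, h5⟩ := h5
        simp only [row, Prod.mk.injEq, true_and] at h4 h5
        obtain ⟨h6, h7⟩ := hh2 j j' e.1 e'.1 (e.2.trans hβ3) (e'.2.trans hβ3)
          (h4.1.trans h5.1.symm)
        rw [← h4.2.2, ← h5.2.2, h6, h7, h4.2.1, h5.2.1]) (by
      rintro x (hx | ⟨⟨⟨j⟩, e, ξ⟩, rfl⟩)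
      · obtain ⟨a, h4, h5⟩ := mem_iUnion.1 hx
        have := (L _).ok x h4
        rw [h5] at this
        exact ⟨h5, this.2⟩
      · refine ⟨rfl, hh1 j _ (e.2.trans hβ3), ξ.2.trans hl3, ?_⟩
        simp only [row]
        split_ifs
        · exact hS3 _ _
        · exact e.2.trans hβ3) (by
      refine (mk_union_le _ _).trans_lt (add_lt_of_lt hζ.unc.le
        (hζ.mk_iUnion_lt _ (hζ.mk_pi_lt hβ3) fun a =>
          (mk_le_mk_of_subset fun _ hx => hx.1).trans_lt (mk_lt_of_le hζ (hL2 _)))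
        (mk_range_le.trans_lt ?_))
      simp only [mk_prod, lift_id]
      exact mul_lt_of_lt hζ.unc.le hζ.mk_fin_lt
        (mul_lt_of_lt hζ.unc.le (hζ.init β hβ3) (hζ.init l' hl3)))
  have hM : ∀ x ∈ M.g, x.1 = ζ := by
    rintro x (hx | ⟨t, rfl⟩)
    · obtain ⟨a, -, h5⟩ := mem_iUnion.1 hx
      exact h5
    · rfl
  obtain ⟨r₁, hr₁⟩ := PC.exists_lb₂ (p := p₃) (q := M) fun ζ₁ a ξ v v' h4 h5 =>
    absurd (PC.lt_of_rk m3 _ h4) (not_lt.2 (hM _ h5).ge)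
  obtain ⟨r, hr1, hr2⟩ := PC.exists_le₂ (PC.compat_of_sep (p := r₁) (α := ζ) (by
    intro x hx
    rw [hr₁] at hx
    rcases hx with hx | hx
    · exact (PC.lt_of_rk m3 x hx).le
    · exact (hM x hx).le) hw)
  have hr3 : r ≤ p₃ := hr1.trans (PC.le_def.2 (hr₁ ▸ subset_union_left))
  have hr4 : r ≤ M := hr1.trans (PC.le_def.2 (hr₁ ▸ subset_union_right))
  have hr5 : ∀ a : Fin d → K, (∀ j, a j < β) → r ≤ L (G a) := by
    intro a ha x hx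
    rcases (hL2 _ x hx).eq_or_lt with h4 | h4
    · exact hr4 (Or.inl (mem_iUnion.2 ⟨⟨a, ha⟩, hx, h4⟩))
    · exact (hr3.trans (l3.trans (l2.trans l1)))
        ⟨(hh3 a a₀ (fun j => (ha j).trans hβ3) ha₀).2.1 x hx h4, h4⟩
  have hy1 : ((r, f₂) : PP2 K) ≤ (p₃, f₁) := ⟨hr3, hf₂⟩
  have hy2 : ((r, f₂) : PP2 K) ≤ (p₀, f₁) := ⟨hr3.trans n3, hf₂⟩
  refine h2 hi (r, f₂) ⟨hr3.trans l3, hf₂⟩ ⟨ζ, hζ'.le,
    fun j x => RO.ex fun a : Iio β => T.tm j ζ (h j a.1) x, ?_, ?_, ?_⟩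
  · intro j x y _ hx
    refine RO.reg fun z hz => ?_
    obtain ⟨z', hz', a, h4⟩ := hx z hz
    exact ⟨z', hz', h4.1.1⟩
  · intro j b y hy h4 h5
    obtain ⟨y₁, hy₁, b', h6, h7, h8⟩ := hβ2 j b y (hy.trans hy1) h4
    have h9 : b' < β := h6.trans (hβ4 ⟨j⟩)
    have hy3 : y₁ ≤ (r, f₂) := hy₁.trans hy
    obtain ⟨y₂, hy₂, x, h10⟩ := T.exists_tm j ζ (h j b') y₁ (hy3.trans (hy2.trans hx₁))
      fun a η z h1 h2 => H1 j a η z h1 (h2.trans (hy3.trans hy2))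
    have hy4 : y₂ ≤ (r, f₂) := hy₂.trans hy3
    have h11 : ∀ ξ, ξ < l → (ζ, h j b', ξ, fnS (S j) ξ) ∈ y₂.1.g := fun ξ hξ =>
      hy4.1 (hr4 (Or.inr ⟨(⟨j⟩, ⟨b', h9⟩, ⟨ξ, hξ.trans hl4⟩), by simp [row, hξ]⟩))
    have h12 : (val ζ (h j b') l b').s y₂ :=
      val_intro (hy4.1 (hr4 (Or.inr ⟨(⟨j⟩, ⟨b', h9⟩, ⟨l, hl4⟩), by simp [row]⟩)))
    have h13 : (T.AccG j ζ (h j b') l).s y₂ := by
      rw [TD.AccG_eq]
      refine RO.ex_intro b' ⟨h12, ?_⟩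
      rintro ⟨ξ, v⟩ z hz h13 z' hz' h14
      have hz1 : z' ≤ y₂ := hz'.trans hz
      have hz2 : z' ≤ (p₀, f₀) := hz1.trans (hy4.trans (hy2.trans hx₁))
      obtain rfl : v = fnS (S j) ξ.1 := val_unique h14 (val_intro (hz1.1 (h11 _ ξ.2)))
      have h15 := hτ2 j ξ.1 z' ξ.2 (le_trans (hz1.trans hy4) ⟨hr3.trans (l3.trans l2), hf₂⟩)
        ((T.accG_iff j ζ _ l _ y₂ h11 ξ.1 ξ.2 z' hz1).1 (RO.mono h13 hz'))
      exact T.trans j _ _ _ z' hz2 (T.trans j _ _ _ z' hz2 h15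
        (RO.mono h5 (hz1.trans (hy₂.trans hy₁)))) (RO.mono h7 (hz1.trans hy₂))
    exact ⟨y₂, hy₂.trans hy₁, x, RO.ex_intro ⟨b', h9⟩ h10,
      T.trans j _ _ _ y₂ (hy4.trans (hy2.trans hx₁)) (RO.mono h7 hy₂)
        (h10.1.2 b' y₂ le_rfl (RO.ex_intro l ⟨h13, h12⟩))⟩
  · intro x y hy h4
    refine RO.reg fun z hz => ?_
    obtain ⟨z', h5, -, h6⟩ := fin_iter (fun z => z ≤ y)
      (fun j z => ∃ a : Iio β, (T.tm j ζ (h j a.1) (x j)).s z)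
      (fun j p q hq ⟨a, ha⟩ => ⟨a, RO.mono ha hq⟩) (fun j p hp => by
        obtain ⟨q, h5, h6⟩ := h4 j p hp
        exact ⟨q, h5, h5.trans hp, h6⟩) z hz
    choose a ha using h6
    have h7 : z' ≤ (r, f₂) := h5.trans (hz.trans hy)
    obtain ⟨h8, h9⟩ := (hL4 (G fun j => (a j).1) fun j => hh1 j _ ((a j).2.trans hβ3)).2 z'
      (h7.1.trans (hr5 _ fun j => (a j).2)) (h7.1.trans hr2) h7.2
    obtain rfl : x = xs (G fun j => (a j).1) := funext fun j => mn_unique (ha j) (h8 j)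
    refine ⟨z', h5, ?_⟩
    rwa [(hh3 a₀ (fun j => (a j).1) ha₀ fun j => (a j).2.trans hβ3).1]

end Pool.Agent.Lib.MP_c8ac39_lc
end
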