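import Pool.Agent.Lib.MP_c8ac39_lc.Df
import Pool.Agent.Lib.MP_c8ac39_lc.SD

/-! The cardinal `K` in the quotient model: greedy recursion, regularity, measurability. -/

namespace Pool.Agent.Lib.MP_c8ac39_lc

open Cardinal Filter Set Pool.Agent.Lib.MP_2739cb_lc Nm

universe u v

structure Big {P : Type u} [Preorder P] [OrderTop P] (κ : Mod P) : Prop where
  ord : IsOrd EM κ
  lim : IsLimit EM κ
  greedy : ∀ (ψ : Mod P → Prop) (φ : Mod P → Mod P → Prop) [Df1 ψ] [Df2 φ],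
    ∃ B, ∀ ζ, EM ζ B ↔ EM ζ κ ∧ ψ ζ ∧ ∀ ζ', EM ζ' ζ → EM ζ' B → φ ζ' ζ
  bdd : ∀ (φ : Mod P → Mod P → Prop) [Df2 φ] (C : Mod P), Small EM C κ →
    (∀ c η η', EM c C → φ c η → φ c η' → η = η') →
    ∃ γ, EM γ κ ∧ ∀ c η, EM c C → EM η κ → φ c η → EM η γ

section Gen

variable {K : Type u} [LinearOrder K] [WellFoundedLT K] {P : Type u} [Preorder P] [OrderTop P]

noncomputable def oK (k : K) : Ordinal.{u} := Ordinal.typein (α := K) (· < ·) k

variable (K) in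
noncomputable def kap : Ordinal.{u} := Ordinal.type (α := K) (· < ·)

noncomputable def nk (k : K) : Nm P := on (oK k)

variable (K) in
noncomputable def kN : Nm P := on (kap K)

theorem oK_lt_kap (k : K) : oK k < kap K := Ordinal.typein_lt_type _ k

theorem oK_lt_oK {a b : K} : oK a < oK b ↔ a < b := Ordinal.typein_lt_typein _

theorem exists_oK {a : Ordinal.{u}} (h : a < kap K) : ∃ k : K, oK k = a :=
  Ordinal.typein_surj _ h

theorem mem_kN {x : Nm P} {p : P} (h : FMem x (kN K) p) :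
    ∀ q, q ≤ p → ∃ r, r ≤ q ∧ ∃ k : K, FEq x (nk k) r := by
  intro q hq
  obtain ⟨r, hr, a, ha, h1⟩ := mem_on h q hq
  obtain ⟨k, rfl⟩ := exists_oK ha
  exact ⟨r, hr, k, h1⟩

theorem mem_nk {x : Nm P} {k : K} {p : P} (h : FMem x (nk k) p) :
    ∀ q, q ≤ p → ∃ r, r ≤ q ∧ ∃ z, z < k ∧ FEq x (nk z) r := by
  intro q hq
  obtain ⟨r, hr, a, ha, h1⟩ := mem_on h q hq
  obtain ⟨z, rfl⟩ := exists_oK (ha.trans (oK_lt_kap k))
  exact ⟨r, hr, z, oK_lt_oK.1 ha, h1⟩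

theorem nk_mem_kN (k : K) (p : P) : FMem (nk k) (kN K) p := on_mem (oK_lt_kap k) p

theorem nk_inj {a b : K} {p : P} (h : FEq (nk a) (nk b) p) : a = b :=
  Ordinal.typein_injective _ (on_inj h)

theorem nk_lt {a b : K} {p : P} (h : FMem (nk a) (nk b) p) : a < b :=
  oK_lt_oK.1 (on_lt h)

theorem nk_mem_nk {a b : K} (h : a < b) (p : P) : FMem (nk a) (nk b) p :=
  on_mem (oK_lt_oK.2 h) p

theorem T_mem_rep {a : Mod P} {x : Nm P} (h : EM a (cls x)) : T (RO.mem (rep a) x) := by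
  rwa [T_mem, cls_rep]

/-- The name of the family `a i` with membership values `R i`. -/
def famNm {I : Type u} (a : I → Nm P) (R : I → RO P) : Nm P :=
  Nm.mk {t : I × P // (R t.1).s t.2} (fun t => a t.1.1) fun t => t.1.2

omit [OrderTop P] in
theorem fmem_famNm {I : Type u} (a : I → Nm P) (R : I → RO P) (z : Nm P) (p : P) :
    FMem z (famNm a R) p ↔ (RO.ex fun i => RO.and (R i) (RO.eq z (a i))).s p := by
  constructor
  · intro h q hq
    obtain ⟨r, hr, ⟨⟨i, t⟩, h1⟩, h2, h3⟩ := h q hq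
    exact ⟨r, hr, i, RO.mono h1 h2, h3⟩
  · intro h q hq
    obtain ⟨r, hr, i, h1, h2⟩ := h q hq
    exact ⟨r, hr, ⟨(i, r), h1⟩, le_rfl, h2⟩

noncomputable def accR (Ψ : Nm P → RO P) (Φ : Nm P → Nm P → RO P) : K → RO P :=
  WellFoundedLT.fix fun k rec =>
    RO.and (Ψ (nk k)) (RO.all fun j : Iio k => RO.imp (rec j.1 j.2) (Φ (nk j.1) (nk k)))

theorem accR_eq (Ψ : Nm P → RO P) (Φ : Nm P → Nm P → RO P) (k : K) : accR Ψ Φ k =
    RO.and (Ψ (nk k)) (RO.all fun j : Iio k => RO.imp (accR Ψ Φ j.1) (Φ (nk j.1) (nk k))) :=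
  WellFoundedLT.fix_eq _ k

theorem greedy_kN (ψ : Mod P → Prop) (φ : Mod P → Mod P → Prop) [Df1 ψ] [Df2 φ] :
    ∃ B, ∀ ζ, EM ζ B ↔ EM ζ (cls (kN K)) ∧ ψ ζ ∧ ∀ ζ', EM ζ' ζ → EM ζ' B → φ ζ' ζ := by
  obtain ⟨Ψ, e1, h1⟩ := Df1.exists ψ
  obtain ⟨Φ, e2, e3, h2⟩ := Df2.exists φ
  let B : Nm P := famNm (nk (K := K)) (accR Ψ Φ)
  have hB : ∀ (k : K) p, FMem (nk k) B p ↔ (accR Ψ Φ k).s p := by
    intro k p
    rw [fmem_famNm]
    refine ⟨fun h => RO.reg fun q hq => ?_, fun h => RO.ex_intro k ⟨h, FEq.refl _ _⟩⟩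
    obtain ⟨r, hr, i, h3, h4⟩ := h q hq
    exact ⟨r, hr, nk_inj h4 ▸ h3⟩
  refine ⟨cls B, ?_⟩
  have : T (RO.all fun ζ => RO.iff (RO.mem ζ B) (RO.and (RO.mem ζ (kN K)) (RO.and (Ψ ζ)
      (RO.all fun ζ' => RO.imp (RO.mem ζ' ζ) (RO.imp (RO.mem ζ' B) (Φ ζ' ζ)))))) := by
    refine T.of_forall fun p ζ => (RO.iff_s _ _ _).2 fun q _ => ⟨fun h => ?_, fun h => ?_⟩
    · refine RO.reg fun r hr => ?_
      obtain ⟨s, hs, k, h3, h4⟩ := (fmem_famNm _ _ _ _).1 h r hr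
      refine ⟨s, hs, Ext.subst (fun ζ => RO.and (RO.mem ζ (kN K)) (RO.and (Ψ ζ)
        (RO.all fun ζ' => RO.imp (RO.mem ζ' ζ) (RO.imp (RO.mem ζ' B) (Φ ζ' ζ))))) (FEq.symm h4) ?_⟩
      rw [accR_eq] at h3
      refine ⟨nk_mem_kN _ _, h3.1, fun ζ' t ht h5 t' ht' h6 => RO.reg fun w hw => ?_⟩
      obtain ⟨w', hw', j, hj, h7⟩ := mem_nk h5 w (hw.trans ht')
      exact ⟨w', hw', Ext.subst (fun a => Φ a (nk k)) h7.symm (h3.2 ⟨j, hj⟩ w'
        (hw'.trans (hw.trans (ht'.trans ht)))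
        ((hB j w').1 ((FMem.mono h6 (hw'.trans hw)).subst_left h7)))⟩
    · refine FMem.reg fun r hr => ?_
      obtain ⟨s, hs, k, h3⟩ := mem_kN h.1 r hr
      have h4 := Ext.subst (fun ζ => RO.and (Ψ ζ)
        (RO.all fun ζ' => RO.imp (RO.mem ζ' ζ) (RO.imp (RO.mem ζ' B) (Φ ζ' ζ)))) h3
        (RO.mono h.2 (hs.trans hr))
      refine ⟨s, hs, FMem.subst_left ((hB k s).2 ?_) h3.symm⟩
      rw [accR_eq]
      exact ⟨h4.1, fun j t ht h5 => h4.2 (nk j.1) t ht (nk_mem_nk j.2 t) t le_rfl ((hB _ _).2 h5)⟩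
  simpa only [T_all, T_iff, T_and, T_imp, T_mem, h1, h2, cls_rep] using this

theorem isLimit_on {o : Ordinal.{u}} (ho : Order.IsSuccLimit o) :
    IsLimit EM (cls (on o : Nm P)) := by
  refine ⟨⟨_, EM_on ho.bot_lt⟩, ?_⟩
  have : T (RO.all fun α => RO.imp (RO.mem α (on o : Nm P)) (RO.ex fun β =>
      RO.and (RO.mem β (on o)) (RO.mem α β))) := by
    refine T.of_forall fun p α q _ hα r hr => ?_
    obtain ⟨t, ht, a, ha, h1⟩ := mem_on hα r hr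
    exact ⟨t, ht, on (Order.succ a), on_mem (ho.succ_lt ha) t,
      (on_mem (Order.lt_succ a) t).subst_left h1.symm⟩
  simpa only [T_all, T_imp, T_ex, T_and, T_mem, cls_rep] using this

theorem T_total {f A B : Mod P} (h : IsFun EM f A B) : T (RO.all fun a =>
    RO.imp (RO.mem a (rep A)) (RO.ex fun b => RO.and (appR (rep f) a b) (RO.mem b (rep B)))) := by
  simp only [T_all, T_imp, T_ex, T_and, T_mem, T_app, cls_rep]
  exact fun a ha => M_zfc.app_total h ha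

theorem T_injective {f A B : Mod P} (h : IsInj EM f A B) : T (RO.all fun x => RO.all fun x' =>
    RO.all fun y => RO.imp (appR (rep f) x y) (RO.imp (appR (rep f) x' y) (RO.eq x x'))) := by
  simp only [T_all, T_imp, T_eq, T_app, cls_rep]
  exact h.2

end Gen

variable {K : Type u} [LinearOrder K] [Ms K] [WellFoundedLT K]

theorem omega_lt_kap : Ordinal.omega0 < kap K := by
  by_contra h
  have := Ordinal.card_le_card (not_lt.1 h)
  rw [kap, Ordinal.card_type, Ordinal.card_omega0] at this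
  exact absurd (Ms.unc (K := K)) (not_lt.2 this)

theorem isSuccLimit_kap : Order.IsSuccLimit (kap K) := by
  refine ⟨(Ordinal.omega0_pos.trans omega_lt_kap).not_isMin, ?_⟩
  rw [Order.isSuccPrelimit_iff_succ_lt]
  intro a ha
  obtain ⟨k, rfl⟩ := exists_oK ha
  obtain ⟨k', hk⟩ := exists_gt_K k
  exact (Order.succ_le_of_lt (oK_lt_oK.2 hk)).trans_lt (oK_lt_kap k')

theorem bdd_kN (φ : Mod (PP2 K) → Mod (PP2 K) → Prop) [Df2 φ] (C : Mod (PP2 K))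
    (hC : Small EM C (cls (kN K))) (hφ : ∀ c η η', EM c C → φ c η → φ c η' → η = η') :
    ∃ γ, EM γ (cls (kN K)) ∧ ∀ c η, EM c C → EM η (cls (kN K)) → φ c η → EM η γ := by
  obtain ⟨Φ, e2, e3, h2⟩ := Df2.exists φ
  obtain ⟨α, hα, f, hf⟩ := hC
  have H1 : T (RO.all fun c => RO.all fun η => RO.all fun η' => RO.imp (RO.mem c (rep C))
      (RO.imp (Φ c η) (RO.imp (Φ c η') (RO.eq η η')))) := by
    simpa only [T_all, T_imp, T_mem, T_eq, h2, cls_rep] using hφ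
  have : T (RO.ex fun γ => RO.and (RO.mem γ (kN K)) (RO.all fun c => RO.all fun η =>
      RO.imp (RO.mem c (rep C)) (RO.imp (RO.mem η (kN K)) (RO.imp (Φ c η) (RO.mem η γ))))) := by
    refine ((T_and _ _).2 ⟨H1, (T_and _ _).2 ⟨T_total hf.1, (T_and _ _).2 ⟨T_injective hf,
      T_mem_rep hα⟩⟩⟩).mono ?_
    rintro p ⟨h3, h4, h5, h6⟩ q hq
    obtain ⟨q₁, hq₁, k, hk⟩ := mem_kN h6 q hq
    have hq₂ := hq₁.trans hq
    obtain ⟨y, hy, γ, h7⟩ := bdd_names (Ms.iio k) (fun (i : Iio k) η => RO.ex fun c =>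
      RO.and (RO.mem c (rep C)) (RO.and (appR (rep f) c (nk i.1)) (Φ c (nk η)))) q₁ (by
        intro i η η' y hy h7 h8
        obtain ⟨y₁, hy₁, c, h9, h10, h11⟩ := h7 y le_rfl
        obtain ⟨y₂, hy₂, c', -, h12, h13⟩ := h8 y₁ hy₁
        have hp : y₂ ≤ p := hy₂.trans (hy₁.trans (hy.trans hq₂))
        have h14 := h5 c' c _ y₂ hp h12 y₂ le_rfl (RO.mono h10 hy₂)
        exact nk_inj (h3 c _ _ y₂ hp (FMem.mono h9 hy₂) y₂ le_rfl (RO.mono h11 hy₂) y₂ le_rfl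
          (Ext.subst (fun c => Φ c (nk η')) h14 h13)))
    refine ⟨y, hy.trans hq₁, nk γ, nk_mem_kN _ _, fun c η w₁ hw₁ h8 w₂ hw₂ h9 w₃ hw₃ h10 =>
      FMem.reg fun w₄ hw₄ => ?_⟩
    obtain ⟨w₅, hw₅, e, he⟩ := mem_kN h9 w₄ (hw₄.trans hw₃)
    have hw : w₅ ≤ w₁ := hw₅.trans (hw₄.trans (hw₃.trans hw₂))
    obtain ⟨w₆, hw₆, b, h11, h12⟩ := h4 c w₁ (hw₁.trans (hy.trans hq₂)) h8 w₅ hw
    obtain ⟨w₇, hw₇, i, hi, h13⟩ := mem_nk (FMem.subst_right h12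
      (hk.mono (hw₆.trans (hw.trans (hw₁.trans hy))))) w₆ le_rfl
    have hw' : w₇ ≤ w₅ := hw₇.trans hw₆
    have h14 := h7 ⟨i, hi⟩ e w₇ (hw'.trans (hw.trans hw₁)) (RO.ex_intro c
      ⟨FMem.mono h8 (hw'.trans hw), Ext.subst (fun b => appR (rep f) c b) h13 (RO.mono h11 hw₇),
        Ext.subst (Φ c) (he.mono hw') (RO.mono h10 (hw'.trans (hw₅.trans hw₄)))⟩)
    exact ⟨w₇, hw'.trans hw₅, (nk_mem_nk h14 w₇).subst_left (he.mono hw').symm⟩
  simpa only [T_all, T_imp, T_ex, T_and, T_mem, h2, cls_rep] using this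

theorem big_kN : Big (cls (kN K : Nm (PP2 K))) :=
  ⟨isOrd_on _, isLimit_on isSuccLimit_kap, fun ψ φ _ _ => greedy_kN ψ φ,
    fun φ _ => bdd_kN φ⟩

theorem small_of_mem {P : Type u} [Preorder P] [OrderTop P] {κ α C : Mod P} (h : EM α κ)
    (hC : Sub EM C α) : Small EM C κ := by
  obtain ⟨f, h1, h2⟩ := fun_ex (fun a b => a = b) C α fun a ha =>
    ⟨a, ⟨hC a ha, rfl⟩, fun b hb => hb.2.symm⟩
  exact ⟨α, h, f, h1, fun a a' b h3 h4 => ((h2 _ _).1 h3).2.2.trans ((h2 _ _).1 h4).2.2.symm⟩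

theorem Big.isCard {P : Type u} [Preorder P] [OrderTop P] {κ : Mod P} (h : Big κ) :
    IsCard EM κ := by
  refine ⟨h.ord, ?_⟩
  rintro α hα ⟨f, h1, h2⟩
  obtain ⟨γ, h3, h4⟩ := h.bdd (fun c η => App EM f c η) α (small_of_mem hα fun _ h => h)
    fun c η η' _ => M_zfc.app_unique h1.1
  obtain ⟨c, hc⟩ := h2 γ h3
  exact M_zfc.not_mem_self γ (h4 c γ (M_zfc.app_mem h1.1 hc).1 h3 hc)

noncomputable def uR (z : Nm (PP2 K)) : RO (PP2 K) := inU fun γ => RO.mem (nk γ) z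

instance : Ext (uR (K := K)) :=
  ⟨fun _ _ _ e h => inU_mono h fun _ _ hy h1 => FMem.subst_right h1 (e.mono hy)⟩

theorem inU_tail {X : K → RO (PP2 K)} {x : PP2 K} (h : (inU X).s x) (k : K) :
    ∃ y, y ≤ x ∧ ∃ α, k < α ∧ (X α).s y := by
  obtain ⟨y, hy, α, h1⟩ := inU_nonempty (inU_all (ι := ULift.{u} Bool) mk_fin_lt
    (X := fun b γ => cond b.down (X γ) (pr (k < γ))) (x := x) (by
      rintro ⟨_ | _⟩
      · exact inU_of_ae (ae_gt k)
      · exact h))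
  exact ⟨y, hy, α, h1 ⟨false⟩, h1 ⟨true⟩⟩

theorem measurable_kN : IsMeasurableIn EM (cls (kN K : Nm (PP2 K))) := by
  refine ⟨big_kN.isCard, ⟨_, EM_on omega_lt_kap, isLimit_on Ordinal.isSuccLimit_omega0⟩, ?_⟩
  obtain ⟨W, hW⟩ := M_power (cls (kN K : Nm (PP2 K)))
  obtain ⟨U, hU⟩ := M_sep uR W
  simp only [hW] at hU
  refine ⟨U, fun A hA => ((hU A).1 hA).1, (hU _).2 ⟨fun _ h => h, T_subst uR (cls_rep _).symm
    (T.of_forall fun p => inU_of_ae (Eventually.of_forall fun α => nk_mem_kN α p))⟩,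
    fun A hA => ?_, fun A B hA h1 h2 => (hU B).2 ⟨h2, ?_⟩, fun A B h1 h2 => ?_,
    fun A ξ hA h1 => ?_, fun F C h1 h2 h3 => (hU C).2 ⟨fun z hz => ((h3 z).1 hz).1, ?_⟩⟩
  · have : T (RO.ex fun z => RO.mem z (rep A)) := ((hU A).1 hA).2.mono fun p hp q hq =>
      let ⟨y, hy, α, h⟩ := inU_nonempty (RO.mono hp hq); ⟨y, hy, _, h⟩
    simpa only [T_ex, T_mem, cls_rep] using this
  · have H : T (RO.all fun z => RO.imp (RO.mem z (rep A)) (RO.mem z (rep B))) := by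
      simpa only [T_all, T_imp, T_mem, cls_rep, Sub] using h1
    exact ((hU A).1 hA).2.mono₂ H fun p h3 h4 => inU_mono h3 fun γ y hy h5 => h4 _ y hy h5
  · have H : T (RO.all fun z => RO.iff (RO.mem z (rep B))
        (RO.and (RO.mem z (kN K)) (RO.not (RO.mem z (rep A))))) := by
      simpa only [T_all, T_iff, T_and, T_not, T_mem, cls_rep] using h2
    have : T (RO.or (uR (rep A)) (uR (rep B))) := H.mono fun p hp q hq => by
      obtain ⟨y, hy, h3 | h3⟩ := inU_em (fun γ => RO.mem (nk γ) (rep A)) q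
      · exact ⟨y, hy, Or.inl h3⟩
      · exact ⟨y, hy, Or.inr (inU_mono h3 fun γ w hw h4 =>
          (hp _).2 w (hw.trans (hy.trans hq)) ⟨nk_mem_kN _ _, h4⟩)⟩
    exact ((T_or _ _).1 this).imp (fun h => (hU A).2 ⟨h1, h⟩)
      fun h => (hU B).2 ⟨fun z hz => ((h2 z).1 hz).1, h⟩
  · have H : T (RO.all fun z => RO.imp (RO.mem z (rep A)) (RO.eq z (rep ξ))) := by
      simpa only [T_all, T_imp, T_eq, T_mem, cls_rep] using fun z => (h1 z).1
    obtain ⟨p, h2, h3⟩ := ((T_and _ _).2 ⟨((hU A).1 hA).2, H⟩).nonempty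
    obtain ⟨y, hy, α, h4⟩ := inU_nonempty h2
    obtain ⟨z, hz, β, h5, h6⟩ := inU_tail (RO.mono h2 hy) α
    exact h5.ne (nk_inj ((FEq.mono (h3 _ y hy h4) hz).trans (FEq.symm (h3 _ z (hz.trans hy) h6))))
  · obtain ⟨α, hα, f, hf⟩ := h2
    have H1 : T (RO.all fun A => RO.imp (RO.mem A (rep F)) (uR A)) := by
      rw [T_all]
      intro A
      rw [T_imp, T_mem, cls_rep, cls_rep]
      exact fun h => ((hU A).1 (h1 A h)).2
    have H2 : T (RO.all fun z => RO.imp (RO.and (RO.mem z (kN K)) (RO.all fun A =>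
        RO.imp (RO.mem A (rep F)) (RO.mem z A))) (RO.mem z (rep C))) := by
      simpa only [T_all, T_imp, T_and, T_mem, cls_rep] using fun z => (h3 z).2
    refine ((T_and _ _).2 ⟨H1, (T_and _ _).2 ⟨H2, (T_and _ _).2 ⟨T_total hf.1, (T_and _ _).2
      ⟨T_injective hf, T_mem_rep hα⟩⟩⟩⟩).mono ?_
    rintro p ⟨h4, h5, h6, h7, h8⟩
    refine RO.reg fun q hq => ?_
    obtain ⟨r, hr, k, hk⟩ := mem_kN h8 q hq
    have hrp := hr.trans hq
    refine ⟨r, hr, inU_mono (inU_all (Ms.iio k) (x := r) (X := fun (i : Iio k) γ => RO.all fun A =>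
      RO.imp (RO.and (RO.mem A (rep F)) (appR (rep f) A (nk i.1))) (RO.mem (nk γ) A))
      fun i => RO.reg fun y hy => ?_) fun γ y hy h9 => h5 _ y (hy.trans hrp) ⟨nk_mem_kN _ _,
        fun A w hw hA => FMem.reg fun w₁ hw₁ => ?_⟩⟩
    · by_cases h : ∃ z, z ≤ y ∧ ∃ A, FMem A (rep F) z ∧ (appR (rep f) A (nk i.1)).s z
      · obtain ⟨z, hz, A, h9, h10⟩ := h
        have hzp := hz.trans (hy.trans hrp)
        exact ⟨z, hz, inU_mono (h4 A z hzp h9) fun γ w hw h11 A' w' hw' h12 =>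
          FMem.subst_right (FMem.mono h11 hw') (h7 _ _ _ w' (hw'.trans (hw.trans hzp))
            (RO.mono h10 (hw'.trans hw)) w' le_rfl h12.2)⟩
      · exact ⟨y, le_rfl, inU_of_ae (Eventually.of_forall fun γ A w hw h9 =>
          absurd ⟨w, hw, A, h9⟩ h)⟩
    · obtain ⟨w₂, hw₂, b, h10, h11⟩ := h6 A w (hw.trans (hy.trans hrp)) hA w₁ hw₁
      have hw' : w₂ ≤ y := hw₂.trans (hw₁.trans hw)
      obtain ⟨w₃, hw₃, i, hi, h12⟩ := mem_nk (FMem.subst_right h11 (hk.mono (hw'.trans hy)))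
        w₂ le_rfl
      exact ⟨w₃, hw₃.trans hw₂, h9 ⟨i, hi⟩ A w₃ (hw₃.trans hw')
        ⟨FMem.mono hA (hw₃.trans (hw₂.trans hw₁)),
          Ext.subst (fun b => appR (rep f) A b) h12 (RO.mono h10 hw₃)⟩⟩

end Pool.Agent.Lib.MP_c8ac39_lc
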