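import Pool.Agent.Lib.MP_2739cb_lc.Measure

/-! A normal measure on a well order `K`, ranked types, a partition property and a stationary
set of measure zero. -/

namespace Pool.Agent.Lib.MP_c8ac39_lc

open Cardinal Filter Set
open Pool.Agent.Lib.MP_2739cb_lc (mk_iUnion_le_of_le chain_lemma)

universe u v

class Ms (K : Type u) [LinearOrder K] where
  U : Ultrafilter K
  unc : ℵ₀ < #K
  iio : ∀ k : K, #(Iio k) < #K
  complete : ∀ S : Set (Set K), #S < #K → (∀ A ∈ S, A ∈ U) → ⋂₀ S ∈ U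
  tail : ∀ k : K, {x | k < x} ∈ U
  normal : ∀ g : K → K, {x | g x < x} ∈ U → ∃ k, {x | g x = k} ∈ U

variable {K : Type u} [LinearOrder K] [Ms K]

abbrev UF (K : Type u) [LinearOrder K] [Ms K] : Filter K := (Ms.U : Ultrafilter K)

instance : CardinalInterFilter (UF K) #K := ⟨Ms.complete⟩

theorem aleph0_le_K : ℵ₀ ≤ #K := (Ms.unc (K := K)).le

instance : Infinite K := Cardinal.infinite_iff.2 aleph0_le_K

theorem ae_forall {ι : Type u} (h : #ι < #K) {p : ι → K → Prop}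
    (hp : ∀ i, ∀ᶠ x in UF K, p i x) : ∀ᶠ x in UF K, ∀ i, p i x :=
  (eventually_cardinal_forall h).2 hp

theorem ae_ball {ι : Type u} {S : Set ι} (h : #S < #K) {p : ι → K → Prop}
    (hp : ∀ i ∈ S, ∀ᶠ x in UF K, p i x) : ∀ᶠ x in UF K, ∀ i ∈ S, p i x :=
  (eventually_cardinal_ball h).2 hp

theorem ae_not {p : K → Prop} (h : ¬ ∀ᶠ x in UF K, p x) : ∀ᶠ x in UF K, ¬ p x :=
  Ultrafilter.eventually_not.2 h

theorem ae_imp {p : K → Prop} {q : Prop} (h : q → ∀ᶠ x in UF K, p x) :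
    ∀ᶠ x in UF K, q → p x := by
  by_cases hq : q
  · exact (h hq).mono fun x hx _ => hx
  · exact Eventually.of_forall fun x h => absurd h hq

theorem ae_const {ι : Type u} (f : K → ι) {S : Set ι} (hS : #S < #K)
    (hf : ∀ᶠ x in UF K, f x ∈ S) : ∃ a ∈ S, ∀ᶠ x in UF K, f x = a := by
  by_contra hc
  have h1 : ∀ᶠ x in UF K, ∀ a ∈ S, ¬ f x = a := ae_ball hS fun a ha => ae_not
    fun h => hc ⟨a, ha, h⟩
  obtain ⟨x, hx1, hx2⟩ := (hf.and h1).exists
  exact hx2 _ hx1 rfl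

theorem ae_gt (k : K) : ∀ᶠ x in UF K, k < x := Ms.tail k

theorem regress {g : K → K} (h : ∀ᶠ x in UF K, g x < x) : ∃ k, ∀ᶠ x in UF K, g x = k :=
  Ms.normal g h

theorem diagK {Q : K → K → Prop} (h : ∀ k, ∀ᶠ x in UF K, Q k x) :
    ∀ᶠ x in UF K, ∀ k, k < x → Q k x := by
  classical
  by_contra hc
  have h1 := ae_not hc
  let f : K → K := fun x => if h : ∃ k, k < x ∧ ¬ Q k x then h.choose else x
  have h2 : ∀ᶠ x in UF K, f x < x ∧ ¬ Q (f x) x := by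
    refine h1.mono fun x hx => ?_
    push Not at hx
    have : ∃ k, k < x ∧ ¬ Q k x := hx
    simp only [f, dif_pos this]
    exact this.choose_spec
  obtain ⟨a, ha⟩ := regress (h2.mono fun x hx => hx.1)
  obtain ⟨x, ⟨-, hx1⟩, hx2, hx3⟩ := (h2.and (ha.and (h a))).exists
  exact hx1 (hx2 ▸ hx3)

theorem mk_Iic_lt (k : K) : #(Iic k) < #K := by
  rw [← Iio_insert]
  exact mk_insert_le.trans_lt (add_lt_of_lt aleph0_le_K (Ms.iio k) (one_lt_aleph0.trans Ms.unc))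

theorem bounded {S : Set K} (hS : #S < #K) : ∃ k, ∀ z ∈ S, z < k :=
  (ae_ball hS fun z _ => ae_gt z).exists

theorem bounded_fam {ι : Type u} (f : ι → K) (h : #ι < #K) : ∃ k, ∀ i, f i < k :=
  let ⟨k, hk⟩ := bounded (mk_range_le.trans_lt h : #(range f) < #K); ⟨k, fun i => hk _ ⟨i, rfl⟩⟩

theorem exists_le_mk_Iio {c : Cardinal.{u}} (hc : c < #K) : ∃ k : K, c ≤ #(Iio k) := by
  obtain ⟨S, hS⟩ := le_mk_iff_exists_set.1 hc.le
  obtain ⟨k, hk⟩ := bounded (hS.trans_lt hc)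
  exact ⟨k, hS ▸ mk_le_mk_of_subset hk⟩

theorem mk_iUnion_lt_K {α ι : Type u} (f : ι → Set α) (h : #ι < #K) (hf : ∀ i, #(f i) < #K) :
    #(⋃ i, f i) < #K := by
  choose g hg using fun i => exists_le_mk_Iio (hf i)
  obtain ⟨k, hk⟩ := bounded_fam g h
  exact (mk_iUnion_le f).trans_lt ((mul_le_mul' le_rfl (ciSup_le' fun i =>
    (hg i).trans (mk_le_mk_of_subset (Iio_subset_Iio (hk i).le)))).trans_lt
      (mul_lt_of_lt aleph0_le_K h (Ms.iio k)))

theorem two_pow_lt {c : Cardinal.{u}} (hc : c < #K) : 2 ^ c < #K := by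
  by_contra hcon
  have h1 : #K ≤ #(Set c.out) := by rw [mk_set, mk_out]; exact not_lt.1 hcon
  obtain ⟨e⟩ := h1
  have h2 : ∀ᶠ x in UF K, ∀ i : c.out, (i ∈ e x ↔ ∀ᶠ y in UF K, i ∈ e y) := by
    apply ae_forall (by rwa [mk_out])
    intro i
    by_cases h : ∀ᶠ y in UF K, i ∈ e y
    · exact h.mono fun x hx => ⟨fun _ => h, fun _ => hx⟩
    · exact (ae_not h).mono fun x hx => ⟨fun h' => absurd h' hx, fun h' => absurd h' h⟩
  obtain ⟨x₀, h₀⟩ := h2.exists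
  obtain ⟨x, hx1, hx2⟩ := (h2.and (ae_gt x₀)).exists
  have : e x = e x₀ := by
    ext i; rw [hx1 i, h₀ i]
  exact hx2.ne' (e.injective this)

theorem succ_lt_K {c : Cardinal.{u}} (hc : c < #K) : Order.succ c < #K :=
  (Order.succ_le_of_lt (cantor c)).trans_lt (two_pow_lt hc)

theorem mk_powerset_lt {α : Type u} {S : Set α} (h : #S < #K) : #(𝒫 S) < #K := by
  rw [mk_powerset]; exact two_pow_lt h

theorem exists_gt_K (k : K) : ∃ k', k < k' := (ae_gt k).exists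

theorem mk_fin_lt {α : Type u} [Finite α] : #α < #K := (lt_aleph0_of_finite α).trans Ms.unc

variable [WellFoundedLT K]

variable (K) in
noncomputable def kz : K := wellFounded_lt.min (univ : Set K) univ_nonempty

theorem kz_le (k : K) : kz K ≤ k := not_lt.1 (wellFounded_lt.not_lt_min univ (mem_univ k))

/-! ### Ranked types -/

class Rk (K : Type u) [LinearOrder K] (ι : Type u) where
  rk : ι → K
  small : ∀ β : K, #{t | rk t ≤ β} < #K

export Rk (rk)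

instance rkK : Rk K K := ⟨id, mk_Iic_lt⟩

instance rkProd {α β : Type u} [Rk K α] [Rk K β] : Rk K (α × β) where
  rk t := max (rk t.1) (rk t.2)
  small b := by
    have : {t : α × β | max (rk t.1) (rk t.2) ≤ b} = {t | rk t ≤ b} ×ˢ {t | rk t ≤ b} := by
      ext t; simp
    rw [this, mk_setProd]
    exact mul_lt_of_lt aleph0_le_K (Rk.small b) (Rk.small b)

noncomputable instance rkULift {α : Type} [Finite α] : Rk K (ULift.{u} α) :=
  ⟨fun _ => kz K, fun _ => mk_fin_lt⟩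

omit [WellFoundedLT K] in
@[simp] theorem rk_K (k : K) : (rk k : K) = k := rfl

omit [WellFoundedLT K] in
@[simp] theorem rk_prod {α β : Type u} [Rk K α] [Rk K β] (t : α × β) :
    (rk t : K) = max (rk t.1) (rk t.2) := rfl

@[simp] theorem rk_ulift {α : Type} [Finite α] (t : ULift.{u} α) : (rk t : K) = kz K := rfl

/-- Small subsets. -/
abbrev Sm (K ι : Type u) := {S : Set ι // #S < #K}

omit [WellFoundedLT K] in
theorem exists_rk_bound {ι : Type u} [Rk K ι] (S : Sm K ι) :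
    {β : K | ∀ t ∈ S.1, rk t ≤ β}.Nonempty := by
  obtain ⟨k, hk⟩ := bounded (mk_image_le.trans_lt S.2 : #((rk : ι → K) '' S.1) < #K)
  exact ⟨k, fun t ht => (hk _ ⟨t, ht, rfl⟩).le⟩

noncomputable def rkS {ι : Type u} [Rk K ι] (S : Sm K ι) : K :=
  wellFounded_lt.min _ (exists_rk_bound S)

theorem rkS_le {ι : Type u} [Rk K ι] (S : Sm K ι) (β : K) : rkS S ≤ β ↔ ∀ t ∈ S.1, rk t ≤ β :=
  ⟨fun h t ht => (wellFounded_lt.min_mem _ (exists_rk_bound S) t ht).trans h,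
    fun h => not_lt.1 (wellFounded_lt.not_lt_min {β : K | ∀ t ∈ S.1, rk t ≤ β} h)⟩

noncomputable instance rkSm {ι : Type u} [Rk K ι] : Rk K (Sm K ι) where
  rk := rkS
  small b := by
    refine lt_of_le_of_lt ?_ (mk_powerset_lt (Rk.small (ι := ι) b))
    refine mk_le_of_injective (f := fun S : {S : Sm K ι | rkS S ≤ b} =>
      (⟨S.1.1, (rkS_le _ _).1 S.2⟩ : 𝒫 {t : ι | rk t ≤ b})) fun S S' h => ?_
    exact Subtype.ext (Subtype.ext (Subtype.mk.inj h))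

theorem rk_Sm_le {ι : Type u} [Rk K ι] (S : Sm K ι) (β : K) :
    rk S ≤ β ↔ ∀ t ∈ S.1, rk t ≤ β := rkS_le S β

/-- Pulling back a rank along an injection. -/
@[reducible] def Rk.pull {α β : Type u} [Rk K β] (f : α → β) (hf : Function.Injective f) :
    Rk K α where
  rk a := rk (f a)
  small b := (mk_preimage_of_injective f {t | rk t ≤ b} hf).trans_lt (Rk.small b)

noncomputable instance rkPi {d : ℕ} : Rk K (Fin d → K) :=
  Rk.pull (fun f => (⟨range fun j => (ULift.up j, f j), (finite_range _).lt_aleph0.trans Ms.unc⟩ :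
    Sm K (ULift.{u} (Fin d) × K))) (by
      intro f g h
      funext j
      have : (ULift.up j, f j) ∈ range fun j => (ULift.up.{u} j, g j) := by
        rw [← Subtype.mk.inj h]; exact ⟨j, rfl⟩
      obtain ⟨j', hj⟩ := this
      obtain ⟨h1, h2⟩ := Prod.mk.inj hj
      rw [← h2, ULift.up_inj.1 h1])

theorem rk_pi_le {d : ℕ} (f : Fin d → K) (β : K) : rk f ≤ β ↔ ∀ j, f j ≤ β := by
  refine (rk_Sm_le _ β).trans ⟨fun h j => ?_, ?_⟩
  · exact (le_max_right _ _).trans (h (ULift.up j, f j) ⟨j, rfl⟩)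
  · rintro h _ ⟨j, rfl⟩
    exact max_le (kz_le β) (h j)

omit [WellFoundedLT K] in
theorem mk_le_K (ι : Type u) [Rk K ι] : #ι ≤ #K := by
  have : (univ : Set ι) ⊆ ⋃ β : K, {t | rk t ≤ β} := fun t _ => mem_iUnion.2 ⟨rk t, le_rfl⟩
  rw [← mk_univ]
  exact (mk_le_mk_of_subset this).trans
    (mk_iUnion_le_of_le _ aleph0_le_K le_rfl fun β => (Rk.small β).le)

omit [WellFoundedLT K] in
theorem diagR {ι : Type u} [Rk K ι] {Q : ι → K → Prop} (h : ∀ t, ∀ᶠ x in UF K, Q t x) :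
    ∀ᶠ x in UF K, ∀ t, rk t < x → Q t x :=
  (diagK (Q := fun β x => ∀ t ∈ {t : ι | rk t ≤ β}, Q t x)
    fun β => ae_ball (Rk.small β) fun t _ => h t).mono fun _ hx t ht => hx _ ht t le_rfl

omit [WellFoundedLT K] in
theorem regressR {ι : Type u} [Rk K ι] {g : K → ι} (h : ∀ᶠ x in UF K, rk (g x) < x) :
    ∃ t, ∀ᶠ x in UF K, g x = t := by
  obtain ⟨β, hβ⟩ := regress h
  obtain ⟨t, -, ht⟩ := ae_const g (Rk.small β) (hβ.mono fun x hx => hx.le)
  exact ⟨t, ht⟩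

/-! ### The partition property -/

omit [WellFoundedLT K] in
theorem ramsey {C : Type u} (hC : #C < #K) : ∀ (n : ℕ) (F : (Fin n → K) → C),
    ∃ H : Set K, (∀ᶠ x in UF K, x ∈ H) ∧ ∃ c, ∀ e, StrictMono e → (∀ i, e i ∈ H) → F e = c
  | 0, F => ⟨univ, Eventually.of_forall mem_univ, F Fin.elim0, fun e _ _ =>
      congrArg F (funext fun i => i.elim0)⟩
  | n + 1, F => by
    choose H h1 c h2 using fun a => ramsey hC n fun e => F (Fin.cons a e)
    obtain ⟨c₀, -, h3⟩ := ae_const c (S := univ) (by rwa [mk_univ]) (Eventually.of_forall mem_univ)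
    refine ⟨{x | c x = c₀ ∧ ∀ a, a < x → x ∈ H a}, h3.and (diagK h1), c₀, fun e he hH => ?_⟩
    rw [← Fin.cons_self_tail e, ← (hH 0).1]
    exact h2 _ _ (fun i j hij => he (Fin.succ_lt_succ_iff.2 hij))
      fun i => (hH i.succ).2 _ (he (Fin.succ_pos i))

omit [WellFoundedLT K] in
theorem ramsey' {C : Type u} (hC : #C < #K) {I : Type} [Fintype I] [LinearOrder I]
    (F : (I → K) → C) :
    ∃ H : Set K, (∀ᶠ x in UF K, x ∈ H) ∧ ∃ c, ∀ e, StrictMono e → (∀ i, e i ∈ H) → F e = c := by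
  let φ := monoEquivOfFin I rfl
  obtain ⟨H, h1, c, h2⟩ := ramsey hC _ fun e => F (e ∘ φ.symm)
  refine ⟨H, h1, c, fun e he hH => ?_⟩
  rw [← h2 (e ∘ φ) (he.comp φ.strictMono) fun i => hH _]
  congr 1
  funext i
  simp

omit [WellFoundedLT K] in
theorem exists_strictMono {J : Type u} [LinearOrder J] [WellFoundedLT J] (hJ : #J < #K)
    {H : Set K} (hH : ∀ᶠ x in UF K, x ∈ H) : ∃ h : J → K, StrictMono h ∧ ∀ j, h j ∈ H := by
  classical
  have hne : ∀ (j : J) (g : Iio j → K), ∃ x ∈ H, ∀ i, g i < x := fun j g =>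
    (hH.and (ae_forall ((mk_set_le _).trans_lt hJ) fun i => ae_gt (g i))).exists
  let F : ∀ j : J, (∀ j', j' < j → K) → K := fun j rec => (hne j fun j' => rec j'.1 j'.2).choose
  let h : J → K := WellFoundedLT.fix F
  have hh : ∀ j, h j ∈ H ∧ ∀ i : Iio j, h i.1 < h j := by
    intro j
    have : h j = F j fun j' _ => h j' := WellFoundedLT.fix_eq F j
    rw [this]
    exact (hne j fun j' => h j'.1).choose_spec
  exact ⟨h, fun a b hab => (hh b).2 ⟨a, hab⟩, fun j => (hh j).1⟩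

def Hom {X : Type u} {d : ℕ} (F : (Fin d → K) → (Fin d → K) → Set X) (ζ : K)
    (h : Fin d → K → K) : Prop :=
  (∀ j j' a a', a < ζ → a' < ζ → h j a = h j' a' → j = j' ∧ a = a') ∧
    ∃ c, ∀ a b : Fin d → K, (∀ j, a j < b j ∧ b j < ζ) →
      F (fun j => h j (a j)) (fun j => h j (b j)) = c

def PP (X : Type u) [Rk K X] (d : ℕ) (ζ Λ : K) : Prop :=
  ∀ F : (Fin d → K) → (Fin d → K) → Set X, (∀ a b, ∀ x ∈ F a b, rk x ≤ ζ) →
    ∃ h, Hom F ζ h ∧ ∀ j a, a < ζ → h j a < Λ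

theorem exists_hom {X : Type u} [Rk K X] {d : ℕ} (ζ : K)
    (F : (Fin d → K) → (Fin d → K) → Set X) (hF : ∀ a b, ∀ x ∈ F a b, rk x ≤ ζ) :
    ∃ h, Hom F ζ h := by
  classical
  obtain ⟨H, h1, c, h2⟩ := ramsey' (mk_powerset_lt (Rk.small (ι := X) ζ)) (I := Fin d ×ₗ Bool)
    fun e => (⟨F (fun j => e (toLex (j, false))) (fun j => e (toLex (j, true))), hF _ _⟩ :
      𝒫 {x : X | rk x ≤ ζ})
  obtain ⟨h, h3, h4⟩ := exists_strictMono (J := ULift.{u} (Fin d) ×ₗ Iio ζ)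
    (by
      change #(ULift.{u} (Fin d) × Iio ζ) < #K
      rw [mk_prod, lift_id, lift_id]
      exact mul_lt_of_lt aleph0_le_K mk_fin_lt (Ms.iio ζ)) h1
  refine ⟨fun j a => if ha : a < ζ then h (toLex (ULift.up j, ⟨a, ha⟩)) else a, ?_, c.1, ?_⟩
  · intro j j' a a' ha ha' he
    simp only [dif_pos ha, dif_pos ha'] at he
    obtain ⟨h5, h6⟩ := Prod.mk.inj (toLex.injective (h3.injective he))
    exact ⟨ULift.up_inj.1 h5, Subtype.mk.inj h6⟩
  · intro a b hab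
    let e : Fin d ×ₗ Bool → K := fun t =>
      h (toLex (ULift.up (ofLex t).1, if (ofLex t).2 then ⟨b (ofLex t).1, (hab _).2⟩
        else ⟨a (ofLex t).1, (hab _).1.trans (hab _).2⟩))
    have he : StrictMono e := by
      intro s t hst
      apply h3
      rw [Prod.Lex.lt_iff] at hst ⊢
      rcases hst with h5 | ⟨h5, h6⟩
      · exact Or.inl h5
      · refine Or.inr ⟨congrArg ULift.up h5, ?_⟩
        obtain ⟨h7, h8⟩ := Bool.lt_iff.1 h6
        simp only [ofLex_toLex, h7, h8, h5]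
        exact (hab _).1
    have := congrArg Subtype.val (h2 e he fun i => h4 _)
    simp only [e, ofLex_toLex] at this
    rw [← this]
    congr 1
    · funext j; simp [(hab j).1.trans (hab j).2]
    · funext j; simp [(hab j).2]

theorem exists_PP (X : Type u) [Rk K X] (d : ℕ) (ζ : K) : ∀ᶠ Λ in UF K, PP X d ζ Λ := by
  classical
  by_contra hc
  have h1 := ae_not hc
  have h2 : ∀ Λ : K, ∃ F : (Fin d → K) → (Fin d → K) → Set X, (∀ a b, ∀ x ∈ F a b, rk x ≤ ζ) ∧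
      (¬ PP X d ζ Λ → ¬ ∃ h, Hom F ζ h ∧ ∀ j a, a < ζ → h j a < Λ) := by
    intro Λ
    by_cases h : PP X d ζ Λ
    · exact ⟨fun _ _ => ∅, fun _ _ _ h => h.elim, fun h' => absurd h h'⟩
    · unfold PP at h
      push Not at h
      obtain ⟨F, h3, h4⟩ := h
      exact ⟨F, h3, fun _ ⟨g, h5, h6⟩ => by
        obtain ⟨j, a, h7, h8⟩ := h4 g h5
        exact absurd (h6 j a h7) (not_lt.2 h8)⟩
  choose F h3 h4 using h2
  have h5 : ∀ a b, ∃ c : Set X, (∀ x ∈ c, rk x ≤ ζ) ∧ ∀ᶠ Λ in UF K, F Λ a b = c := fun a b =>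
    ae_const (fun Λ => F Λ a b) (mk_powerset_lt (Rk.small (ι := X) ζ))
      (Eventually.of_forall fun Λ => h3 Λ a b)
  choose G h6 h7 using h5
  obtain ⟨h, h8, c, h9⟩ := exists_hom ζ G h6
  obtain ⟨β, hβ⟩ := bounded_fam (fun t : ULift.{u} (Fin d) × Iio ζ => h t.1.down t.2)
    (by rw [mk_prod, lift_id, lift_id]; exact mul_lt_of_lt aleph0_le_K mk_fin_lt (Ms.iio ζ))
  obtain ⟨Λ, h10, h11, h12⟩ := (h1.and ((ae_gt β).and (diagR
    (Q := fun (t : (Fin d → K) × (Fin d → K)) Λ => F Λ t.1 t.2 = G t.1 t.2)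
      fun t => h7 t.1 t.2))).exists
  refine h4 Λ h10 ⟨h, ⟨h8, c, fun a b hab => ?_⟩,
    fun j a ha => (hβ (ULift.up j, ⟨a, ha⟩)).trans h11⟩
  rw [← h9 a b hab]
  refine h12 (_, _) (lt_of_le_of_lt (max_le ?_ ?_) h11)
  · exact (rk_pi_le _ _).2 fun j => (hβ (ULift.up j, ⟨a j, (hab j).1.trans (hab j).2⟩)).le
  · exact (rk_pi_le _ _).2 fun j => (hβ (ULift.up j, ⟨b j, (hab j).2⟩)).le

abbrev Tag (d : ℕ) := ((Fin d → Bool) × (Fin d → Bool)) ⊕ (Fin d ⊕ Fin 3)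

abbrev XT (K : Type u) (d : ℕ) := ULift.{u} (Tag d) × K × K × K × K

theorem exists_Lam (ζ : K) : ∃ Λ, ∀ d, PP (XT K d) d ζ Λ := by
  have := ae_forall (K := K) (ι := ULift.{u} ℕ) (by simpa using Ms.unc)
    (p := fun d Λ => PP (XT K d.down) d.down ζ Λ) fun d => exists_PP _ _ ζ
  obtain ⟨Λ, h⟩ := this.exists
  exact ⟨Λ, fun d => h ⟨d⟩⟩

noncomputable def Lam (ζ : K) : K := (exists_Lam ζ).choose

theorem PP_Lam (ζ : K) (d : ℕ) : PP (XT K d) d ζ (Lam ζ) := (exists_Lam ζ).choose_spec d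

/-! ### Good points and the stationary set -/

structure Good (ζ : K) : Prop where
  unc : ℵ₀ < #(Iio ζ)
  init : ∀ β, β < ζ → #(Iio β) < #(Iio ζ)
  reg : ∀ S : Set K, S ⊆ Iio ζ → #S < #(Iio ζ) → ∃ β, β < ζ ∧ ∀ z ∈ S, z < β
  lam : ∀ β, β < ζ → Lam β < ζ

omit [Ms K] in
theorem exists_le_mk_Iio_of_lt {c : Cardinal.{u}} {ζ : K} (h : c < #(Iio ζ)) :
    ∃ β, β < ζ ∧ c ≤ #(Iio β) := by
  have h1 : c.ord < Ordinal.typein (α := K) (· < ·) ζ := by
    by_contra hc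
    have := Ordinal.card_le_card (not_lt.1 hc)
    rw [card_ord] at this
    exact absurd h (not_lt.2 this)
  obtain ⟨β, hβ⟩ := Ordinal.typein_surj (α := K) (· < ·) (h1.trans (Ordinal.typein_lt_type _ ζ))
  refine ⟨β, (Ordinal.typein_lt_typein (α := K) (· < ·)).1 (hβ ▸ h1), ?_⟩
  have : (Ordinal.typein (α := K) (· < ·) β).card = c := by rw [hβ, card_ord]
  exact this.ge

theorem ae_good : ∀ᶠ ζ in UF K, Good ζ := by
  classical
  have h1 : ∀ᶠ ζ in UF K, ℵ₀ < #(Iio ζ) := by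
    obtain ⟨k, hk⟩ := exists_le_mk_Iio (succ_lt_K (Ms.unc (K := K)))
    exact (ae_gt k).mono fun x hx => (Order.lt_succ _).trans_le
      (hk.trans (mk_le_mk_of_subset (Iio_subset_Iio hx.le)))
  have h2 : ∀ᶠ ζ in UF K, ∀ β, β < ζ → #(Iio β) < #(Iio ζ) := diagK fun β => by
    obtain ⟨k, hk⟩ := exists_le_mk_Iio (succ_lt_K (Ms.iio β))
    exact (ae_gt k).mono fun x hx => (Order.lt_succ _).trans_le
      (hk.trans (mk_le_mk_of_subset (Iio_subset_Iio hx.le)))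
  have h3 : ∀ᶠ ζ in UF K, ∀ S : Set K, S ⊆ Iio ζ → #S < #(Iio ζ) →
      ∃ β, β < ζ ∧ ∀ z ∈ S, z < β := by
    by_contra hc
    have h4 : ∀ ζ : K, ∃ β : K, ∃ e : K → K, (¬ ∀ S : Set K, S ⊆ Iio ζ → #S < #(Iio ζ) →
        ∃ β, β < ζ ∧ ∀ z ∈ S, z < β) → β < ζ ∧ (∀ ξ, kz K < ζ → e ξ < ζ) ∧
          ∀ γ, γ < ζ → ∃ ξ, ξ < β ∧ γ ≤ e ξ := by
      intro ζ
      by_cases h : ∀ S : Set K, S ⊆ Iio ζ → #S < #(Iio ζ) → ∃ β, β < ζ ∧ ∀ z ∈ S, z < β
      · exact ⟨ζ, id, fun h' => absurd h h'⟩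
      · push Not at h
        obtain ⟨S, h5, h6, h7⟩ := h
        obtain ⟨β, h8, ⟨f⟩⟩ := exists_le_mk_Iio_of_lt h6
        refine ⟨β, fun ξ => if h : ∃ s, (f s).1 = ξ then h.choose.1 else kz K, fun _ =>
          ⟨h8, fun ξ h9 => ?_, fun γ hγ => ?_⟩⟩
        · beta_reduce
          split_ifs with h
          · exact h5 h.choose.2
          · exact h9
        · obtain ⟨z, hz, h9⟩ := h7 γ hγ
          have : ∃ s, (f s).1 = (f ⟨z, hz⟩).1 := ⟨_, rfl⟩
          refine ⟨f ⟨z, hz⟩, (f _).2, ?_⟩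
          simp only [dif_pos this]
          rw [f.injective (Subtype.ext this.choose_spec)]
          exact h9
    choose β e h5 using h4
    have h6 := (ae_not hc).mono h5
    obtain ⟨β₀, h7⟩ := regress (h6.mono fun _ h => h.1)
    choose g hg using fun ξ : K => regress (g := fun ζ => e ζ ξ)
      ((h6.and (ae_gt (kz K))).mono fun _ h => h.1.2.1 ξ h.2)
    obtain ⟨γ, hγ⟩ := bounded_fam (fun ξ : Iio β₀ => g ξ) (Ms.iio β₀)
    obtain ⟨ζ, h8, h9, h10, h11⟩ := (h6.and (h7.and ((ae_gt γ).and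
      (ae_ball (Ms.iio β₀) fun ξ _ => hg ξ)))).exists
    obtain ⟨ξ, h12, h13⟩ := h8.2.2 γ h10
    rw [h9] at h12
    rw [h11 ξ h12] at h13
    exact absurd (hγ ⟨ξ, h12⟩) (not_lt.2 h13)
  filter_upwards [h1, h2, h3, diagK fun β => ae_gt (Lam β)] with ζ h1 h2 h3 h4
  exact ⟨h1, h2, h3, h4⟩

namespace Good

variable {ζ : K} (h : Good ζ)
include h

theorem exists_gt {β : K} (hβ : β < ζ) : ∃ β', β' < ζ ∧ β < β' := by
  obtain ⟨β', h1, h2⟩ := h.reg {β} (singleton_subset_iff.2 hβ)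
    (by rw [mk_singleton]; exact one_lt_aleph0.trans h.unc)
  exact ⟨β', h1, h2 β rfl⟩

theorem kz_lt : kz K < ζ := by
  obtain ⟨⟨β, hβ⟩⟩ : Nonempty (Iio ζ) :=
    mk_ne_zero_iff.1 (aleph0_pos.trans h.unc).ne'
  exact (kz_le β).trans_lt hβ

theorem bdd_fam {ι : Type u} (f : ι → K) (hι : #ι < #(Iio ζ)) (hf : ∀ i, f i < ζ) :
    ∃ β, β < ζ ∧ ∀ i, f i < β := by
  obtain ⟨β, h1, h2⟩ := h.reg (range f) (by rintro _ ⟨i, rfl⟩; exact hf i)
    (mk_range_le.trans_lt hι)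
  exact ⟨β, h1, fun i => h2 _ ⟨i, rfl⟩⟩

theorem mk_iUnion_lt {α ι : Type u} (f : ι → Set α) (hι : #ι < #(Iio ζ))
    (hf : ∀ i, #(f i) < #(Iio ζ)) : #(⋃ i, f i) < #(Iio ζ) := by
  choose g h1 h2 using fun i => exists_le_mk_Iio_of_lt (hf i)
  obtain ⟨k, h3, h4⟩ := h.bdd_fam g hι h1
  exact (mk_iUnion_le f).trans_lt ((mul_le_mul' le_rfl (ciSup_le' fun i =>
    (h2 i).trans (mk_le_mk_of_subset (Iio_subset_Iio (h4 i).le)))).trans_lt
      (mul_lt_of_lt h.unc.le hι (h.init k h3)))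

theorem mk_fin_lt {α : Type u} [Finite α] : #α < #(Iio ζ) := (lt_aleph0_of_finite α).trans h.unc

theorem rk_Sm_lt {ι : Type u} [Rk K ι] (S : Sm K ι) (h1 : #S.1 < #(Iio ζ))
    (h2 : ∀ t ∈ S.1, rk t < ζ) : rk S < ζ := by
  obtain ⟨β, h3, h4⟩ := h.bdd_fam (fun t : S.1 => (rk t.1 : K)) h1 fun t => h2 t.1 t.2
  exact ((rk_Sm_le S β).2 fun t ht => (h4 ⟨t, ht⟩).le).trans_lt h3

theorem rk_pi_lt {d : ℕ} (f : Fin d → K) (h2 : ∀ j, f j < ζ) : rk f < ζ := by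
  obtain ⟨β, h3, h4⟩ := h.bdd_fam (fun j : ULift.{u} (Fin d) => f j.down) h.mk_fin_lt
    fun j => h2 j.down
  exact ((rk_pi_le f β).2 fun j => (h4 ⟨j⟩).le).trans_lt h3

theorem mk_pi_lt {d : ℕ} {β : K} (hβ : β < ζ) : #{f : Fin d → K | ∀ j, f j < β} < #(Iio ζ) := by
  have h1 : #{f : Fin d → K | ∀ j, f j < β} ≤ #(Fin d → Iio β) :=
    mk_le_of_injective (f := fun f j => ⟨f.1 j, f.2 j⟩) fun f g hfg =>
      Subtype.ext (funext fun j => Subtype.mk.inj (congrFun hfg j))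
  refine h1.trans_lt ?_
  simp only [mk_pi, prod_const, lift_uzero, mk_fin, lift_natCast, power_natCast]
  clear h1
  induction d with
  | zero => simpa using one_lt_aleph0.trans h.unc
  | succ d ih => rw [pow_succ]; exact mul_lt_of_lt h.unc.le ih (h.init β hβ)

end Good

def Closed (F : K → K) (ζ : K) : Prop := ∀ β, β < ζ → F β < ζ

/-- The stationary set of measure zero. -/
def Sset (K : Type u) [LinearOrder K] [Ms K] [WellFoundedLT K] : Set K :=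
  {ζ | Good ζ ∧ ∃ F, Closed F ζ ∧ ∀ β, β < ζ → Good β → ¬ Closed F β}

theorem exists_closed' (F : K → K) : ∃ ζ ∈ Sset K, Closed F ζ := by
  obtain ⟨ζ, h1, h2⟩ := wellFounded_lt.has_min {ζ : K | Good ζ ∧ Closed F ζ}
    (ae_good.and (diagK fun β => ae_gt (F β))).exists
  exact ⟨ζ, ⟨h1.1, F, h1.2, fun β hβ h3 h4 => h2 β ⟨h3, h4⟩ hβ⟩, h1.2⟩

theorem exists_closed {ι : Type u} [Rk K ι] (G : ι → K) (β₀ : K) :
    ∃ ζ ∈ Sset K, β₀ < ζ ∧ ∀ t, rk t < ζ → G t < ζ := by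
  choose F hF using fun β : K => bounded_fam (fun t : {t : ι | rk t ≤ β} => G t.1) (Rk.small β)
  obtain ⟨ζ, h1, h2⟩ := exists_closed' fun β => max (F β) β₀
  exact ⟨ζ, h1, (le_max_right _ _).trans_lt (h2 _ h1.1.kz_lt), fun t ht =>
    (hF (rk t) ⟨t, le_rfl⟩).trans ((le_max_left _ _).trans_lt (h2 _ ht))⟩

theorem ae_not_S : ∀ᶠ ζ in UF K, ζ ∉ Sset K := by
  classical
  apply ae_not
  intro hS
  have h1 : ∀ ζ : K, ∃ F : K → K, ζ ∈ Sset K →
      Closed F ζ ∧ ∀ β, β < ζ → Good β → ¬ Closed F β := by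
    intro ζ
    by_cases h : ζ ∈ Sset K
    · exact let ⟨F, hF⟩ := h.2; ⟨F, fun _ => hF⟩
    · exact ⟨id, fun h' => absurd h' h⟩
  choose F hF using h1
  choose G hG using fun β : K => regress (g := fun ζ => F ζ β)
    ((hS.and (ae_gt β)).mono fun ζ h => (hF ζ h.1).1 β h.2)
  have h2 := hS.and (diagK hG)
  obtain ⟨ζ₁, h3, h4⟩ := h2.exists
  obtain ⟨ζ₂, ⟨h5, h6⟩, h7⟩ := (h2.and (ae_gt ζ₁)).exists
  refine (hF ζ₂ h5).2 ζ₁ h7 h3.1 fun β hβ => ?_
  rw [h6 β (hβ.trans h7), ← h4 β hβ]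
  exact (hF ζ₁ h3).1 β hβ

/-! ### From a complete nonprincipal ultrafilter to a normal one -/

omit [Ms K] in
theorem exists_Ms (unc : ℵ₀ < #K) (iio : ∀ k : K, #(Iio k) < #K) (W : Ultrafilter K)
    (hW : ∀ S : Set (Set K), #S < #K → (∀ A ∈ S, A ∈ W) → ⋂₀ S ∈ W) (hn : ∀ x, {x} ∉ W) :
    Nonempty (Ms K) := by
  have : CardinalInterFilter (W : Filter K) #K := ⟨hW⟩
  have : CountableInterFilter (W : Filter K) :=
    CardinalInterFilter.toCountableInterFilter (W : Filter K) unc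
  have hwf : WellFounded fun f g : K → K => ∀ᶠ x in (W : Filter K), f x < g x := by
    rw [wellFounded_iff_isEmpty_descending_chain]
    refine ⟨fun ⟨c, hc⟩ => ?_⟩
    obtain ⟨x, hx⟩ := (eventually_countable_forall.2 hc).exists
    exact (wellFounded_iff_isEmpty_descending_chain.1 (wellFounded_lt (α := K))).false
      ⟨fun n => c n x, hx⟩
  obtain ⟨f, h1, h2⟩ := hwf.has_min {f | ∀ k, ¬ ∀ᶠ x in (W : Filter K), f x = k}
    ⟨id, fun k h => hn k h⟩
  refine ⟨⟨W.map f, unc, iio, fun S hS h => ?_, fun k => ?_, fun g hg => ?_⟩⟩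
  · have : ∀ᶠ x in (W : Filter K), ∀ A ∈ S, f x ∈ A := (eventually_cardinal_ball hS).2 h
    exact this
  · have h3 : #(Iic k) < #K := by
      rw [← Iio_insert]
      exact mk_insert_le.trans_lt (add_lt_of_lt unc.le (iio k) (one_lt_aleph0.trans unc))
    have : ∀ᶠ x in (W : Filter K), ∀ z ∈ Iic k, ¬ f x = z :=
      (eventually_cardinal_ball h3).2 fun z _ => Ultrafilter.eventually_not.2 (h1 z)
    exact this.mono fun x hx => not_le.1 fun h => hx _ h rfl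
  · by_contra hc
    exact h2 (g ∘ f) (fun k h => hc ⟨k, h⟩) hg

end Pool.Agent.Lib.MP_c8ac39_lc
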