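import Pool.Agent.Lib.MP_c8ac39_lc.Meas

/-! The Easton product over the stationary set and the ultrapower of its tails. -/

namespace Pool.Agent.Lib.MP_c8ac39_lc

open Cardinal Filter Set
open Pool.Agent.Lib.MP_2739cb_lc (mk_iUnion_le_of_le chain_lemma)

universe u v

@[ext] structure PC (K : Type u) [LinearOrder K] [Ms K] [WellFoundedLT K] where
  g : Set (K × K × K × K)
  fn : ∀ ζ a ξ v v', (ζ, a, ξ, v) ∈ g → (ζ, a, ξ, v') ∈ g → v = v'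
  ok : ∀ x ∈ g, x.1 ∈ Sset K ∧ x.2.1 < Lam x.1 ∧ x.2.2.1 < x.1 ∧ x.2.2.2 < x.1
  east : ∀ γ, Good γ → #{x ∈ g | x.1 ≤ γ} < #(Iio γ)
  small : #g < #K

variable {K : Type u} [LinearOrder K] [Ms K] [WellFoundedLT K]

namespace PC

instance : Preorder (PC K) where
  le q p := p.g ⊆ q.g
  le_refl _ := subset_rfl
  le_trans _ _ _ h1 h2 := Subset.trans h2 h1

theorem le_def {q p : PC K} : q ≤ p ↔ p.g ⊆ q.g := Iff.rfl

def res (A : Set K) (p : PC K) : PC K where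
  g := {x ∈ p.g | x.1 ∈ A}
  fn ζ a ξ v v' h h' := p.fn ζ a ξ v v' h.1 h'.1
  ok x hx := p.ok x hx.1
  east γ hγ := by
    refine lt_of_le_of_lt (mk_le_mk_of_subset ?_) (p.east γ hγ)
    exact fun _ hx => ⟨hx.1.1, hx.2⟩
  small := (mk_le_mk_of_subset fun _ hx => hx.1).trans_lt p.small

instance : OrderTop (PC K) where
  top := ⟨∅, fun _ _ _ _ _ h => h.elim, fun _ h => h.elim, fun γ hγ => by
    simpa using aleph0_pos.trans hγ.unc, by simpa using aleph0_pos.trans Ms.unc⟩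
  le_top _ := empty_subset _

theorem le_res (A : Set K) (p : PC K) : p ≤ p.res A := fun _ hx => hx.1

theorem mem_res {A : Set K} {p : PC K} {x : K × K × K × K} :
    x ∈ (p.res A).g ↔ x ∈ p.g ∧ x.1 ∈ A := Iff.rfl

def Compat (p q : PC K) : Prop := ∀ ζ a ξ v v', (ζ, a, ξ, v) ∈ p.g → (ζ, a, ξ, v') ∈ q.g → v = v'

theorem exists_lb {ι : Type u} (c : ι → PC K) (hfn : ∀ i j, Compat (c i) (c j)) (hι : #ι < #K)
    (he : ∀ γ, Good γ → (∃ i, ∃ x ∈ (c i).g, x.1 ≤ γ) → #ι < #(Iio γ)) :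
    ∃ q : PC K, q.g = ⋃ i, (c i).g := by
  refine ⟨⟨⋃ i, (c i).g, ?_, ?_, fun γ hγ => ?_, mk_iUnion_lt_K _ hι fun i => (c i).small⟩, rfl⟩
  · intro ζ a ξ v v' h h'
    obtain ⟨i, hi⟩ := mem_iUnion.1 h
    obtain ⟨j, hj⟩ := mem_iUnion.1 h'
    exact hfn i j ζ a ξ v v' hi hj
  · intro x hx
    obtain ⟨i, hi⟩ := mem_iUnion.1 hx
    exact (c i).ok x hi
  · by_cases h : ∃ i, ∃ x ∈ (c i).g, x.1 ≤ γ
    · refine lt_of_le_of_lt (mk_le_mk_of_subset ?_)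
        (hγ.mk_iUnion_lt (fun i => {x ∈ (c i).g | x.1 ≤ γ}) (he γ hγ h) fun i => (c i).east γ hγ)
      rintro x ⟨hx, h1⟩
      obtain ⟨i, hi⟩ := mem_iUnion.1 hx
      exact mem_iUnion.2 ⟨i, hi, h1⟩
    · have : {x ∈ ⋃ i, (c i).g | x.1 ≤ γ} = ∅ := by
        refine eq_empty_of_forall_notMem fun x hx => h ?_
        obtain ⟨i, hi⟩ := mem_iUnion.1 hx.1
        exact ⟨i, x, hi, hx.2⟩
      rw [this]
      simpa using aleph0_pos.trans hγ.unc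

theorem exists_lb₂ {p q : PC K} (h : Compat p q) : ∃ r : PC K, r.g = p.g ∪ q.g := by
  obtain ⟨r, hr⟩ := exists_lb (ι := ULift.{u} Bool) (fun b => if b.down then p else q)
    (by
      rintro ⟨_ | _⟩ ⟨_ | _⟩
      · exact q.fn
      · exact fun ζ a ξ v v' h1 h2 => (h ζ a ξ v' v h2 h1).symm
      · exact h
      · exact p.fn) mk_fin_lt fun γ hγ _ => hγ.mk_fin_lt
  refine ⟨r, hr.trans (subset_antisymm ?_ ?_)⟩
  · rintro x hx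
    obtain ⟨⟨_ | _⟩, hi⟩ := mem_iUnion.1 hx
    · exact Or.inr hi
    · exact Or.inl hi
  · rintro x (hx | hx)
    · exact mem_iUnion.2 ⟨⟨true⟩, hx⟩
    · exact mem_iUnion.2 ⟨⟨false⟩, hx⟩

theorem exists_le₂ {p q : PC K} (h : Compat p q) : ∃ r : PC K, r ≤ p ∧ r ≤ q := by
  obtain ⟨r, hr⟩ := exists_lb₂ h
  exact ⟨r, le_def.2 (hr ▸ subset_union_left), le_def.2 (hr ▸ subset_union_right)⟩

theorem compat_of_sep {p q : PC K} {α : K} (hp : ∀ x ∈ p.g, x.1 ≤ α) (hq : ∀ x ∈ q.g, α < x.1) :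
    Compat p q := fun ζ a ξ v v' h h' => absurd (hq (ζ, a, ξ, v') h') (not_lt.2 (hp (ζ, a, ξ, v) h))

/-- A condition living below `α` that extends the part of `r` below `α` is compatible with `r`. -/
theorem compat_of_res {p r : PC K} {α : K} (hp : ∀ x ∈ p.g, x.1 < α) (h : p ≤ r.res (Iio α)) :
    Compat p r := fun ζ a ξ v v' h1 h2 => p.fn ζ a ξ v v' h1 (h ⟨h2, hp (ζ, a, ξ, v) h1⟩)

noncomputable instance : Rk K (PC K) :=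
  Rk.pull (fun p => (⟨p.g, p.small⟩ : Sm K (K × K × K × K))) fun _ _ h =>
    PC.ext (Subtype.mk.inj h)

theorem lt_of_rk {p : PC K} {ζ : K} (h : rk p < ζ) : ∀ x ∈ p.g, x.1 < ζ := fun x hx =>
  ((le_max_left _ _).trans ((rk_Sm_le ⟨p.g, p.small⟩ _).1 le_rfl x hx)).trans_lt h

theorem rk_lt {p : PC K} {ζ : K} (hζ : Good ζ) (h : ∀ x ∈ p.g, x.1 < ζ) : rk p < ζ := by
  refine hζ.rk_Sm_lt ⟨p.g, p.small⟩ ?_ fun x hx => ?_
  · refine lt_of_le_of_lt (mk_le_mk_of_subset ?_) (p.east ζ hζ)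
    exact fun x hx => ⟨hx, (h x hx).le⟩
  · obtain ⟨-, h1, h2, h3⟩ := p.ok x hx
    have := h x hx
    exact max_lt this (max_lt (h1.trans (hζ.lam _ this)) (max_lt (h2.trans this) (h3.trans this)))

theorem rk_res_lt (p : PC K) {ζ : K} (hζ : Good ζ) : rk (p.res (Iio ζ)) < ζ :=
  rk_lt hζ fun _ hx => hx.2

theorem res_le_of_rk {q p : PC K} {ζ : K} (h : q ≤ p) (hp : rk p < ζ) : q.res (Iio ζ) ≤ p :=
  fun x hx => ⟨h hx, lt_of_rk hp x hx⟩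

end PC

structure RC (K : Type u) [LinearOrder K] [Ms K] [WellFoundedLT K] where
  f : K → PC K
  up : ∀ α, ∀ x ∈ (f α).g, α < x.1

namespace RC

instance : Preorder (RC K) where
  le g f := ∀ᶠ α in UF K, g.f α ≤ f.f α
  le_refl _ := Eventually.of_forall fun _ => le_rfl
  le_trans _ _ _ h1 h2 := (Eventually.and h1 h2).mono fun _ h => h.1.trans h.2

theorem le_def {g f : RC K} : g ≤ f ↔ ∀ᶠ α in UF K, g.f α ≤ f.f α := Iff.rfl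

instance : OrderTop (RC K) where
  top := ⟨fun _ => ⊤, fun _ _ h => h.elim⟩
  le_top _ := Eventually.of_forall fun _ => le_top

theorem exists_lb {ι : Type u} [LinearOrder ι] (r : ι → K) (hr : ∀ α, #{i | r i < α} ≤ #(Iio α))
    (J : Set ι) (c : ι → RC K) (hc : ∀ j ∈ J, ∀ k ∈ J, j ≤ k → c k ≤ c j) :
    ∃ b : RC K, ∀ k ∈ J, b ≤ c k := by
  have hs : ∀ β : K, #{i | r i ≤ β} < #K := fun β => by
    obtain ⟨β', h⟩ := exists_gt_K β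
    exact (mk_le_mk_of_subset fun i (hi : r i ≤ β) => (hi.trans_lt h : r i < β')).trans_lt
      ((hr β').trans_lt (Ms.iio β'))
  let _ : Rk K ι := ⟨r, hs⟩
  have h1 : ∀ᶠ α in UF K, ∀ t : ι × ι, rk t < α → t.1 ∈ J → t.2 ∈ J → t.1 ≤ t.2 →
      (c t.2).f α ≤ (c t.1).f α :=
    diagR fun t => ae_imp fun h1 => ae_imp fun h2 => ae_imp fun h3 => hc _ h1 _ h2 h3
  have h2 : ∀ α : K, ∃ q : PC K, (∀ x ∈ q.g, α < x.1) ∧ ((∀ t : ι × ι, rk t < α → t.1 ∈ J →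
      t.2 ∈ J → t.1 ≤ t.2 → (c t.2).f α ≤ (c t.1).f α) → ∀ k ∈ J, r k < α → q ≤ (c k).f α) := by
    intro α
    by_cases h : ∀ t : ι × ι, rk t < α → t.1 ∈ J → t.2 ∈ J → t.1 ≤ t.2 →
      (c t.2).f α ≤ (c t.1).f α
    swap
    · exact ⟨⊤, fun _ h => h.elim, fun h' => absurd h' h⟩
    have h3 : #{i | i ∈ J ∧ r i < α} ≤ #(Iio α) :=
      (mk_le_mk_of_subset fun i hi => hi.2).trans (hr α)
    obtain ⟨q, hq⟩ := PC.exists_lb (fun i : {i | i ∈ J ∧ r i < α} => (c i.1).f α) (by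
      intro i j ζ a ξ v v' h4 h5
      rcases le_total i.1 j.1 with h6 | h6
      · exact ((c j.1).f α).fn ζ a ξ v v' (h (i.1, j.1) (max_lt i.2.2 j.2.2) i.2.1 j.2.1 h6 h4) h5
      · exact ((c i.1).f α).fn ζ a ξ v v' h4 (h (j.1, i.1) (max_lt j.2.2 i.2.2) j.2.1 i.2.1 h6 h5))
      (h3.trans_lt (Ms.iio α)) (by
        rintro γ hγ ⟨i, x, hx, h4⟩
        exact h3.trans_lt (hγ.init α (((c i.1).up α x hx).trans_le h4)))
    refine ⟨q, fun x hx => ?_, fun _ k hk h4 x hx => ?_⟩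
    · rw [hq] at hx
      obtain ⟨i, hi⟩ := mem_iUnion.1 hx
      exact (c i.1).up α x hi
    · rw [hq]
      exact mem_iUnion.2 ⟨⟨k, hk, h4⟩, hx⟩
  choose q h3 h4 using h2
  exact ⟨⟨q, h3⟩, fun k hk => (h1.and (ae_gt (r k))).mono fun α h => h4 α h.1 k hk h.2⟩

end RC

abbrev PP2 (K : Type u) [LinearOrder K] [Ms K] [WellFoundedLT K] := PC K × RC K

theorem R_fusion {ι : Type u} (hι : #ι ≤ #K) (D : ι → PP2 K → Prop) (p₀ : PC K) (f₀ : RC K)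
    (ho : ∀ i x y, y ≤ x → D i x → D i y)
    (hd : ∀ i x, x ≤ (p₀, f₀) → ∃ y, y ≤ x ∧ D i y) :
    ∃ f₁, f₁ ≤ f₀ ∧ ∀ i p, p ≤ p₀ → ∃ p', p' ≤ p ∧ D i (p', f₁) := by
  classical
  obtain ⟨e⟩ : #(ι × PC K) ≤ #K := by
    rw [mk_prod, lift_id, lift_id]
    exact (mul_le_mul' hι (mk_le_K (PC K))).trans (mul_eq_self aleph0_le_K).le
  have h1 : ∀ (k : K) (f : RC K), ∃ g, g ≤ f ∧ ∀ t, e t = k → t.2 ≤ p₀ → f ≤ f₀ →
      ∃ p', p' ≤ t.2 ∧ D t.1 (p', g) := by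
    intro k f
    by_cases h : ∃ t, e t = k ∧ t.2 ≤ p₀ ∧ f ≤ f₀
    · obtain ⟨t, rfl, h2, h3⟩ := h
      obtain ⟨y, h4, h5⟩ := hd t.1 (t.2, f) ⟨h2, h3⟩
      refine ⟨y.2, h4.2, fun t' h6 _ _ => ?_⟩
      rw [e.injective h6]
      exact ⟨y.1, h4.1, h5⟩
    · exact ⟨f, le_rfl, fun t h2 h3 h4 => absurd ⟨t, h2, h3, h4⟩ h⟩
  choose Φ h2 h3 using h1
  obtain ⟨c, h4, h5⟩ := chain_lemma (fun a b : RC K => b ≤ a) (fun _ => le_rfl)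
    (fun _ _ _ h h' => h'.trans h) (ι := K) f₀ (by
      intro i c h4 h5
      by_cases h : ∃ j, j < i
      · obtain ⟨b, hb⟩ := RC.exists_lb id (fun _ => le_rfl) (Iio i) c
          fun j _ k hk hjk => h5 j k hjk hk
        obtain ⟨j, hj⟩ := h
        exact ⟨b, (hb j hj).trans (h4 j hj), hb⟩
      · exact ⟨f₀, le_rfl, fun j hj => absurd ⟨j, hj⟩ h⟩) Φ h2
  obtain ⟨b, hb⟩ := RC.exists_lb id (fun _ => le_rfl) univ c fun j _ k _ hjk => h4 j k hjk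
  refine ⟨b, ?_, fun i p hp => ?_⟩
  · obtain ⟨b', h6, -, h7⟩ := h5 (kz K)
    exact (hb _ trivial).trans (h7 ▸ (h2 _ _).trans h6)
  · obtain ⟨b', h6, -, h7⟩ := h5 (e (i, p))
    obtain ⟨p', h8, h9⟩ := h3 _ b' (i, p) rfl hp h6
    have h10 : b ≤ Φ (e (i, p)) b' := h7 ▸ hb _ trivial
    exact ⟨p', h8, ho i (p', Φ (e (i, p)) b') (p', b) ⟨le_rfl, h10⟩ h9⟩

theorem upper_lb (ζ : K) {ι : Type u} [LinearOrder ι]
    (hι : ∀ γ, Good γ → ζ < γ → #ι < #(Iio γ)) (hιK : #ι < #K) (J : Set ι) (c : ι → PP2 K)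
    (hup : ∀ j ∈ J, ∀ x ∈ (c j).1.g, ζ < x.1) (hc : ∀ j ∈ J, ∀ k ∈ J, j ≤ k → c k ≤ c j) :
    ∃ b : PP2 K, (∀ x ∈ b.1.g, ζ < x.1) ∧ ∀ k ∈ J, b ≤ c k := by
  obtain ⟨k₀, hk₀⟩ := exists_le_mk_Iio hιK
  obtain ⟨f, hf⟩ := RC.exists_lb (fun _ : ι => k₀) (by
    intro α
    by_cases h : k₀ < α
    · exact (mk_set_le _).trans (hk₀.trans (mk_le_mk_of_subset (Iio_subset_Iio h.le)))
    · simp [h]) J (fun j => (c j).2) fun j hj k hk hjk => (hc j hj k hk hjk).2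
  obtain ⟨q, hq⟩ := PC.exists_lb (fun j : J => (c j.1).1) (by
    intro i j ζ a ξ v v' h4 h5
    rcases le_total i.1 j.1 with h6 | h6
    · exact (c j.1).1.fn ζ a ξ v v' ((hc _ i.2 _ j.2 h6).1 h4) h5
    · exact (c i.1).1.fn ζ a ξ v v' h4 ((hc _ j.2 _ i.2 h6).1 h5))
    ((mk_set_le _).trans_lt hιK) (by
      rintro γ hγ ⟨i, x, hx, h4⟩
      exact (mk_set_le _).trans_lt (hι γ hγ ((hup _ i.2 x hx).trans_le h4)))
  refine ⟨(q, f), fun x hx => ?_, fun k hk => ⟨fun x hx => ?_, hf k hk⟩⟩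
  · rw [hq] at hx
    obtain ⟨i, hi⟩ := mem_iUnion.1 hx
    exact hup _ i.2 x hi
  · rw [hq]
    exact mem_iUnion.2 ⟨⟨k, hk⟩, hx⟩

theorem upper_fusion (ζ : K) {ι : Type u} (hι : ∀ γ, Good γ → ζ < γ → #ι < #(Iio γ))
    (hιK : #ι < #K) (D : ι → PP2 K → Prop) (p₀ : PC K) (f₀ : RC K) (hp₀ : ∀ x ∈ p₀.g, x.1 ≤ ζ)
    (ho : ∀ i x y, y ≤ x → D i x → D i y)
    (hd : ∀ i x, x ≤ (p₀, f₀) → ∃ y, y ≤ x ∧ D i y) :
    ∃ (w : PC K) (f : RC K), (∀ x ∈ w.g, ζ < x.1) ∧ f ≤ f₀ ∧ ∀ i, ∃ L : PC K, L ≤ p₀ ∧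
      (∀ x ∈ L.g, x.1 ≤ ζ) ∧ ∀ r g, r ≤ L → r ≤ w → g ≤ f → D i (r, g) := by
  classical
  obtain ⟨_, _⟩ := exists_wellFoundedLT ι
  let Up : PP2 K → Prop := fun b => ∀ x ∈ b.1.g, ζ < x.1
  have h1 : ∀ (i : ι) (b : PP2 K), ∃ b', (b' ≤ b ∧ (Up b → Up b')) ∧ (Up b → b.2 ≤ f₀ →
      ∃ L : PC K, L ≤ p₀ ∧ (∀ x ∈ L.g, x.1 ≤ ζ) ∧
        ∀ r g, r ≤ L → r ≤ b'.1 → g ≤ b'.2 → D i (r, g)) := by
    intro i b
    by_cases h : Up b ∧ b.2 ≤ f₀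
    · obtain ⟨r, h2, h3⟩ := PC.exists_le₂ (PC.compat_of_sep hp₀ h.1)
      obtain ⟨y, h4, h5⟩ := hd i (r, b.2) ⟨h2, h.2⟩
      refine ⟨(y.1.res (Ioi ζ), y.2), ⟨⟨fun x hx => ⟨h4.1 (h3 hx), h.1 x hx⟩, h4.2⟩,
        fun _ x hx => hx.2⟩, fun _ _ => ⟨y.1.res (Iic ζ), fun x hx => ⟨h4.1 (h2 hx), hp₀ x hx⟩,
          fun x hx => hx.2, fun r' g h6 h7 h8 => ho i y _ ⟨fun x hx => ?_, h8⟩ h5⟩⟩
      rcases le_or_gt x.1 ζ with h9 | h9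
      · exact h6 ⟨hx, h9⟩
      · exact h7 ⟨hx, h9⟩
    · exact ⟨b, ⟨le_rfl, id⟩, fun h2 h3 => absurd ⟨h2, h3⟩ h⟩
  choose Φ h2 h3 using h1
  have hU : Up (⊤, f₀) := fun _ h => h.elim
  obtain ⟨c, h4, h5⟩ := chain_lemma (fun a b : PP2 K => b ≤ a ∧ (Up a → Up b))
    (fun _ => ⟨le_rfl, id⟩) (fun _ _ _ h h' => ⟨h'.1.trans h.1, h'.2 ∘ h.2⟩) (ι := ι) (⊤, f₀) (by
      intro i c h4 h5
      by_cases h : ∃ j, j < i
      · obtain ⟨b, hb1, hb2⟩ := upper_lb ζ hι hιK (Iio i) c (fun j hj => (h4 j hj).2 hU)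
          fun j _ k hk hjk => (h5 j k hjk hk).1
        obtain ⟨j, hj⟩ := h
        exact ⟨b, ⟨(hb2 j hj).trans (h4 j hj).1, fun _ => hb1⟩, fun j hj => ⟨hb2 j hj, fun _ => hb1⟩⟩
      · exact ⟨_, ⟨le_rfl, id⟩, fun j hj => absurd ⟨j, hj⟩ h⟩) Φ h2
  have h6 : ∀ i, Up (c i) ∧ (c i).2 ≤ f₀ := by
    intro i
    obtain ⟨b, h6, -, h7⟩ := h5 i
    rw [h7]
    exact ⟨(h2 i b).2 (h6.2 hU), (h2 i b).1.2.trans h6.1.2⟩
  obtain ⟨b, hb1, hb2⟩ := upper_lb ζ hι hιK univ c (fun j _ => (h6 j).1)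
    fun j _ k _ hjk => (h4 j k hjk).1
  by_cases hne : Nonempty ι
  · obtain ⟨i₀⟩ := hne
    refine ⟨b.1, b.2, hb1, (hb2 i₀ trivial).2.trans (h6 i₀).2, fun i => ?_⟩
    obtain ⟨b', h7, -, h8⟩ := h5 i
    obtain ⟨L, h9, h10, h11⟩ := h3 i b' (h7.2 hU) h7.1.2
    exact ⟨L, h9, h10, fun r g h12 h13 h14 => h11 r g h12
      (h13.trans (h8 ▸ (hb2 i trivial).1)) (h14.trans (h8 ▸ (hb2 i trivial).2))⟩
  · exact ⟨⊤, f₀, hU, le_rfl, fun i => absurd ⟨i⟩ hne⟩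

end Pool.Agent.Lib.MP_c8ac39_lc
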