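import Pool.Agent.Lib.MP_c8ac39_lc.Kap

/-! Trees in the quotient model. -/

namespace Pool.Agent.Lib.MP_c8ac39_lc

open Pool.Agent.Lib.MP_2739cb_lc

universe u v

variable {P : Type u} [Preorder P] [OrderTop P] {κ : Mod P}

theorem sub_refl (a : Mod P) : Sub EM a a := fun _ h => h

theorem sub_trans {a b c : Mod P} (h1 : Sub EM a b) (h2 : Sub EM b c) : Sub EM a c :=
  fun z hz => h2 z (h1 z hz)

theorem sub_antisymm {a b : Mod P} (h1 : Sub EM a b) (h2 : Sub EM b a) : a = b :=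
  M_ext _ _ fun z => ⟨h1 z, h2 z⟩

theorem app_mono {s t a b : Mod P} (h : Sub EM s t) (h1 : App EM s a b) : App EM t a b :=
  let ⟨p, h2, h3⟩ := h1; ⟨p, h p h2, h3⟩

theorem irrefl {a b : Mod P} (h1 : EM a b) (h2 : Sub EM b a) : False :=
  M_zfc.not_mem_self a (h2 a h1)

theorem IsSeq.mem {z δ a b : Mod P} (h : IsSeq EM z δ) (h1 : App EM z a b) : EM a δ := by
  obtain ⟨p, h2, h3⟩ := h1
  obtain ⟨a', b', h4, h5⟩ := h.1 p h2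
  exact (M_zfc.isPair_inj h3 h5).1 ▸ h4

theorem IsSeq.unique {z δ a b b' : Mod P} (h : IsSeq EM z δ) (h1 : App EM z a b)
    (h2 : App EM z a b') : b = b' := (h.2 a (h.mem h1)).unique h1 h2

theorem cardLe_mono {C C' α : Mod P} (h : Sub EM C C') (h1 : CardLe EM C' α) : CardLe EM C α := by
  obtain ⟨f, hf⟩ := h1
  obtain ⟨g, h2, h3⟩ := fun_ex (fun a b => App EM f a b) C α fun a ha =>
    let ⟨b, h2, h3⟩ := M_zfc.app_total hf.1 (h a ha)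
    ⟨b, ⟨h3, h2⟩, fun b' hb' => M_zfc.app_unique hf.1 hb'.2 h2⟩
  exact ⟨g, h2, fun a a' b h4 h5 => hf.2 a a' b ((h3 _ _).1 h4).2.2 ((h3 _ _).1 h5).2.2⟩

namespace Big

variable (hκ : Big κ)
include hκ

theorem up {a b : Mod P} (h1 : EM a b) (h2 : EM b κ) : EM a κ := hκ.ord.1 b h2 a h1

theorem trans {a b c : Mod P} (h1 : EM a b) (h2 : EM b c) (h3 : EM c κ) : EM a c := by
  have h4 := hκ.up h2 h3
  have h5 := hκ.up h1 h4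
  by_contra hc
  obtain ⟨w, hw⟩ := sep (fun x => x = a ∨ x = b ∨ x = c) κ
  have ha := (hw a).2 ⟨h5, Or.inl rfl⟩
  have hb := (hw b).2 ⟨h4, Or.inr (Or.inl rfl)⟩
  have hc' := (hw c).2 ⟨h3, Or.inr (Or.inr rfl)⟩
  obtain ⟨y, h6, h7⟩ := M_found w ⟨a, ha⟩
  rcases ((hw y).1 h6).2 with rfl | rfl | rfl
  · rcases hκ.ord.2 y c h5 h3 with h | h | h
    · exact hc h
    · exact h7 b (h ▸ h2) hb
    · exact h7 c h hc'
  · exact h7 a h1 ha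
  · exact h7 b h2 hb

theorem sub_of_mem {a b : Mod P} (h1 : EM a b) (h2 : EM b κ) : Sub EM a b :=
  fun _ hz => hκ.trans hz h1 h2

theorem sub_of_not {a b : Mod P} (h1 : EM a κ) (h2 : EM b κ) (h : ¬ EM b a) : Sub EM a b := by
  rcases hκ.ord.2 a b h1 h2 with h3 | rfl | h3
  · exact hκ.sub_of_mem h3 h2
  · exact sub_refl _
  · exact absurd h3 h

theorem mem_of_not {a b : Mod P} (h1 : EM a κ) (h2 : EM b κ) (h : ¬ Sub EM a b) : EM b a := by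
  by_contra hc
  exact h (hκ.sub_of_not h1 h2 hc)

theorem succ {ζ : Mod P} (h : EM ζ κ) : ∃ ζ', EM ζ' κ ∧ ∀ z, EM z ζ' ↔ EM z ζ ∨ z = ζ := by
  obtain ⟨β, h1, h2⟩ := hκ.lim.2 ζ h
  obtain ⟨w, hw⟩ := sep (fun z => EM z ζ ∨ z = ζ) β
  have hw' : ∀ z, EM z w ↔ EM z ζ ∨ z = ζ := fun z => (hw z).trans ⟨fun h => h.2, fun h3 =>
    ⟨h3.elim (fun h3 => hκ.trans h3 h2 h1) fun h3 => h3 ▸ h2, h3⟩⟩
  refine ⟨w, ?_, hw'⟩
  rcases M_zfc.ord_sub (α := w) (β := β) (fun x hx z hz => (hw' z).2 (Or.inl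
    (((hw' x).1 hx).elim (fun h3 => hκ.trans hz h3 h) fun h3 => h3 ▸ hz)))
    ⟨fun x hx => hκ.sub_of_mem hx h1, fun x y hx hy => hκ.ord.2 x y (hκ.up hx h1) (hκ.up hy h1)⟩
    (fun z hz => ((hw z).1 hz).1) with h3 | h3
  · exact h3 ▸ h1
  · exact hκ.up h3 h1

theorem min (φ : Mod P → Prop) [Df1 φ] {a : Mod P} (h1 : EM a κ) (h2 : φ a) :
    ∃ ζ, EM ζ κ ∧ φ ζ ∧ ∀ η, EM η ζ → ¬ φ η := by
  obtain ⟨w, hw⟩ := sep φ κ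
  obtain ⟨y, h3, h4⟩ := M_found w ⟨a, (hw a).2 ⟨h1, h2⟩⟩
  exact ⟨y, ((hw y).1 h3).1, ((hw y).1 h3).2, fun η h5 h6 =>
    h4 η h5 ((hw η).2 ⟨hκ.up h5 ((hw y).1 h3).1, h6⟩)⟩

end Big

theorem Lv.mono {s t η ζ : Mod P} (h1 : Lv EM κ s η) (h2 : Lv EM κ t ζ) (h : Sub EM s t) :
    Sub EM η ζ := fun _ ha =>
  let ⟨_, hb, _⟩ := M_zfc.app_total h1.2 ha; (M_zfc.app_mem h2.2 (app_mono h hb)).1

theorem Lv.unique {t η ζ : Mod P} (h1 : Lv EM κ t η) (h2 : Lv EM κ t ζ) : η = ζ :=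
  sub_antisymm (h1.mono h2 (sub_refl _)) (h2.mono h1 (sub_refl _))

theorem Lv.mem {t w η θ p a b : Mod P} (h2 : Lv EM κ t η) (h3 : Lv EM κ w θ) (h4 : Sub EM t w)
    (h5 : EM p w) (h6 : IsPair EM p a b) (h7 : EM a η) : EM p t := by
  obtain ⟨b', ⟨q, h8, h9⟩, -⟩ := M_zfc.app_total h2.2 h7
  obtain rfl : b = b' := M_zfc.app_unique h3.2 ⟨p, h5, h6⟩ ⟨q, h4 q h8, h9⟩
  exact pair_unique h6 h9 ▸ h8

theorem Lv.sub {s t w η ζ θ : Mod P} (h1 : Lv EM κ s η) (h2 : Lv EM κ t ζ) (h3 : Lv EM κ w θ)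
    (h4 : Sub EM s w) (h5 : Sub EM t w) (h : Sub EM η ζ) : Sub EM s t := fun p hp =>
  let ⟨a, _, h6, _, h7⟩ := h1.2.1 p hp; h2.mem h3 h5 (h4 p hp) h7 (h a h6)

theorem Lv.eq {s t w η θ : Mod P} (h1 : Lv EM κ s η) (h2 : Lv EM κ t η) (h3 : Lv EM κ w θ)
    (h4 : Sub EM s w) (h5 : Sub EM t w) : s = t :=
  sub_antisymm (h1.sub h2 h3 h4 h5 (sub_refl _)) (h2.sub h1 h3 h5 h4 (sub_refl _))

theorem Lv.eq' {s t η : Mod P} (h1 : Lv EM κ s η) (h2 : Lv EM κ t η)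
    (h : Sub EM s t ∨ Sub EM t s) : s = t :=
  h.elim (fun h => h1.eq h2 h2 h (sub_refl _)) fun h => h1.eq h2 h1 (sub_refl _) h

theorem Lv.res {t ζ η : Mod P} (h1 : Lv EM κ t ζ) (h2 : EM η κ) (h : Sub EM η ζ) :
    ∃ s, Lv EM κ s η ∧ Sub EM s t := by
  obtain ⟨s, hs⟩ := sep (fun p => ∃ a b, EM a η ∧ IsPair EM p a b) t
  have h3 : Sub EM s t := fun p hp => ((hs p).1 hp).1
  refine ⟨s, ⟨h2, fun p hp => ?_, fun a ha => ?_⟩, h3⟩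
  · obtain ⟨h4, a, b, h5, h6⟩ := (hs p).1 hp
    exact ⟨a, b, h5, (M_zfc.app_mem h1.2 ⟨p, h4, h6⟩).2, h6⟩
  · obtain ⟨b, ⟨p, h4, h5⟩, -⟩ := M_zfc.app_total h1.2 (h a ha)
    exact ⟨b, ⟨p, (hs p).2 ⟨h4, a, b, ha, h5⟩, h5⟩, fun b' hb' =>
      M_zfc.app_unique h1.2 (app_mono h3 hb') ⟨p, h4, h5⟩⟩

theorem IsBranch.mem {T B t : Mod P} (h : IsBranch EM T B) (h1 : EM t T)
    (h2 : ∀ s, EM s B → Sub EM s t ∨ Sub EM t s) : EM t B := by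
  obtain ⟨C, hC⟩ := sep (fun z => EM z B ∨ z = t) T
  rw [← h.2 C ⟨fun z hz => ((hC z).1 hz).1, fun a b ha hb => ?_⟩
    fun z hz => (hC z).2 ⟨h.1.1 z hz, Or.inl hz⟩]
  · exact (hC t).2 ⟨h1, Or.inr rfl⟩
  · rcases ((hC a).1 ha).2 with h3 | rfl <;> rcases ((hC b).1 hb).2 with h4 | rfl
    · exact h.1.2 a b h3 h4
    · exact h2 a h3
    · exact (h2 b h4).symm
    · exact Or.inl (sub_refl _)

namespace Big

variable (hκ : Big κ)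
include hκ

theorem cmp {s t w η ζ θ : Mod P} (h1 : Lv EM κ s η) (h2 : Lv EM κ t ζ) (h3 : Lv EM κ w θ)
    (h4 : Sub EM s w) (h5 : Sub EM t w) : Sub EM s t ∨ Sub EM t s := by
  by_cases h : EM ζ η
  · exact Or.inr (h2.sub h1 h3 h5 h4 (hκ.sub_of_mem h h1.1))
  · exact Or.inl (h1.sub h2 h3 h4 h5 (hκ.sub_of_not h1.1 h2.1 h))

theorem exists_branch {T C : Mod P} (hT : CardLe EM T κ) (hC : IsChain EM T C) :
    ∃ B, IsBranch EM T B ∧ Sub EM C B := by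
  obtain ⟨h, hh⟩ := hT
  obtain ⟨G, hG⟩ := hκ.greedy
    (fun ζ => ∀ t, App EM h t ζ → ∀ s, EM s C → Sub EM s t ∨ Sub EM t s)
    (fun ζ' ζ => ∀ t t', App EM h t' ζ' → App EM h t ζ → Sub EM t' t ∨ Sub EM t t')
  obtain ⟨B, hB⟩ := sep (fun t => ∃ ζ, EM ζ G ∧ App EM h t ζ) T
  have key : ∀ t, EM t T → (∀ s, EM s C → Sub EM s t ∨ Sub EM t s) →
      (∀ s, EM s B → Sub EM s t ∨ Sub EM t s) → EM t B := by
    intro t h1 h2 h3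
    obtain ⟨ζ, h4, h5⟩ := M_zfc.app_total hh.1 h1
    refine (hB t).2 ⟨h1, ζ, (hG ζ).2 ⟨h5, fun t' h6 => hh.2 _ _ _ h4 h6 ▸ h2,
      fun ζ' _ h6 t₁ t₂ h7 h8 => ?_⟩, h4⟩
    exact hh.2 _ _ _ h4 h8 ▸ h3 t₂ ((hB t₂).2 ⟨(M_zfc.app_mem hh.1 h7).1, ζ', h6, h7⟩)
  have h1 : Sub EM C B := fun t ht => key t (hC.1 t ht) (fun s hs => hC.2 s t hs ht) fun s hs =>
    let ⟨_, ζ, h1, h2⟩ := (hB s).1 hs; (((hG ζ).1 h1).2.1 s h2 t ht).symm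
  refine ⟨B, ⟨⟨fun t ht => ((hB t).1 ht).1, fun s t hs ht => ?_⟩, fun C' h2 h3 =>
    sub_antisymm (fun t ht => key t (h2.1 t ht) (fun s hs => h2.2 s t (h3 s (h1 s hs)) ht)
      fun s hs => h2.2 s t (h3 s hs) ht) h3⟩, h1⟩
  obtain ⟨-, ζ, h2, h3⟩ := (hB s).1 hs
  obtain ⟨-, ζ', h4, h5⟩ := (hB t).1 ht
  rcases hκ.ord.2 ζ ζ' ((hG _).1 h2).1 ((hG _).1 h4).1 with h6 | rfl | h6
  · exact ((hG _).1 h4).2.2 ζ h6 h2 t s h3 h5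
  · exact Or.inl (hh.2 _ _ _ h3 h5 ▸ sub_refl _)
  · exact (((hG _).1 h2).2.2 ζ' h6 h4 s t h5 h3).symm

theorem ub {T C η : Mod P} (hT : WeakRegular EM κ T) (hC : IsChain EM T C) (hη : EM η κ)
    (h : ∀ t β, EM t C → Lv EM κ t β → Sub EM β η) :
    ∃ c, EM c T ∧ Lv EM κ c η ∧ ∀ t, EM t C → Sub EM t c := by
  obtain ⟨B, hB, h1⟩ := hκ.exists_branch (let ⟨f, hf, _⟩ := hT.2.1; ⟨f, hf⟩) hC
  have : ∃ t ζ, EM t B ∧ Lv EM κ t ζ ∧ ¬ EM ζ η := by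
    by_contra hc
    push Not at hc
    obtain ⟨f, h2, h3⟩ := fun_ex (fun t ζ => Lv EM κ t ζ) B η fun t ht =>
      let ⟨ζ, h2⟩ := (hT.1 t (hB.1.1 t ht)).1
      ⟨ζ, ⟨hc t ζ ht h2, h2⟩, fun _ h3 => h3.2.unique h2⟩
    exact (hT.2.2.2 B hB).2 B (sub_refl _) (fun t ht => ⟨t, ht, sub_refl _⟩) ⟨η, hη, f, h2,
      fun a a' b h4 h5 => ((h3 _ _).1 h4).2.2.eq' ((h3 _ _).1 h5).2.2
        (hB.1.2 a a' ((h3 _ _).1 h4).1 ((h3 _ _).1 h5).1)⟩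
  obtain ⟨t, ζ, h2, h3, h4⟩ := this
  obtain ⟨c, h5, h6⟩ := h3.res hη (hκ.sub_of_not hη h3.1 h4)
  refine ⟨c, (hT.1 t (hB.1.1 t h2)).2 c η h5 h6, h5, fun s hs => ?_⟩
  obtain ⟨β, h7⟩ := (hT.1 s (hC.1 s hs)).1
  rcases hB.1.2 s t (h1 s hs) h2 with h8 | h8
  · exact h7.sub h5 h3 h8 h6 (h s β hs h7)
  · exact h7.sub h5 h7 (sub_refl _) (sub_trans h6 h8) (h s β hs h7)

omit hκ in
theorem chain_single {T s : Mod P} (h : EM s T) : ∃ C, IsChain EM T C ∧ ∀ z, EM z C ↔ z = s := by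
  obtain ⟨C, hC⟩ := M_pair s s
  simp only [or_self] at hC
  exact ⟨C, ⟨fun z hz => (hC z).1 hz ▸ h, fun a b ha hb => Or.inl
    ((hC a).1 ha ▸ (hC b).1 hb ▸ sub_refl _)⟩, hC⟩

theorem extend {T s ζ γ : Mod P} (hT : WeakRegular EM κ T) (h1 : EM s T) (h2 : Lv EM κ s ζ)
    (h3 : EM γ κ) (h4 : Sub EM ζ γ) : ∃ x, EM x T ∧ Lv EM κ x γ ∧ Sub EM s x := by
  obtain ⟨C, h5, hC⟩ := chain_single h1
  obtain ⟨c, h6, h7, h8⟩ := hκ.ub hT h5 h3 fun t β ht h6 => by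
    obtain rfl := (hC t).1 ht
    exact h6.unique h2 ▸ h4
  exact ⟨c, h6, h7, h8 s ((hC s).2 rfl)⟩

/-- A subtree in which bounded chains have upper bounds and nodes have successors. -/
theorem weakRegular {T S : Mod P} (hT : WeakRegular EM κ T) (h1 : Sub EM S T)
    (h2 : IsTree EM κ S) (h3 : ∀ t, EM t S → ∃ s, IsSucc EM κ S t s)
    (h4 : ∀ B η, IsChain EM S B → EM η κ → (∀ t β, EM t B → Lv EM κ t β → Sub EM β η) →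
      ∃ w, EM w S ∧ ∀ t, EM t B → Sub EM t w) :
    WeakRegular EM κ S := by
  have k1 : ∀ B η, IsBranch EM S B → EM η κ → ∃ t, EM t B ∧ Lv EM κ t η := by
    intro B η hB hη
    have : ∃ t β, EM t B ∧ Lv EM κ t β ∧ ¬ Sub EM β η := by
      by_contra hc
      push Not at hc
      obtain ⟨w, h5, h6⟩ := h4 B η hB.1 hη hc
      obtain ⟨s, h7, h8, ζ, ζ', h9, h10, h11⟩ := h3 w h5
      exact irrefl ((h11 ζ).2 (Or.inr rfl)) (h10.mono h9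
        (h6 s (hB.mem h7 fun t ht => Or.inl (sub_trans (h6 t ht) h8))))
    obtain ⟨t, β, h5, h6, h7⟩ := this
    obtain ⟨s, h8, h9⟩ := h6.res hη (hκ.sub_of_mem (hκ.mem_of_not h6.1 hη h7) h6.1)
    refine ⟨s, hB.mem ((h2 t (hB.1.1 t h5)).2 s η h8 h9) fun t' ht' => ?_, h8⟩
    obtain ⟨β', h10⟩ := (h2 t' (hB.1.1 t' ht')).1
    rcases hB.1.2 t' t ht' h5 with h11 | h11
    · exact hκ.cmp h10 h8 h6 h11 h9
    · exact Or.inr (sub_trans h9 h11)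
  have k2 : CardLe EM S κ := cardLe_mono h1 (let ⟨f, hf, _⟩ := hT.2.1; ⟨f, hf⟩)
  refine ⟨h2, cardEq_of_le k2 ?_, fun ζ L hL => ?_, fun B hB => ⟨⟨B, sub_refl _,
    fun t ht => ⟨t, ht, sub_refl _⟩, ?_⟩, fun C h5 h6 h7 => ?_⟩⟩
  · obtain ⟨e, he⟩ := sep (fun z => ¬ z = z) S
    obtain ⟨B, hB, -⟩ := hκ.exists_branch (C := e) k2 ⟨fun z hz => ((he z).1 hz).1,
      fun z _ hz => absurd rfl ((he z).1 hz).2⟩
    obtain ⟨f, h5, h6⟩ := fun_ex (fun ζ t => EM t B ∧ Lv EM κ t ζ) κ S fun ζ hζ =>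
      let ⟨t, h5, h6⟩ := k1 B ζ hB hζ
      ⟨t, ⟨hB.1.1 t h5, h5, h6⟩, fun t' h7 => h7.2.2.eq' h6 (hB.1.2 _ _ h7.2.1 h5)⟩
    exact ⟨f, h5, fun a a' b h7 h8 => ((h6 _ _).1 h7).2.2.2.unique ((h6 _ _).1 h8).2.2.2⟩
  · obtain ⟨L', hL'⟩ := sep (fun t => Lv EM κ t ζ) T
    obtain ⟨α, h5, h6⟩ := hT.2.2.1 ζ L' hL'
    exact ⟨α, h5, cardLe_mono (fun t ht => (hL' t).2 ⟨h1 t ((hL t).1 ht).1, ((hL t).1 ht).2⟩) h6⟩
  · obtain ⟨f, h5, h6⟩ := fun_ex (fun t ζ => Lv EM κ t ζ) B κ fun t ht =>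
      let ⟨ζ, h5⟩ := (h2 t (hB.1.1 t ht)).1
      ⟨ζ, ⟨h5.1, h5⟩, fun _ h3 => h3.2.unique h5⟩
    exact ⟨f, ⟨h5, fun a a' b h7 h8 => ((h6 _ _).1 h7).2.2.eq' ((h6 _ _).1 h8).2.2
      (hB.1.2 a a' ((h6 _ _).1 h7).1 ((h6 _ _).1 h8).1)⟩, fun ζ hζ =>
        let ⟨t, h7, h8⟩ := k1 B ζ hB hζ; ⟨t, (h6 _ _).2 ⟨h7, hζ, h8⟩⟩⟩
  · obtain ⟨γ, h8, h9⟩ := hκ.bdd (fun t η => Lv EM κ t η) C h7 fun _ _ _ _ => Lv.unique
    obtain ⟨t, h10, h11⟩ := k1 B γ hB h8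
    obtain ⟨s, h12, h13⟩ := h6 t h10
    obtain ⟨η, h14⟩ := (h2 s (hB.1.1 s (h5 s h12))).1
    exact irrefl (h9 s η h12 h14.1 h14) (h11.mono h14 h13)

theorem cover {g G : Mod P} (hg : ∀ ζ, EM ζ κ → ∃ γ, App EM g ζ γ)
    (hg2 : ∀ ζ γ, App EM g ζ γ → EM γ κ ∧ Sub EM ζ γ)
    (hG : ∀ ζ, EM ζ G ↔ EM ζ κ ∧ ∀ ζ', EM ζ' ζ → EM ζ' G → ∀ γ, App EM g ζ' γ → EM γ ζ)
    {ζ : Mod P} (h : EM ζ κ) : ∃ ζ' γ, EM ζ' G ∧ App EM g ζ' γ ∧ Sub EM ζ' ζ ∧ Sub EM ζ γ := by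
  by_cases h1 : EM ζ G
  · obtain ⟨γ, h2⟩ := hg ζ h
    exact ⟨ζ, γ, h1, h2, sub_refl _, (hg2 _ _ h2).2⟩
  · rw [hG] at h1
    push Not at h1
    obtain ⟨ζ', h2, h3, γ, h4, h5⟩ := h1 h
    exact ⟨ζ', γ, h3, h4, hκ.sub_of_mem h2 h, hκ.sub_of_not h (hg2 _ _ h4).1 h5⟩

theorem exists_strong {T τ g G A : Mod P} (X : Mod P → Mod P → Prop) [Df2 X]
    (hT : WeakRegular EM κ T) (hg : ∀ ζ, EM ζ κ → ∃ γ, App EM g ζ γ)
    (hg1 : ∀ ζ γ γ', App EM g ζ γ → App EM g ζ γ' → γ = γ')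
    (hg2 : ∀ ζ γ, App EM g ζ γ → EM γ κ ∧ Sub EM ζ γ)
    (hG : ∀ ζ, EM ζ G ↔ EM ζ κ ∧ ∀ ζ', EM ζ' ζ → EM ζ' G → ∀ γ, App EM g ζ' γ → EM γ ζ)
    (hA : ∀ γ, EM γ A ↔ ∃ ζ, EM ζ G ∧ App EM g ζ γ)
    (hX : ∀ ζ γ s, App EM g ζ γ → EM s T → Lv EM κ s ζ → (∀ z, ¬ EM z s) ∨ Sub EM τ s →
      ∃ x, EM x T ∧ Lv EM κ x γ ∧ Sub EM s x ∧ X ζ x ∧ Sub EM τ x) :
    ∃ S, IsStrong EM κ T S A ∧ (∀ ζ, EM ζ κ → ∃ t, EM t S ∧ Lv EM κ t ζ) ∧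
      ∀ ζ γ t, EM ζ G → App EM g ζ γ → EM t S → Lv EM κ t γ → X ζ t := by
  have : ∀ {ι : Type} (f g : (ι → Mod P) → Mod P) [Tm f] [Tm g], Df fun v => X (f v) (g v) :=
    fun f g _ _ => Df.of2 X f g
  obtain ⟨e, B₀, he1, he⟩ := choice_fun (fun s x => ∀ ζ γ, Lv EM κ s ζ → App EM g ζ γ →
    EM x T ∧ Lv EM κ x γ ∧ Sub EM s x ∧ ((∀ z, ¬ EM z s) ∨ Sub EM τ s → X ζ x ∧ Sub EM τ x)) T (by
      intro s hs
      obtain ⟨ζ, h1⟩ := (hT.1 s hs).1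
      obtain ⟨γ, h2⟩ := hg ζ h1.1
      have : ∃ x, EM x T ∧ Lv EM κ x γ ∧ Sub EM s x ∧
          ((∀ z, ¬ EM z s) ∨ Sub EM τ s → X ζ x ∧ Sub EM τ x) := by
        by_cases h : (∀ z, ¬ EM z s) ∨ Sub EM τ s
        · obtain ⟨x, h3, h4, h5, h6⟩ := hX ζ γ s h2 hs h1 h
          exact ⟨x, h3, h4, h5, fun _ => h6⟩
        · obtain ⟨x, h3, h4, h5⟩ := hκ.extend hT hs h1 (hg2 _ _ h2).1 (hg2 _ _ h2).2
          exact ⟨x, h3, h4, h5, fun h' => absurd h' h⟩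
      obtain ⟨x, hx⟩ := this
      refine ⟨x, fun ζ' γ' h3 h4 => ?_⟩
      obtain rfl := h1.unique h3
      obtain rfl := hg1 _ _ _ h2 h4
      exact hx)
  obtain ⟨S, hS⟩ := sep (fun t => ∀ s x ζ, Lv EM κ s ζ → EM ζ G → Sub EM s t → App EM e s x →
    Sub EM t x ∨ Sub EM x t) T
  have hST : Sub EM S T := fun t ht => ((hS t).1 ht).1
  have k0 : ∀ t ζ η, EM t T → Lv EM κ t ζ → EM η κ → Sub EM η ζ →
      ∃ s x, Lv EM κ s η ∧ Sub EM s t ∧ App EM e s x := by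
    intro t ζ η h1 h2 h3 h4
    obtain ⟨s, h5, h6⟩ := h2.res h3 h4
    obtain ⟨x, h7, -⟩ := M_zfc.app_total he1 ((hT.1 t h1).2 s η h5 h6)
    exact ⟨s, x, h5, h6, h7⟩
  have k1 : IsTree EM κ S := by
    refine fun t ht => ⟨(hT.1 t (hST t ht)).1, fun s η h1 h2 => (hS s).2
      ⟨(hT.1 t (hST t ht)).2 s η h1 h2, fun s' x ζ h3 h4 h5 h6 => ?_⟩⟩
    obtain ⟨γ, h7⟩ := hg ζ h3.1
    obtain ⟨θ, h8⟩ := (hT.1 t (hST t ht)).1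
    rcases ((hS t).1 ht).2 s' x ζ h3 h4 (sub_trans h5 h2) h6 with h9 | h9
    · exact Or.inl (sub_trans h2 h9)
    · exact hκ.cmp h1 (he _ _ h6 _ _ h3 h7).2.1 h8 h2 h9
  have k2 : ∀ ζ t, EM t S → Lv EM κ t ζ → EM ζ A → ∀ s, IsSucc EM κ T t s → EM s S := by
    rintro γ t ht h1 h2 s ⟨h3, h4, ζ₁, ζ₂, h5, h6, h7⟩
    obtain rfl := h1.unique h5
    obtain ⟨ζ', h8, h9⟩ := (hA _).1 h2
    refine (hS s).2 ⟨h3, fun s' x ζ h10 h11 h12 h13 => ?_⟩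
    obtain ⟨γ', h14⟩ := hg ζ h10.1
    obtain ⟨-, h15, h16, -⟩ := he _ _ h13 _ _ h10 h14
    by_cases h : EM γ ζ
    · exact Or.inl (sub_trans (h6.sub h10 h6 (sub_refl _) h12 fun z hz =>
        ((h7 z).1 hz).elim (fun h' => hκ.trans h' h h10.1) fun h' => h' ▸ h) h16)
    · refine Or.inr (sub_trans ?_ h4)
      rcases ((hS t).1 ht).2 s' x ζ h10 h11
        (h10.sub h1 h6 h12 h4 (hκ.sub_of_not h10.1 h1.1 h)) h13 with h17 | h17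
      · refine h15.sub h1 h15 (sub_refl _) h17 ?_
        rcases hκ.ord.2 ζ ζ' h10.1 ((hG _).1 h8).1 with h18 | rfl | h18
        · exact hκ.sub_of_mem ((hg2 _ _ h9).2 _ (((hG _).1 h8).2 ζ h18 h11 _ h14)) h1.1
        · exact hg1 _ _ _ h9 h14 ▸ sub_refl _
        · exact absurd (((hG _).1 h11).2 ζ' h18 h8 _ h9) h
      · exact h17
  have k3 : ∀ ζ t, EM t S → Lv EM κ t ζ → ¬ EM ζ A → ∃! s, IsSucc EM κ S t s := by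
    intro ζ t ht h1 h2
    obtain ⟨ζ', γ, h3, h4, h5, h6⟩ := hκ.cover hg hg2 hG h1.1
    have h7 : EM ζ γ := hκ.mem_of_not (hg2 _ _ h4).1 h1.1 fun h =>
      h2 ((hA _).2 ⟨ζ', h3, sub_antisymm h6 h ▸ h4⟩)
    obtain ⟨s₀, x, h8, h9, h10⟩ := k0 t ζ ζ' (hST t ht) h1 ((hG _).1 h3).1 h5
    obtain ⟨h11, h12, -⟩ := he _ _ h10 _ _ h8 h4
    have h13 : Sub EM t x := (((hS t).1 ht).2 s₀ x ζ' h8 h3 h9 h10).resolve_right fun h =>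
      irrefl h7 (h12.mono h1 h)
    obtain ⟨ζ₁, h14, h15⟩ := hκ.succ h1.1
    have h16 : Sub EM ζ₁ γ := fun z hz => ((h15 z).1 hz).elim (h6 z) fun h => h ▸ h7
    obtain ⟨s, h17, h18⟩ := h12.res h14 h16
    have h19 : Sub EM t s := h1.sub h17 h12 h13 h18 fun z hz => (h15 z).2 (Or.inl hz)
    refine ⟨s, ⟨(hS s).2 ⟨(hT.1 x h11).2 s ζ₁ h17 h18, fun s' x' ζ'' h20 h21 h22 h23 => ?_⟩, h19,
      ζ, ζ₁, h1, h17, h15⟩, ?_⟩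
    · obtain ⟨γ', h24⟩ := hg ζ'' h20.1
      obtain ⟨-, h25, -⟩ := he _ _ h23 _ _ h20 h24
      rcases hκ.ord.2 ζ'' ζ' h20.1 h8.1 with h26 | rfl | h26
      · refine Or.inr (sub_trans ((((hS t).1 ht).2 s' x' ζ'' h20 h21 (h20.sub h1 h17 h22 h19
          (sub_trans (hκ.sub_of_mem h26 h8.1) h5)) h23).resolve_left fun h => ?_) h19)
        exact irrefl (h5 _ (((hG _).1 h3).2 ζ'' h26 h21 _ h24)) (h1.mono h25 h)
      · obtain rfl := h20.eq h8 h17 h22 (sub_trans h9 h19)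
        exact Or.inl (M_zfc.app_unique he1 h10 h23 ▸ h18)
      · exact (irrefl (((hG _).1 h21).2 ζ' h26 h3 _ h4) (sub_trans (h20.mono h17 h22) h16)).elim
    · rintro s' ⟨h20, h21, ζ₂, ζ₃, h22, h23, h24⟩
      obtain rfl := h1.unique h22
      obtain rfl : ζ₁ = ζ₃ := M_ext _ _ fun z => (h15 z).trans (h24 z).symm
      refine h23.eq h17 h12 ?_ h18
      exact (((hS s').1 h20).2 s₀ x ζ' h8 h3 (sub_trans h9 h21) h10).elim id fun h =>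
        h23.sub h12 h23 (sub_refl _) h h16
  have k4 : WeakRegular EM κ S := by
    refine hκ.weakRegular hT hST k1 (fun t ht => ?_) fun B η hB hη h => ?_
    · obtain ⟨ζ, h1⟩ := (k1 t ht).1
      by_cases h2 : EM ζ A
      · obtain ⟨ζ₁, h3, h4⟩ := hκ.succ h1.1
        obtain ⟨s, h5, h6, h7⟩ := hκ.extend hT (hST t ht) h1 h3 fun z hz => (h4 z).2 (Or.inl hz)
        exact ⟨s, k2 ζ t ht h1 h2 s ⟨h5, h7, ζ, ζ₁, h1, h6, h4⟩, h7, ζ, ζ₁, h1, h6, h4⟩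
      · exact (k3 ζ t ht h1 h2).exists
    · obtain ⟨b, h1, h2, h3⟩ := hκ.min (fun η => ∀ t β, EM t B → Lv EM κ t β → Sub EM β η) hη h
      have h4 : ∀ ξ, EM ξ b → ∃ t β, EM t B ∧ Lv EM κ t β ∧ EM ξ β := by
        intro ξ hξ
        have := h3 ξ hξ
        push Not at this
        obtain ⟨t, β, h4, h5, h6⟩ := this
        exact ⟨t, β, h4, h5, hκ.mem_of_not h5.1 (hκ.up hξ h1) h6⟩
      obtain ⟨w, h5, h6, h7⟩ := hκ.ub hT ⟨sub_trans hB.1 hST, hB.2⟩ h1 h2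
      refine ⟨w, (hS w).2 ⟨h5, fun s x ζ h8 h9 h10 h11 => ?_⟩, h7⟩
      obtain ⟨γ, h12⟩ := hg ζ h8.1
      by_cases h13 : EM ζ b
      · by_cases h14 : ∃ t, EM t B ∧ Sub EM x t
        · obtain ⟨t, h14, h15⟩ := h14
          exact Or.inr (sub_trans h15 (h7 t h14))
        · push Not at h14
          obtain ⟨t₁, β₁, h15, h16, h17⟩ := h4 ζ h13
          have h18 : Sub EM s t₁ := h8.sub h16 h6 h10 (h7 _ h15) (hκ.sub_of_mem h17 h16.1)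
          have h19 : ∀ t, EM t B → Sub EM s t → Sub EM t x := fun t h19 h20 =>
            (((hS t).1 (hB.1 t h19)).2 s x ζ h8 h9 h20 h11).resolve_right (h14 t h19)
          refine Or.inl fun p hp => ?_
          obtain ⟨a, y, h20, -, h21⟩ := h6.2.1 p hp
          obtain ⟨t₂, β₂, h22, h23, h24⟩ := h4 a h20
          have h25 := h23.mem h6 (h7 _ h22) hp h21 h24
          rcases hB.2 t₁ t₂ h15 h22 with h26 | h26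
          · exact h19 t₂ h22 (sub_trans h18 h26) p h25
          · exact h19 t₁ h15 h18 p (h26 p h25)
      · exact Or.inl (sub_trans (h6.sub h8 h6 (sub_refl _) h10 (hκ.sub_of_not h1 h8.1 h13))
          (he _ _ h11 _ _ h8 h12).2.2.1)
  refine ⟨S, ⟨hST, k4, fun h t ht => ?_, fun ζ t h1 h2 => ⟨k3 ζ t h1 h2, k2 ζ t h1 h2⟩⟩,
    fun ζ hζ => ?_, fun ζ γ t h1 h2 h3 h4 => ?_⟩
  · obtain ⟨ζ, h1⟩ := (k1 t ht).1
    obtain ⟨ζ', γ, h2, h3, -, h4⟩ := hκ.cover hg hg2 hG h1.1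
    obtain ⟨x, h5, h6, h7⟩ := hκ.extend k4 ht h1 (hg2 _ _ h3).1 h4
    obtain ⟨s, s', h8, h9, h10⟩ := h x (hST x h5)
    have h11 := k2 γ x h5 h6 ((hA _).2 ⟨ζ', h2, h3⟩)
    exact ⟨x, h5, h7, s, s', ⟨h11 s h8, h8.2⟩, ⟨h11 s' h9, h9.2⟩, h10⟩
  · obtain ⟨e, he⟩ := sep (fun z => ¬ z = z) S
    obtain ⟨c, h1, h2, -⟩ := hκ.ub (C := e) k4 ⟨fun z hz => ((he z).1 hz).1,
      fun z _ hz => absurd rfl ((he z).1 hz).2⟩ hζ fun z _ hz => absurd rfl ((he z).1 hz).2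
    exact ⟨c, h1, h2⟩
  · obtain ⟨s, x, h5, h6, h7⟩ := k0 t γ ζ (hST t h3) h4 ((hG _).1 h1).1 (hg2 _ _ h2).2
    obtain ⟨-, h8, -, h9⟩ := he _ _ h7 _ _ h5 h2
    rw [h4.eq' h8 (((hS t).1 h3).2 s x ζ h5 h1 h6 h7)]
    refine (h9 ?_).1
    by_cases h10 : ∀ z, ¬ EM z s
    · exact Or.inl h10
    right
    obtain ⟨o, h11, -, h12⟩ := hκ.min (fun z => z = z) h4.1 rfl
    have h13 : ∀ η, ¬ EM η o := fun η h => h12 η h rfl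
    have h14 : EM o G := (hG o).2 ⟨h11, fun η h => absurd h (h13 η)⟩
    obtain ⟨r, x₀, h15, h16, h17⟩ := k0 t γ o (hST t h3) h4 h11 fun η h => absurd h (h13 η)
    obtain ⟨γ₀, h18⟩ := hg o h11
    obtain ⟨-, h19, -, h20⟩ := he _ _ h17 _ _ h15 h18
    have h21 : EM γ₀ ζ := by
      refine ((hG _).1 h1).2 o (hκ.mem_of_not h5.1 h11 fun h => h10 fun p hp => ?_) h14 _ h18
      obtain ⟨a, -, h21, -⟩ := h5.2.1 p hp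
      exact h13 a (h a h21)
    refine sub_trans (h20 (Or.inl fun p hp => ?_)).2 (h19.sub h5 h4
      ((((hS t).1 h3).2 r x₀ o h15 h14 h16 h17).resolve_left fun h => ?_) h6
      (hκ.sub_of_mem h21 h5.1))
    · obtain ⟨a, -, h21, -⟩ := h15.2.1 p hp
      exact h13 a h21
    · exact irrefl h21 (sub_trans (hg2 _ _ h2).2 (h4.mono h19 h))

end Big

end Pool.Agent.Lib.MP_c8ac39_lc
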