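import Pool.Agent.Lib.MP_c8ac39_lc.Pos
import Pool.Agent.Lib.MP_2739cb_lc.Names

/-! The name for a complete ultrafilter on `K` in the extension. -/

namespace Pool.Agent.Lib.MP_c8ac39_lc

open Cardinal Filter Set
open Pool.Agent.Lib.MP_2739cb_lc (RO)

universe u v

variable {K : Type u} [LinearOrder K] [Ms K] [WellFoundedLT K]

def BU (X : K → RO (PP2 K)) (x : PP2 K) : Prop :=
  ∀ᶠ α in UF K, ∀ r, r ≤ x.1 → r ≤ x.2.f α → (X α).s (r, x.2)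

theorem BU.mono {X : K → RO (PP2 K)} {x y : PP2 K} (h : BU X x) (hy : y ≤ x) : BU X y :=
  (Eventually.and h hy.2).mono fun _ h1 r h2 h3 =>
    RO.mono (h1.1 r (h2.trans hy.1) (h3.trans h1.2)) ⟨le_rfl, hy.2⟩

def inU (X : K → RO (PP2 K)) : RO (PP2 K) := RO.dense (BU X)

theorem inU_intro {X : K → RO (PP2 K)} {x : PP2 K} (h : BU X x) : (inU X).s x :=
  RO.dense_intro (fun _ _ h1 h2 => h2.mono h1) h

theorem inU_mono {X X' : K → RO (PP2 K)} {x : PP2 K} (h : (inU X).s x)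
    (hX : ∀ γ y, y ≤ x → (X γ).s y → (X' γ).s y) : (inU X').s x := by
  intro y hy
  obtain ⟨z, hz, h1⟩ := h y hy
  exact ⟨z, hz, Eventually.mono h1 fun α h2 r h3 h4 =>
    hX α (r, z.2) (le_trans (b := z) ⟨h3, le_rfl⟩ (hz.trans hy)) (h2 r h3 h4)⟩

theorem inU_of_ae {X : K → RO (PP2 K)} {x : PP2 K} (h : ∀ᶠ α in UF K, (X α).s x) :
    (inU X).s x :=
  inU_intro (h.mono fun _ h1 _ h2 _ => RO.mono h1 ⟨h2, le_rfl⟩)

theorem inU_nonempty {X : K → RO (PP2 K)} {x : PP2 K} (h : (inU X).s x) :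
    ∃ y, y ≤ x ∧ ∃ α, (X α).s y := by
  obtain ⟨z, hz, h1⟩ := h x le_rfl
  obtain ⟨α, h2, h3⟩ := (Eventually.and h1 (ae_gt (rk z.1))).exists
  obtain ⟨r, h4, h5⟩ := PC.exists_le₂
    (PC.compat_of_sep (fun x hx => (PC.lt_of_rk h3 x hx).le) (z.2.up α))
  exact ⟨(r, z.2), le_trans (b := z) ⟨h4, le_rfl⟩ hz, α, h2 r h4 h5⟩

theorem le_of_res {r p : PC K} {α : K} (hα : α ∉ Sset K) (h1 : r ≤ p.res (Iio α))
    (h2 : r ≤ p.res (Ioi α)) : r ≤ p := by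
  intro x hx
  rcases lt_trichotomy x.1 α with h | h | h
  · exact h1 ⟨hx, h⟩
  · exact absurd (h ▸ (p.ok x hx).1) hα
  · exact h2 ⟨hx, h⟩

theorem inU_em (X : K → RO (PP2 K)) (x : PP2 K) :
    ∃ y, y ≤ x ∧ ((inU X).s y ∨ (inU fun γ => RO.not (X γ)).s y) := by
  classical
  obtain ⟨p, f⟩ := x
  obtain ⟨f₁, h1, h2⟩ := R_fusion (ι := K) le_rfl
    (fun α y => (X α).s y ∨ (RO.not (X α)).s y) p f
    (fun α x y hy h => h.imp (fun h => RO.mono h hy) fun h => RO.mono (a := RO.not (X α)) h hy)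
    fun α x _ => RO.decide (X α) x
  have h3 : ∀ α, ∃ q : PC K, rk p < α → q ≤ p ∧ q ≤ f₁.f α ∧
      ((X α).s (q, f₁) ∨ (RO.not (X α)).s (q, f₁)) := by
    intro α
    by_cases h : rk p < α
    · obtain ⟨r, h4, h5⟩ := PC.exists_le₂
        (PC.compat_of_sep (fun x hx => (PC.lt_of_rk h x hx).le) (f₁.up α))
      obtain ⟨q, h6, h7⟩ := h2 α r h4
      exact ⟨q, fun _ => ⟨h6.trans h4, h6.trans h5, h7⟩⟩
    · exact ⟨p, fun h' => absurd h' h⟩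
  choose q hq using h3
  obtain ⟨p', h4⟩ := regressR (g := fun α => (q α).res (Iio α))
    (ae_good.mono fun α hα => PC.rk_res_lt _ hα)
  let f₂ : RC K := ⟨fun α => (q α).res (Ioi α), fun α x hx => hx.2⟩
  have h5 : f₂ ≤ f₁ := (ae_gt (rk p)).mono fun α hα x hx => ⟨(hq α hα).2.1 hx, f₁.up α x hx⟩
  have h6 : p' ≤ p := by
    obtain ⟨α, h6, h7⟩ := (h4.and (ae_gt (rk p))).exists
    rw [← h6]
    exact PC.res_le_of_rk (hq α h7).1 h7
  refine ⟨(p', f₂), ⟨h6, h5.trans h1⟩, ?_⟩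
  have key : ∀ Y : K → RO (PP2 K), (∀ᶠ α in UF K, (Y α).s (q α, f₁)) → (inU Y).s (p', f₂) := by
    intro Y hY
    refine inU_intro ?_
    filter_upwards [hY, h4, ae_not_S] with α h7 h8 h9 r h10 h11
    exact RO.mono h7 ⟨le_of_res h9 (h8 ▸ h10) h11, h5⟩
  by_cases h : ∀ᶠ α in UF K, (X α).s (q α, f₁)
  · exact Or.inl (key _ h)
  · refine Or.inr (key _ ?_)
    filter_upwards [ae_not h, ae_gt (rk p)] with α h7 h8
    exact (hq α h8).2.2.resolve_left h7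

theorem inU_all {ι : Type u} (hι : #ι < #K) {X : ι → K → RO (PP2 K)} {x : PP2 K}
    (h : ∀ i, (inU (X i)).s x) : (inU fun γ => RO.all fun i => X i γ).s x := by
  classical
  rintro ⟨q, g⟩ hq
  obtain ⟨f₁, h1, h2⟩ := R_fusion hι.le (fun i y => BU (X i) y) q g
    (fun i x y hy h => h.mono hy) fun i y hy => h i y (hy.trans hq)
  have h3 : ∀ (i : ι) (a : PC K), ∃ a', a ≤ q → a' ≤ a ∧ BU (X i) (a', f₁) := by
    intro i a
    by_cases ha : a ≤ q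
    · exact let ⟨a', h⟩ := h2 i a ha; ⟨a', fun _ => h⟩
    · exact ⟨a, fun h => absurd h ha⟩
  choose e he using h3
  have h4 : ∀ᶠ α in UF K, ∀ a : PC K, rk a < α → ∀ i, a ≤ q → rk (e i a) < α ∧
      ∀ r, r ≤ e i a → r ≤ f₁.f α → (X i α).s (r, f₁) :=
    diagR fun a => ae_forall hι fun i => ae_imp fun ha => (ae_gt _).and (he i a ha).2
  refine ⟨(q, f₁), ⟨le_rfl, h1⟩, ?_⟩
  filter_upwards [h4, ae_good, ae_gt (rk q)] with α h5 h6 h7 r h8 h9 i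
  refine RO.reg fun y hy => ?_
  have h10 := PC.res_le_of_rk (hy.1.trans h8) h7
  obtain ⟨h11, h12⟩ := h5 _ (PC.rk_res_lt y.1 h6) i h10
  obtain ⟨r', h13, h14⟩ := PC.exists_le₂
    (PC.compat_of_res (PC.lt_of_rk h11) (he i _ h10).1)
  exact ⟨(r', y.2), ⟨h14, le_rfl⟩,
    RO.mono (h12 r' h13 (h14.trans (hy.1.trans h9))) ⟨le_rfl, hy.2⟩⟩

end Pool.Agent.Lib.MP_c8ac39_lc
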